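import Pool.Agent.L7h84.KP.Geo

/-! # Closed geodesics -/

open Real Set MeasureTheory
open scoped ContDiff

namespace Pool.Agent.L7h84.KP

open Pool.Agent.H206R2 Pool.Agent.L7h84.CL

variable {N p : ℕ} {J : Fin p → EE N →L[ℝ] EE N} {i₀ : Fin p} {e f : EE N}

lemma IsPair.profile_b {L : ℝ} {a b : ℝ → ℝ} (h : IsPair L a b) : Rot.IsProfile (2 * L) b where
  pos := by have := h.pa.pos; linarith
  smooth := h.smooth_b
  odd_zero := h.b_odd
  odd_L := fun r => by
    have h1 := h.b_even (L + r)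
    have h2 := h.b_even (L - r)
    have h3 := h.b_odd r
    rw [show 2 * L + r = L + (L + r) by ring, h1, show L - (L + r) = -r by ring, h3,
      show 2 * L - r = L + (L - r) by ring, h2, show L - (L - r) = r by ring]
  fpos := fun r h0 h2 => by
    rcases le_or_gt r L with hr | hr
    · exact h.b_pos r h0 hr
    · have h1 := h.b_even (r - L)
      rw [show L + (r - L) = r by ring] at h1
      rw [h1]
      exact h.b_pos _ (by linarith) (by linarith)
  deriv_zero := h.b_deriv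
  deriv_L := by
    have h1 : b = fun r => b (2 * L - r) := by
      funext r
      have h1 := h.b_even (r - L)
      rw [show L + (r - L) = r by ring, show L - (r - L) = 2 * L - r by ring] at h1
      exact h1
    have hd : Differentiable ℝ b := h.smooth_b.differentiable (by simp)
    have h2 : HasDerivAt (fun r => b (2 * L - r)) (deriv b (2 * L - 2 * L) * (-1)) (2 * L) := by
      have h3 : HasDerivAt (fun r : ℝ => 2 * L - r) (-1) (2 * L) := by
        simpa using (hasDerivAt_id (2 * L)).const_sub (2 * L)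
      exact (hd _).hasDerivAt.comp (2 * L) h3
    rw [← h1] at h2
    rw [h2.deriv, sub_self, h.b_deriv]
    norm_num

lemma IsPair.deriv_b_L {L : ℝ} {a b : ℝ → ℝ} (h : IsPair L a b) : deriv b L = 0 := by
  have hd : Differentiable ℝ b := h.smooth_b.differentiable (by simp)
  have h1 : b = fun r => b (2 * L - r) := by
    funext r
    have h1 := h.b_even (r - L)
    rw [show L + (r - L) = r by ring, show L - (r - L) = 2 * L - r by ring] at h1
    exact h1
  have h2 : HasDerivAt (fun r => b (2 * L - r)) (deriv b (2 * L - L) * (-1)) L := by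
    have h3 : HasDerivAt (fun r : ℝ => 2 * L - r) (-1) L := by
      simpa using (hasDerivAt_id L).const_sub (2 * L)
    exact (hd _).hasDerivAt.comp L h3
  rw [← h1] at h2
  have h3 := h2.deriv
  rw [show 2 * L - L = L by ring] at h3
  linarith

/-- Closed geodesics in the projective plane `ℝP²`. -/
theorem halfK (G : Good J i₀ e f) {L : ℝ} (hL : 0 < L) {a b : ℝ → ℝ} (hb : Rot.IsProfile (2 * L) b)
    {r θ : ℝ → ℝ} {c T : ℝ} (hr : ContDiff ℝ 2 r) (hθ : ContDiff ℝ 2 θ)
    (hpos : ∀ t, 0 < r t ∧ r t < 2 * L)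
    (h1 : ∀ t, deriv (deriv r) t = b (r t) * deriv b (r t) * deriv θ t ^ 2)
    (h2 : ∀ t, b (r t) ^ 2 * deriv θ t = c)
    (h3 : ∀ t, deriv r t ^ 2 + b (r t) ^ 2 * deriv θ t ^ 2 = 1)
    (hrT : ∀ t, r (t + T) = 2 * L - r t) (hθT : ∀ t, θ (t + T) = θ t + π) :
    ∃ γ : ℝ → EE N × (EE N → EE N), IsGeodesicK J L a b 1 γ ∧ ∀ t, γ (t + T) = γ t := by
  obtain ⟨e₁, e₂, hγ⟩ := polar_planar hb (le_refl 2) hr hθ hpos h1 h2 h3
  refine ⟨_, liftBK G (hb.smooth.differentiable (by simp)) hγ, fun t => ?_⟩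
  have key : Rot.polar (2 * L) (r (t + T)) (cos (θ (t + T)) • e₁ + sin (θ (t + T)) • e₂) =
      -Rot.polar (2 * L) (r t) (cos (θ t) • e₁ + sin (θ t) • e₂) := by
    unfold Rot.polar
    have e1 : π * (2 * L - r t) / (2 * L) = π - π * r t / (2 * L) := by field_simp
    rw [hrT, hθT, e1, Real.sin_pi_sub, Real.cos_pi_sub, Real.cos_add_pi, Real.sin_add_pi]
    refine Prod.ext ?_ ?_
    · simp only [Prod.fst_neg]
      module
    · simp only [Prod.snd_neg]
  simp only [key]
  rw [← kq_neg]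
  congr 1
  refine Prod.ext ?_ ?_
  · simp only [Prod.fst_neg, map_neg, neg_neg]
  · simp only [Prod.snd_neg, neg_neg]

/-- The lines of the `ℝP^k ⊂ 𝕂P^{n-1}` at `r = L`. -/
theorem circleK (G : Good J i₀ e f) {L : ℝ} {a b : ℝ → ℝ} (h : IsPair L a b) :
    ∃ γ : ℝ → EE N × (EE N → EE N), IsGeodesicK J L a b 1 γ ∧ ∀ t, γ (t + π * b L) = γ t := by
  have hL := h.pa.pos
  have hb := h.profile_b
  have hbL : 0 < b L := h.b_pos L hL le_rfl
  have hd := h.deriv_b_L
  have hdθ : deriv (fun t : ℝ => t / b L) = fun _ => 1 / b L := by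
    funext t
    exact ((hasDerivAt_id t).div_const _).deriv
  refine halfK G hL hb (r := fun _ => L) (θ := fun t => t / b L) (c := b L)
    contDiff_const (contDiff_id.div_const _) (fun _ => ⟨hL, by linarith⟩) ?_ ?_ ?_
    (fun _ => by ring) ?_
  · intro t; simp [hd]
  · intro t; rw [hdθ]; field_simp
  · intro t; rw [hdθ]; simp; field_simp
  · intro t; field_simp

/-- The closed geodesics in the flat tori in the orbits. -/
theorem torusK (G : Good J i₀ e f) {L : ℝ} {a b : ℝ → ℝ} {r₀ : ℝ} (ha : 0 < a r₀) (hb : 0 < b r₀)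
    (h2 : 2 * a r₀ ^ 2 ≤ b r₀ ^ 2)
    (hcr : a r₀ * deriv a r₀ * b r₀ + (b r₀ ^ 2 - 2 * a r₀ ^ 2) * deriv b r₀ = 0) :
    ∃ γ : ℝ → EE N × (EE N → EE N), IsGeodesicK J L a b 1 γ ∧
      ∀ t, γ (t + π * √(b r₀ ^ 4 / (b r₀ ^ 2 - a r₀ ^ 2))) = γ t := by
  set A := a r₀ with hA
  set B := b r₀ with hB
  set A' := deriv a r₀ with hA'
  set B' := deriv b r₀ with hB'
  have hAB : 0 < B ^ 2 - A ^ 2 := by nlinarith [pow_pos ha 2]
  have hM : 0 < B ^ 4 / (B ^ 2 - A ^ 2) := by positivity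
  set l := √(B ^ 4 / (B ^ 2 - A ^ 2)) with hl
  have hl0 : 0 < l := Real.sqrt_pos.2 hM
  have hl2 : l ^ 2 = B ^ 4 / (B ^ 2 - A ^ 2) := Real.sq_sqrt hM.le
  have hl2' : l ^ 2 * (B ^ 2 - A ^ 2) = B ^ 4 := by rw [hl2]; field_simp
  have h12 : 0 ≤ 1 - 2 * A ^ 2 / B ^ 2 := by
    rw [sub_nonneg, div_le_one (by positivity)]
    exact h2
  set x : ℝ := A ^ 2 / B ^ 2 * l with hx
  set m : ℝ := (B ^ 2 - A ^ 2) / B ^ 2 * l with hm
  set y : ℝ := √(1 - 2 * A ^ 2 / B ^ 2) * l with hy
  have hy2 : y ^ 2 = (1 - 2 * A ^ 2 / B ^ 2) * l ^ 2 := by rw [hy, mul_pow, Real.sq_sqrt h12]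
  have hm0 : 0 < m := by rw [hm]; positivity
  have hxy : x ^ 2 + y ^ 2 = m ^ 2 := by
    rw [hy2, hx, hm]
    field_simp
    ring
  have ha0 := ha.ne'
  have hb0 := hb.ne'
  have hAB0 := hAB.ne'
  have hl0' := hl0.ne'
  have dl : ∀ c : ℝ, deriv (fun t : ℝ => c * t) = fun _ => c := by
    intro c
    funext t
    simpa using ((hasDerivAt_id t).const_mul c).deriv
  refine planarK G (r := fun _ => r₀) (α := fun t => (x / A ^ 2 - x / B ^ 2) * t)
    (β := fun t => m / B ^ 2 * t) (x := x) (y := y) (m := m) hm0 hxy contDiff_const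
    (contDiff_const.mul contDiff_id) (contDiff_const.mul contDiff_id) (fun _ => ha0)
    (fun _ => hb0) ?_ ?_ ?_ ?_ (fun _ => rfl) ?_ ?_
  · intro t
    simp only [deriv_const']
    rw [← hA, ← hB, ← hA', ← hB', hy2, hx]
    have e1 : A' * ((A ^ 2 / B ^ 2 * l) ^ 2 / A ^ 3) + B' * ((1 - 2 * A ^ 2 / B ^ 2) * l ^ 2 / B ^ 3) =
        l ^ 2 / B ^ 5 * (A * A' * B + (B ^ 2 - 2 * A ^ 2) * B') := by
      field_simp
    rw [e1, hcr, mul_zero]
  · intro t
    rw [dl]
  · intro t
    rw [dl]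
  · intro t
    simp only [deriv_const']
    rw [← hA, ← hB, div_pow, div_pow, hy2, hx]
    field_simp
    linear_combination hl2'
  · intro t
    have e1 : (x / A ^ 2 - x / B ^ 2) * l = 1 := by
      rw [hx]
      field_simp
      linear_combination hl2'
    linear_combination π * e1
  · intro t
    have e1 : m / B ^ 2 * l = 1 := by
      rw [hm]
      field_simp
      linear_combination hl2'
    linear_combination π * e1

end Pool.Agent.L7h84.KP
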