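import Pool.Agent.L7h84.KP.Min

/-! # The critical point equations at the minimum -/

open Real Set MeasureTheory Filter Topology
open scoped ContDiff

namespace Pool.Agent.L7h84.KP

open Pool.Agent.H206R2 Pool.Agent.H206R2.Rot2 Pool.Agent.L7h84.CL.Mn Pool.Agent.L7h84.CL.Cr

lemma isOpen_KD (R : ℝ) : IsOpen (KD R) := by
  have h1 : IsOpen {c : ℝ × ℝ | 0 < c.1} := isOpen_lt continuous_const continuous_fst
  have h2 : IsOpen {c : ℝ × ℝ | 0 < c.2} := isOpen_lt continuous_const continuous_snd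
  have h3 : IsOpen {c : ℝ × ℝ | ll c < R} := isOpen_lt ll_cont continuous_const
  exact h1.inter (h2.inter h3)

section
variable {L R s : ℝ} {a b : ℝ → ℝ} (H : SP L R s a b)
include H

lemma SP.nearby {c : ℝ × ℝ} {p q : ℝ} (hE : Ess L a b s c p q)
    {C : ℝ → ℝ × ℝ} (hC : Tendsto C (𝓝[>] 0) (𝓝 c))
    (hl : ∀ δ, 0 < δ → ∀ᶠ ε in 𝓝[>] (0 : ℝ), ∃ x, p - δ < x ∧ x ≤ p ∧ 0 < x ∧
      1 ≤ Veff a b (C ε).1 (C ε).2 x)
    (hr : ∀ δ, 0 < δ → ∀ᶠ ε in 𝓝[>] (0 : ℝ), ∃ x, q ≤ x ∧ x < q + δ ∧ x < L ∧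
      1 ≤ Veff a b (C ε).1 (C ε).2 x) :
    ∀ᶠ ε in 𝓝[>] (0 : ℝ), ∃ p' q', Ess L a b s (C ε) p' q' ∧
      well L (Veff a b (C ε).1 (C ε).2) ((p + q) / 2) = Ioo p' q' := by
  have hK := H.kq
  have hac : Continuous a := hK.sf.continuous
  have hbc : Continuous b := hK.sh.continuous
  obtain ⟨hp, hpq, hqL, hVp, hVq, hin, hsp, hsq⟩ := hE
  have hsgc := sg_cont hac hbc s
  have e1 : ∀ᶠ z in 𝓝 (c, p), 0 < sg a b s z.1 z.2 :=
    hsgc.continuousAt.eventually (lt_mem_nhds hsp)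
  have e2 : ∀ᶠ z in 𝓝 (c, q), sg a b s z.1 z.2 < 0 :=
    hsgc.continuousAt.eventually (gt_mem_nhds hsq)
  rw [nhds_prod_eq, eventually_prod_iff] at e1 e2
  obtain ⟨A₁, hA₁, B₁, hB₁, h1⟩ := e1
  obtain ⟨A₂, hA₂, B₂, hB₂, h2⟩ := e2
  obtain ⟨δ₁, hδ₁, k1⟩ := Metric.eventually_nhds_iff.1 hB₁
  obtain ⟨δ₂, hδ₂, k2⟩ := Metric.eventually_nhds_iff.1 hB₂
  set δ := min (min δ₁ δ₂) ((q - p) / 2) with hδ
  have hδ0 : 0 < δ := lt_min (lt_min hδ₁ hδ₂) (by linarith)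
  have d1 : δ ≤ δ₁ := (min_le_left _ _).trans (min_le_left _ _)
  have d2 : δ ≤ δ₂ := (min_le_left _ _).trans (min_le_right _ _)
  have d3 : δ ≤ (q - p) / 2 := min_le_right _ _
  have hVin : ∀ r ∈ Icc (p + δ / 2) (q - δ / 2), Veff a b c.1 c.2 r < 1 := fun r hr =>
    hin r ⟨by linarith [hr.1], by linarith [hr.2]⟩
  have ev := hC.eventually (hK.ev_lt (by linarith) (by linarith) hVin)
  filter_upwards [ev, hC.eventually hA₁, hC.eventually hA₂, hl δ hδ0, hr δ hδ0]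
    with ε g1 g2 g3 ⟨x, x1, x2, x3, x4⟩ ⟨y, y1, y2, y3, y4⟩
  set V := Veff a b (C ε).1 (C ε).2 with hV
  have hVc : ContinuousOn V (Ioo 0 L) := hK.cont_V
  have hs0 : V ((p + q) / 2) < 1 := g1 _ ⟨by linarith, by linarith⟩
  obtain ⟨p', hxp, hps, hp1, hplt⟩ := TE.exists_last (g := V) (u := x) (v := (p + q) / 2)
    (by linarith) (hVc.mono fun z hz => ⟨x3.trans_le hz.1, by linarith [hz.2]⟩) x4 hs0
  obtain ⟨q', hsq', hqy, hq1, hqlt⟩ := TE.exists_first (g := V) (u := (p + q) / 2) (v := y)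
    (by linarith) (hVc.mono fun z hz => ⟨by linarith [hz.1], hz.2.trans_lt y3⟩) hs0 y4
  have hp2 : p' < p + δ := by
    by_contra hcon
    have := g1 p' ⟨by linarith, by linarith⟩
    linarith
  have hq2 : q - δ < q' := by
    by_contra hcon
    have := g1 q' ⟨by linarith, by linarith⟩
    linarith
  have hin' : ∀ z ∈ Ioo p' q', V z < 1 := by
    intro z hz
    rcases le_total z ((p + q) / 2) with h | h
    · exact hplt z hz.1 h
    · exact hqlt z h hz.2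
  have hp0 : 0 < p' := x3.trans_le hxp
  have hqL' : q' < L := hqy.trans_lt y3
  refine ⟨p', q', ⟨hp0, hps.trans hsq', hqL', hp1, hq1, hin', ?_, ?_⟩,
    well_eq hp0 hps hsq' hqL' hp1.ge hq1.ge hin'⟩
  · refine h1 g2 (k1 ?_)
    rw [Real.dist_eq, abs_lt]
    constructor <;> linarith
  · refine h2 g3 (k2 ?_)
    rw [Real.dist_eq, abs_lt]
    constructor <;> linarith

omit H in
lemma Veff_mono {a b : ℝ → ℝ} {c c' : ℝ × ℝ} (h1 : 0 ≤ c.1) (h2 : 0 ≤ c.2) (h3 : c.1 ≤ c'.1)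
    (h4 : c.2 ≤ c'.2) (r : ℝ) : Veff a b c.1 c.2 r ≤ Veff a b c'.1 c'.2 r := by
  unfold Veff
  rw [div_pow, div_pow, div_pow, div_pow]
  have h5 : c.1 ^ 2 ≤ c'.1 ^ 2 := pow_le_pow_left₀ h1 h3 2
  have h6 : c.2 ^ 2 ≤ c'.2 ^ 2 := pow_le_pow_left₀ h2 h4 2
  exact add_le_add (div_le_div_of_nonneg_right h5 (sq_nonneg _))
    (div_le_div_of_nonneg_right h6 (sq_nonneg _))

lemma SP.nearby_up {c : ℝ × ℝ} {p q : ℝ} (hE : Ess L a b s c p q) (h1 : 0 ≤ c.1) (h2 : 0 ≤ c.2)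
    {C : ℝ → ℝ × ℝ} (hC : Tendsto C (𝓝[>] 0) (𝓝 c))
    (hle : ∀ ε, 0 < ε → c.1 ≤ (C ε).1 ∧ c.2 ≤ (C ε).2) :
    ∀ᶠ ε in 𝓝[>] (0 : ℝ), ∃ p' q', Ess L a b s (C ε) p' q' ∧
      well L (Veff a b (C ε).1 (C ε).2) ((p + q) / 2) = Ioo p' q' := by
  refine H.nearby hE hC (fun δ hδ => ?_) (fun δ hδ => ?_)
  · filter_upwards [self_mem_nhdsWithin] with ε hε
    obtain ⟨g1, g2⟩ := hle ε hε
    exact ⟨p, by linarith, le_rfl, hE.1, by rw [← hE.2.2.2.1]; exact Veff_mono h1 h2 g1 g2 p⟩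
  · filter_upwards [self_mem_nhdsWithin] with ε hε
    obtain ⟨g1, g2⟩ := hle ε hε
    exact ⟨q, le_rfl, by linarith, hE.2.2.1,
      by rw [← hE.2.2.2.2.1]; exact Veff_mono h1 h2 g1 g2 q⟩

lemma SP.nearby_nd {c : ℝ × ℝ} {p q : ℝ} (hE : Ess L a b s c p q) {α β : ℝ} (hα : 0 < α)
    (hβ : 0 < β) (b1 : ∀ᶠ r in 𝓝[<] p, 1 + α * (p - r) ≤ Veff a b c.1 c.2 r)
    (b2 : ∀ᶠ r in 𝓝[>] q, 1 + β * (r - q) ≤ Veff a b c.1 c.2 r)
    {C : ℝ → ℝ × ℝ} (hC : Tendsto C (𝓝[>] 0) (𝓝 c)) :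
    ∀ᶠ ε in 𝓝[>] (0 : ℝ), ∃ p' q', Ess L a b s (C ε) p' q' ∧
      well L (Veff a b (C ε).1 (C ε).2) ((p + q) / 2) = Ioo p' q' := by
  have hK := H.kq
  have hp := hE.1
  have hpq := hE.2.1
  have hqL := hE.2.2.1
  have hcont : ∀ x, 0 < x → x < L → 1 < Veff a b c.1 c.2 x →
      ∀ᶠ ε in 𝓝[>] (0 : ℝ), 1 < Veff a b (C ε).1 (C ε).2 x := by
    intro x hx0 hxL hx
    have h1 : ContinuousAt (fun c : ℝ × ℝ => Veff a b c.1 c.2 x) c := by
      have h2 := hK.cont_joint hx0 hxL (c₀ := c)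
      exact h2.comp (f := fun c : ℝ × ℝ => (c, x)) (by fun_prop)
    exact hC.eventually (h1.eventually (lt_mem_nhds hx))
  refine H.nearby hE hC (fun δ hδ => ?_) (fun δ hδ => ?_)
  · obtain ⟨x, hx1, hx2⟩ := (b1.and (Ioo_mem_nhdsLT (show max (p - δ) 0 < p from
      max_lt (by linarith) hp))).exists
    have hx3 : 0 < x := (le_max_right _ _).trans_lt hx2.1
    have hx4 : p - δ < x := (le_max_left _ _).trans_lt hx2.1
    have hx5 : 1 < Veff a b c.1 c.2 x := by nlinarith [hx2.2]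
    filter_upwards [hcont x hx3 (by linarith [hx2.2]) hx5] with ε hε
    exact ⟨x, hx4, hx2.2.le, hx3, hε.le⟩
  · obtain ⟨x, hx1, hx2⟩ := (b2.and (Ioo_mem_nhdsGT (show q < min (q + δ) L from
      lt_min (by linarith) hqL))).exists
    have hx3 : x < L := hx2.2.trans_le (min_le_right _ _)
    have hx4 : x < q + δ := hx2.2.trans_le (min_le_left _ _)
    have hx5 : 1 < Veff a b c.1 c.2 x := by nlinarith [hx2.1]
    filter_upwards [hcont x (by linarith [hx2.1]) hx3 hx5] with ε hε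
    exact ⟨x, hx2.1.le, hx4, hx3, hε.le⟩

end

section
variable {L : ℝ} {f h : ℝ → ℝ} (hf : KQ L f h)
include hf

lemma KQ.contDiffOn (c₁ c₂ : ℝ) : ContDiffOn ℝ ∞ (Veff f h c₁ c₂) (Ioo 0 L) := by
  unfold Veff
  exact ((contDiffOn_const.div hf.sf.contDiffOn fun r hr =>
      (hf.fpos r hr.1 hr.2).ne').pow 2).add
    ((contDiffOn_const.div hf.sh.contDiffOn fun r hr => (hf.hpos r hr.1 hr.2).ne').pow 2)

lemma KQ.reg (c₁ c₂ : ℝ) {p : ℝ}
    (hp : p ∈ Ioo 0 L) : (∀ᶠ x in 𝓝 p, DifferentiableAt ℝ (Veff f h c₁ c₂) x) ∧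
      DifferentiableAt ℝ (deriv (Veff f h c₁ c₂)) p := by
  have h1 := hf.contDiffOn c₁ c₂
  rw [contDiffOn_infty_iff_deriv_of_isOpen isOpen_Ioo] at h1
  constructor
  · filter_upwards [isOpen_Ioo.mem_nhds hp] with x hx
    exact h1.1.differentiableAt (isOpen_Ioo.mem_nhds hx)
  · exact (h1.2.differentiableOn (by simp)).differentiableAt (isOpen_Ioo.mem_nhds hp)

lemma KQ.gf_cont : ContinuousOn (fun r => 1 / f r ^ 2) (Ioo 0 L) :=
  continuousOn_const.div (hf.sf.continuous.continuousOn.pow 2)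
    fun r hr => pow_ne_zero 2 (hf.fpos r hr.1 hr.2).ne'

lemma KQ.gh_cont : ContinuousOn (fun r => 1 / h r ^ 2) (Ioo 0 L) :=
  continuousOn_const.div (hf.sh.continuous.continuousOn.pow 2)
    fun r hr => pow_ne_zero 2 (hf.hpos r hr.1 hr.2).ne'

lemma KQ.gf_pos : ∀ r ∈ Ioo 0 L, 0 < 1 / f r ^ 2 :=
  fun r hr => by have := hf.fpos r hr.1 hr.2; positivity

lemma KQ.gh_pos : ∀ r ∈ Ioo 0 L, 0 < 1 / h r ^ 2 :=
  fun r hr => by have := hf.hpos r hr.1 hr.2; positivity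

end

/-- Critical point equations. -/
theorem SP.crit {L R s : ℝ} {a b : ℝ → ℝ} (H : SP L R s a b) {c : ℝ × ℝ} (hc : c ∈ KD R)
    {p q : ℝ} (hE : Ess L a b s c p q)
    (hmin : ∀ c' ∈ KD R, ∀ p' q', Ess L a b s c' p' q' → De R a b c p q ≤ De R a b c' p' q') :
    IntegrableOn (fun r => 1 / √(1 - Veff a b c.1 c.2 r)) (Ioo p q) ∧
    2 * ∫ r in Ioo p q, c.1 / (a r ^ 2 * √(1 - Veff a b c.1 c.2 r)) = π * (c.1 / nn c + 1) ∧
    2 * ∫ r in Ioo p q, c.2 / (b r ^ 2 * √(1 - Veff a b c.1 c.2 r)) = π * c.2 / nn c ∧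
    deriv (Veff a b c.1 c.2) p < 0 ∧ 0 < deriv (Veff a b c.1 c.2) q := by
  have hK := H.kq
  have hcT := hc
  have hE' := hE
  obtain ⟨hp, hpq, hq, hVp, hVq, hin, hsp, hsq⟩ := hE
  obtain ⟨hc1, hc2, hc3⟩ := hc
  have hn : 0 < nn c := by unfold nn; positivity
  obtain ⟨c₁, c₂⟩ := c
  simp only at hc1 hc2 hVp hVq hin ⊢
  have hπ := Real.pi_pos
  set n₀ := nn (c₁, c₂) with hn₀
  have hVc : ContinuousOn (Veff a b c₁ c₂) (Ioo 0 L) := hK.cont_V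
  have hps : p < (p + q) / 2 := by linarith
  have hsq2 : (p + q) / 2 < q := by linarith
  have t1 : Tendsto (fun ε : ℝ => (c₁ + ε, c₂)) (𝓝[>] 0) (𝓝 (c₁, c₂)) := by
    have : Continuous fun ε : ℝ => (c₁ + ε, c₂) := by fun_prop
    have h2 := this.tendsto 0
    rw [add_zero] at h2
    exact tendsto_nhdsWithin_of_tendsto_nhds h2
  have t2 : Tendsto (fun ε : ℝ => (c₁, c₂ + ε)) (𝓝[>] 0) (𝓝 (c₁, c₂)) := by
    have : Continuous fun ε : ℝ => (c₁, c₂ + ε) := by fun_prop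
    have h2 := this.tendsto 0
    rw [add_zero] at h2
    exact tendsto_nhdsWithin_of_tendsto_nhds h2
  have t3 : Tendsto (fun ε : ℝ => (c₁ - ε, c₂)) (𝓝[>] 0) (𝓝 (c₁, c₂)) := by
    have : Continuous fun ε : ℝ => (c₁ - ε, c₂) := by fun_prop
    have h2 := this.tendsto 0
    rw [sub_zero] at h2
    exact tendsto_nhdsWithin_of_tendsto_nhds h2
  have t4 : Tendsto (fun ε : ℝ => (c₁, c₂ - ε)) (𝓝[>] 0) (𝓝 (c₁, c₂)) := by
    have : Continuous fun ε : ℝ => (c₁, c₂ - ε) := by fun_prop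
    have h2 := this.tendsto 0
    rw [sub_zero] at h2
    exact tendsto_nhdsWithin_of_tendsto_nhds h2
  have lls : ∀ c' : ℝ × ℝ, ll c' = nn c' + c'.1 := fun _ => rfl
  -- first direction
  have F1 := F_gen (V := Veff a b c₁ c₂) (G := fun r => 1 / a r ^ 2) hVc hK.gf_cont hK.gf_pos
    hp hps hsq2 hq hVp hVq hin hc1 (κ₀ := π * (c₁ / n₀ + 1)) (by positivity) (by
      intro κ hκ
      filter_upwards [t1 ((isOpen_KD R).mem_nhds hcT),
        small_ev (A := π * (c₁ / n₀ + 1)) (B := π / (2 * n₀)) hκ rfl,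
        H.nearby_up hE' hc1.le hc2.le t1 (fun ε hε => ⟨by simp only; linarith, le_rfl⟩)]
        with ε hε hε2 ⟨p', q', k1, k2⟩
      have h2 := hmin (c₁ + ε, c₂) hε p' q' k1
      unfold De at h2
      rw [← k2, lls, lls] at h2
      simp only at h2
      rw [TF.veff_add1] at h2
      have h3 := nn_step (c := (c₁, c₂)) (c' := (c₁ + ε, c₂)) hn
      simp only at h3
      have h4 : π * (((c₁ + ε) ^ 2 + c₂ ^ 2 - (c₁ ^ 2 + c₂ ^ 2)) / (2 * n₀)) + π * ε =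
          π * (c₁ / n₀ + 1) * ε + π / (2 * n₀) * ε ^ 2 := by
        field_simp
        ring
      nlinarith)
  have F2 := F_gen (V := Veff a b c₁ c₂) (G := fun r => 1 / b r ^ 2) hVc hK.gh_cont hK.gh_pos
    hp hps hsq2 hq hVp hVq hin hc2 (κ₀ := π * c₂ / n₀) (by positivity) (by
      intro κ hκ
      filter_upwards [t2 ((isOpen_KD R).mem_nhds hcT),
        small_ev (A := π * c₂ / n₀) (B := π / (2 * n₀)) hκ rfl,
        H.nearby_up hE' hc1.le hc2.le t2 (fun ε hε => ⟨le_rfl, by simp only; linarith⟩)]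
        with ε hε hε2 ⟨p', q', k1, k2⟩
      have h2 := hmin (c₁, c₂ + ε) hε p' q' k1
      unfold De at h2
      rw [← k2, lls, lls] at h2
      simp only at h2
      rw [TF.veff_add2] at h2
      have h3 := nn_step (c := (c₁, c₂)) (c' := (c₁, c₂ + ε)) hn
      simp only at h3
      have h4 : π * ((c₁ ^ 2 + (c₂ + ε) ^ 2 - (c₁ ^ 2 + c₂ ^ 2)) / (2 * n₀)) =
          π * c₂ / n₀ * ε + π / (2 * n₀) * ε ^ 2 := by
        field_simp
        ring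
      nlinarith)
  have e1 : (fun r => c₁ / (a r ^ 2 * √(1 - Veff a b c₁ c₂ r))) =
      fun r => c₁ * (1 / a r ^ 2) / √(1 - Veff a b c₁ c₂ r) := by
    funext r
    rw [div_mul_eq_div_div, mul_one_div]
  have e2 : (fun r => c₂ / (b r ^ 2 * √(1 - Veff a b c₁ c₂ r))) =
      fun r => c₂ * (1 / b r ^ 2) / √(1 - Veff a b c₁ c₂ r) := by
    funext r
    rw [div_mul_eq_div_div, mul_one_div]
  have hsub2 : Icc p q ⊆ Ioo 0 L := fun r hr => ⟨by linarith [hr.1], by linarith [hr.2]⟩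
  have hsub3 : Ioo p q ⊆ Ioo 0 L := Ioo_subset_Icc_self.trans hsub2
  have hint : IntegrableOn (fun r => 1 / √(1 - Veff a b c₁ c₂ r)) (Ioo p q) := by
    obtain ⟨x1, hx1, hmin1⟩ := isCompact_Icc.exists_isMinOn (nonempty_Icc.mpr hpq.le)
      (hK.gf_cont.mono hsub2)
    have hm : 0 < 1 / a x1 ^ 2 := hK.gf_pos x1 (hsub2 hx1)
    set m := 1 / a x1 ^ 2 with hmdef
    have hI : IntegrableOn (fun r => 1 / (c₁ * m) *
      (c₁ * (1 / a r ^ 2) / √(1 - Veff a b c₁ c₂ r))) (Ioo p q) := F1.1.const_mul _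
    refine hI.mono' ?_ ?_
    · apply ContinuousOn.aestronglyMeasurable _ measurableSet_Ioo
      refine continuousOn_const.div (continuousOn_const.sub (hVc.mono hsub3)).sqrt ?_
      intro r hr
      exact (Real.sqrt_pos.mpr (by linarith [hin r hr])).ne'
    · refine (ae_restrict_iff' measurableSet_Ioo).mpr (ae_of_all _ fun r hr => ?_)
      have hs : 0 < √(1 - Veff a b c₁ c₂ r) := Real.sqrt_pos.mpr (by linarith [hin r hr])
      rw [Real.norm_eq_abs, abs_of_pos (by positivity)]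
      have h1 : m ≤ 1 / a r ^ 2 := hmin1 (Ioo_subset_Icc_self hr)
      have h2 : 1 / (c₁ * m) * (c₁ * (1 / a r ^ 2) / √(1 - Veff a b c₁ c₂ r)) =
          (1 / a r ^ 2 / m) * (1 / √(1 - Veff a b c₁ c₂ r)) := by
        field_simp
      rw [h2]
      have h3 : 1 ≤ 1 / a r ^ 2 / m := by rw [le_div_iff₀ hm, one_mul]; exact h1
      exact le_mul_of_one_le_left (by positivity) h3
  obtain ⟨r1, r2⟩ := hK.reg c₁ c₂ (hsub2 (left_mem_Icc.mpr hpq.le))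
  obtain ⟨r3, r4⟩ := hK.reg c₁ c₂ (hsub2 (right_mem_Icc.mpr hpq.le))
  have hp' : deriv (Veff a b c₁ c₂) p < 0 := TF.deriv_neg hpq r1 r2 hVp hin hint
  have hq' : 0 < deriv (Veff a b c₁ c₂) q := TF.deriv_pos hpq r3 r4 hVq hin hint
  have b1 := TG.left_bound r1.self_of_nhds hp' hVp
  have b2 := TG.right_bound r3.self_of_nhds hq' hVq
  have hα : 0 < -deriv (Veff a b c₁ c₂) p / 2 := by linarith
  have hβ : 0 < deriv (Veff a b c₁ c₂) q / 2 := by linarith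
  refine ⟨hint, ?_, ?_, hp', hq'⟩
  · rw [e1]
    refine le_antisymm F1.2 ?_
    refine G_gen (V := Veff a b c₁ c₂) (G := fun r => 1 / a r ^ 2) hVc hK.gf_cont hK.gf_pos
      hp hps hsq2 hq hVp hVq hin hα hβ b1 b2 hc1 (κ₀ := π * (c₁ / n₀ + 1))
      (by positivity) ?_ F1.1
    intro κ hκ0 hκ
    filter_upwards [t3 ((isOpen_KD R).mem_nhds hcT),
      small_ev' (A := π * (c₁ / n₀ + 1)) (B := π / (2 * n₀)) hκ rfl,
      H.nearby_nd hE' hα hβ b1 b2 t3] with ε hε hε2 ⟨p', q', k1, k2⟩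
    have h2 := hmin (c₁ - ε, c₂) hε p' q' k1
    unfold De at h2
    rw [← k2, lls, lls] at h2
    simp only at h2
    rw [TG.veff_sub1] at h2
    have h3 := nn_step (c := (c₁, c₂)) (c' := (c₁ - ε, c₂)) hn
    simp only at h3
    have h4 : π * (((c₁ - ε) ^ 2 + c₂ ^ 2 - (c₁ ^ 2 + c₂ ^ 2)) / (2 * n₀)) - π * ε =
        -(π * (c₁ / n₀ + 1) * ε - π / (2 * n₀) * ε ^ 2) := by
      field_simp
      ring
    nlinarith
  · rw [e2]
    refine le_antisymm F2.2 ?_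
    refine G_gen (V := Veff a b c₁ c₂) (G := fun r => 1 / b r ^ 2) hVc hK.gh_cont hK.gh_pos
      hp hps hsq2 hq hVp hVq hin hα hβ b1 b2 hc2 (κ₀ := π * c₂ / n₀)
      (by positivity) ?_ F2.1
    intro κ hκ0 hκ
    filter_upwards [t4 ((isOpen_KD R).mem_nhds hcT),
      small_ev' (A := π * c₂ / n₀) (B := π / (2 * n₀)) hκ rfl,
      H.nearby_nd hE' hα hβ b1 b2 t4] with ε hε hε2 ⟨p', q', k1, k2⟩
    have h2 := hmin (c₁, c₂ - ε) hε p' q' k1
    unfold De at h2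
    rw [← k2, lls, lls] at h2
    simp only at h2
    rw [TG.veff_sub2] at h2
    have h3 := nn_step (c := (c₁, c₂)) (c' := (c₁, c₂ - ε)) hn
    simp only at h3
    have h4 : π * ((c₁ ^ 2 + (c₂ - ε) ^ 2 - (c₁ ^ 2 + c₂ ^ 2)) / (2 * n₀)) =
        -(π * c₂ / n₀ * ε - π / (2 * n₀) * ε ^ 2) := by
      field_simp
      ring
    nlinarith

end Pool.Agent.L7h84.KP
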