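import Pool.Agent.L7h84.CL.Defs

/-!
# Metrics of cohomogeneity one on `ℂP^n` and `ℍP^n`: definitions

`𝕂 = ℂ` (`p = 1`) or `𝕂 = ℍ` (`p = 3`), `𝕂^n = ℝ^N` with the complex structures `J₁, …, J_p`, which
generate the multiplication by `𝕂`.  `𝕂P^n` is the union of the point `r = 0`, of the spheres `S^{N-1}`,
`0 < r < L`, and of `𝕂P^{n-1}` at `r = L`, the quotient of `S^{N-1}` by the unit sphere of `𝕂`.
A metric invariant under `U(n)` (`Sp(n) Sp(1)` if `𝕂 = ℍ`) is `dr² + a(r)² g_V + b(r)² g_H`, `V` being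
tangent to the fibres of `S^{N-1} → 𝕂P^{n-1}`; the Fubini-Study metric is `a = sin r cos r`, `b = sin r`,
`L = π / 2`, and all its geodesics are closed of length `π`.
-/

open Real Set MeasureTheory
open scoped ContDiff

namespace Pool.Agent.L7h84.KP

open Pool.Agent.L7h84.CL

variable {N p : ℕ}

/-- The structures of `ℂ^n` and of `ℍ^n`. -/
def IsField (J : Fin p → EuclideanSpace ℝ (Fin N) →L[ℝ] EuclideanSpace ℝ (Fin N)) : Prop :=
  IsClifford J ∧ (p = 1 ∨ p = 3 ∧ ∀ i j k : Fin p, i.1 = 0 → j.1 = 1 → k.1 = 2 → ∀ x,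
    J i (J j x) = J k x)

/-- The pairs of profiles of smooth metrics `dr² + a(r)² g_V + b(r)² g_H` on `𝕂P^n`. -/
structure IsPair (L : ℝ) (a b : ℝ → ℝ) : Prop where
  pa : H206R2.Rot.IsProfile L a
  smooth_b : ContDiff ℝ ∞ b
  b_odd : ∀ r, b (-r) = -b r
  b_even : ∀ r, b (L + r) = b (L - r)
  b_pos : ∀ r, 0 < r → r ≤ L → 0 < b r
  b_deriv : deriv b 0 = 1

/-- The point of `𝕂P^n` with the coordinates `(r, u)`, that is `[u sin (π r / (2 L)) : cos (π r / (2 L))]`,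
given by the entries `z w̄ ∈ 𝕂^n` and `x ↦ z ⟨z, x⟩` (with the `𝕂`-valued product) of the projector of the
line `[z : w]`, `|z|² + |w|² = 1`; for all real `r` by continuing the normal geodesic. -/
noncomputable def kpt (J : Fin p → EuclideanSpace ℝ (Fin N) →L[ℝ] EuclideanSpace ℝ (Fin N))
    (L r : ℝ) (u : EuclideanSpace ℝ (Fin N)) :
    EuclideanSpace ℝ (Fin N) × (EuclideanSpace ℝ (Fin N) → EuclideanSpace ℝ (Fin N)) :=
  ((Real.sin (π * r / (2 * L)) * Real.cos (π * r / (2 * L))) • u,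
    fun x => Real.sin (π * r / (2 * L)) ^ 2 •
      ((inner ℝ u x : ℝ) • u + ∑ i, (inner ℝ (J i u) x : ℝ) • J i u))

/-- `γ` is a geodesic of speed `v` of the metric `dr² + a(r)² g_V + b(r)² g_H` on `𝕂P^n`, written in
extended coordinates `(r, u)`: the Euler-Lagrange equations of the energy under the constraint `|u| = 1`. -/
def IsGeodesicK (J : Fin p → EuclideanSpace ℝ (Fin N) →L[ℝ] EuclideanSpace ℝ (Fin N))
    (L : ℝ) (a b : ℝ → ℝ) (v : ℝ)
    (γ : ℝ → EuclideanSpace ℝ (Fin N) × (EuclideanSpace ℝ (Fin N) → EuclideanSpace ℝ (Fin N))) :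
    Prop :=
  ∃ (r : ℝ → ℝ) (u : ℝ → EuclideanSpace ℝ (Fin N)), ContDiff ℝ 2 r ∧ ContDiff ℝ 2 u ∧
    (∀ t, ‖u t‖ = 1) ∧ (∀ t, γ t = kpt J L (r t) (u t)) ∧
    (∀ t, deriv (deriv r) t = a (r t) * deriv a (r t) * vert J (u t) (deriv u t) +
      b (r t) * deriv b (r t) * (‖deriv u t‖ ^ 2 - vert J (u t) (deriv u t))) ∧
    (∀ t, HasDerivAt (fun t => mom J a b (r t) (u t) (deriv u t))
      (-frc J a b (r t) (u t) (deriv u t) - (b (r t) ^ 2 * ‖deriv u t‖ ^ 2 +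
        2 * (a (r t) ^ 2 - b (r t) ^ 2) * vert J (u t) (deriv u t)) • u t) t) ∧
    (∀ t, deriv r t ^ 2 + a (r t) ^ 2 * vert J (u t) (deriv u t) +
      b (r t) ^ 2 * (‖deriv u t‖ ^ 2 - vert J (u t) (deriv u t)) = v ^ 2)

end Pool.Agent.L7h84.KP
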