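import Pool.Agent.L7h84.CL.Geo
import Pool.Agent.L7h84.KP.Defs

/-! # Geodesics of the metrics `dr² + a(r)² g_V + b(r)² g_H` on projective spaces -/

open Real Set MeasureTheory
open scoped ContDiff

namespace Pool.Agent.L7h84.KP

open Pool.Agent.H206R2 Pool.Agent.L7h84.CL

variable {N p : ℕ} {J : Fin p → EE N →L[ℝ] EE N} {i₀ : Fin p} {e f : EE N}

/-- The main construction of geodesics. -/
theorem planarK (G : Good J i₀ e f) {L : ℝ} {a b : ℝ → ℝ} {r α β : ℝ → ℝ} {x y m T : ℝ}
    (hm : 0 < m) (hxy : x ^ 2 + y ^ 2 = m ^ 2)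
    (hr : ContDiff ℝ 2 r) (hα : ContDiff ℝ 2 α) (hβ : ContDiff ℝ 2 β)
    (ha : ∀ t, a (r t) ≠ 0) (hb : ∀ t, b (r t) ≠ 0)
    (h1 : ∀ t, deriv (deriv r) t = deriv a (r t) * (x ^ 2 / a (r t) ^ 3) +
      deriv b (r t) * (y ^ 2 / b (r t) ^ 3))
    (h2 : ∀ t, deriv α t = x / a (r t) ^ 2 - x / b (r t) ^ 2)
    (h3 : ∀ t, deriv β t = m / b (r t) ^ 2)
    (h4 : ∀ t, deriv r t ^ 2 + (x / a (r t)) ^ 2 + (y / b (r t)) ^ 2 = 1)
    (hrT : ∀ t, r (t + T) = r t) (hαT : ∀ t, α (t + T) = α t + π)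
    (hβT : ∀ t, β (t + T) = β t + π) :
    ∃ γ : ℝ → EuclideanSpace ℝ (Fin N) × (EuclideanSpace ℝ (Fin N) → EuclideanSpace ℝ (Fin N)),
      IsGeodesicK J L a b 1 γ ∧ ∀ t, γ (t + T) = γ t := by
  set κ : ℝ := x / m with hκ
  set ν : ℝ := y / m with hν
  have hκν : κ ^ 2 + ν ^ 2 = 1 := by
    rw [hκ, hν, div_pow, div_pow, ← add_div, hxy, div_self (by positivity)]
  have hc := G.cl
  set e₂ : EE N := κ • J i₀ e + ν • f with he₂
  have ee : inner ℝ e e = (1 : ℝ) := by rw [real_inner_self_eq_norm_sq, G.ne]; norm_num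
  have ff : inner ℝ f f = (1 : ℝ) := by rw [real_inner_self_eq_norm_sq, G.nf]; norm_num
  have eK : inner ℝ e (J i₀ e) = (0 : ℝ) := inner_self_zero hc _ _
  have KK : inner ℝ (J i₀ e) (J i₀ e) = (1 : ℝ) := by rw [inner_J hc, ee]
  have fK : inner ℝ f (J i₀ e) = (0 : ℝ) := G.h1 i₀
  have Kf : inner ℝ (J i₀ e) f = (0 : ℝ) := by rw [real_inner_comm]; exact fK
  have ef : inner ℝ e f = (0 : ℝ) := by rw [real_inner_comm]; exact G.ef
  have P : Pair J i₀ e e₂ κ := by
    refine ⟨hc, ee, ?_, ?_, ?_⟩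
    · rw [he₂]
      simp only [inner_add_left, inner_add_right, real_inner_smul_left, real_inner_smul_right,
        KK, fK, Kf, ff]
      linear_combination hκν
    · rw [he₂]
      simp only [inner_add_right, real_inner_smul_right, eK, ef]
      ring
    · rw [he₂]
      simp only [inner_add_left, real_inner_smul_left, KK, fK]
      ring
  have m1 : e ∈ PP J i₀ e f := e_mem
  have m2 : e₂ ∈ PP J i₀ e f := add_mem (Submodule.smul_mem _ _ (G.K_mem m1))
    (Submodule.smul_mem _ _ f_mem)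
  -- the functions
  set K := J i₀ with hK
  set A₁ : ℝ → ℝ := fun t => cos (α t) * cos (β t) with hA1
  set A₂ : ℝ → ℝ := fun t => cos (α t) * sin (β t) with hA2
  set A₃ : ℝ → ℝ := fun t => sin (α t) * cos (β t) with hA3
  set A₄ : ℝ → ℝ := fun t => sin (α t) * sin (β t) with hA4
  have hrel : ∀ t, A₂ t * A₃ t = A₁ t * A₄ t := fun t => by simp only [hA1, hA2, hA3, hA4]; ring
  have hsq : ∀ t, A₁ t ^ 2 + A₂ t ^ 2 + A₃ t ^ 2 + A₄ t ^ 2 = 1 := fun t => by
    have s1 := Real.sin_sq_add_cos_sq (α t)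
    have s2 := Real.sin_sq_add_cos_sq (β t)
    simp only [hA1, hA2, hA3, hA4]
    linear_combination (sin (β t) ^ 2 + cos (β t) ^ 2) * s1 + s2
  have dα : ∀ t, HasDerivAt α (deriv α t) t := fun t =>
    (hα.differentiable (by norm_num)).differentiableAt.hasDerivAt
  have dβ : ∀ t, HasDerivAt β (deriv β t) t := fun t =>
    (hβ.differentiable (by norm_num)).differentiableAt.hasDerivAt
  have dr : ∀ t, HasDerivAt r (deriv r t) t := fun t =>
    (hr.differentiable (by norm_num)).differentiableAt.hasDerivAt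
  have dA1 : ∀ t, HasDerivAt A₁ (-(deriv α t) * A₃ t - deriv β t * A₂ t) t := fun t =>
    (((dα t).cos).fun_mul ((dβ t).cos)).congr_deriv (by simp only [hA2, hA3]; ring)
  have dA2 : ∀ t, HasDerivAt A₂ (-(deriv α t) * A₄ t + deriv β t * A₁ t) t := fun t =>
    (((dα t).cos).fun_mul ((dβ t).sin)).congr_deriv (by simp only [hA1, hA4]; ring)
  have dA3 : ∀ t, HasDerivAt A₃ (deriv α t * A₁ t - deriv β t * A₄ t) t := fun t =>
    (((dα t).sin).fun_mul ((dβ t).cos)).congr_deriv (by simp only [hA1, hA4]; ring)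
  have dA4 : ∀ t, HasDerivAt A₄ (deriv α t * A₂ t + deriv β t * A₃ t) t := fun t =>
    (((dα t).sin).fun_mul ((dβ t).sin)).congr_deriv (by simp only [hA2, hA3]; ring)
  set u : ℝ → EE N := fun t => l4 K e e₂ (A₁ t) (A₂ t) (A₃ t) (A₄ t) with hu
  set n : ℝ → EE N := fun t => l4 K e e₂ (-A₂ t) (A₁ t) (-A₄ t) (A₃ t) with hn
  have du : ∀ t, HasDerivAt u (l4 K e e₂ (-(deriv α t) * A₃ t - deriv β t * A₂ t)
      (-(deriv α t) * A₄ t + deriv β t * A₁ t) (deriv α t * A₁ t - deriv β t * A₄ t)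
      (deriv α t * A₂ t + deriv β t * A₃ t)) t := fun t =>
    hasDerivAt_l4 K e e₂ (dA1 t) (dA2 t) (dA3 t) (dA4 t)
  have dn : ∀ t, HasDerivAt n (l4 K e e₂ (-(-(deriv α t) * A₄ t + deriv β t * A₁ t))
      (-(deriv α t) * A₃ t - deriv β t * A₂ t) (-(deriv α t * A₂ t + deriv β t * A₃ t))
      (deriv α t * A₁ t - deriv β t * A₄ t)) t := fun t =>
    hasDerivAt_l4 K e e₂ (dA2 t).fun_neg (dA1 t) (dA4 t).fun_neg (dA3 t)
  have edu : deriv u = fun t => l4 K e e₂ (-(deriv α t) * A₃ t - deriv β t * A₂ t)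
      (-(deriv α t) * A₄ t + deriv β t * A₁ t) (deriv α t * A₁ t - deriv β t * A₄ t)
      (deriv α t * A₂ t + deriv β t * A₃ t) := funext fun t => (du t).deriv
  have hKu : ∀ t, K (u t) = l4 K e e₂ (-A₃ t) (-A₄ t) (A₁ t) (A₂ t) := fun t => P.K_l4 _ _ _ _
  have mu : ∀ t, u t ∈ PP J i₀ e f := fun t => G.l4_mem m1 m2 _ _ _ _
  have mdu : ∀ t, deriv u t ∈ PP J i₀ e f := fun t => by rw [edu]; exact G.l4_mem m1 m2 _ _ _ _
  have hω : ∀ t, inner ℝ (deriv u t) (K (u t)) = x / a (r t) ^ 2 := by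
    intro t
    rw [hKu, edu]
    simp only
    rw [P.inner_l4]
    have e1 : deriv α t + deriv β t * κ = x / a (r t) ^ 2 := by
      rw [h2, h3, hκ]
      have := ha t
      have := hb t
      field_simp
      ring
    rw [← e1]
    linear_combination (deriv α t + deriv β t * κ) * hsq t +
      (2 * deriv β t + 2 * deriv α t * κ) * hrel t
  have hnu2 : ∀ t, ‖u t‖ ^ 2 = 1 := by
    intro t
    rw [← real_inner_self_eq_norm_sq, hu]
    simp only
    rw [P.inner_l4]
    linear_combination hsq t + 2 * κ * hrel t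
  have hnu : ∀ t, ‖u t‖ = 1 := by
    intro t
    have h0 := norm_nonneg (u t)
    nlinarith [hnu2 t]
  have hndu : ∀ t, ‖deriv u t‖ ^ 2 = x ^ 2 / a (r t) ^ 4 + y ^ 2 / b (r t) ^ 4 := by
    intro t
    rw [← real_inner_self_eq_norm_sq, edu]
    simp only
    rw [P.inner_l4]
    have e1 : deriv α t ^ 2 + deriv β t ^ 2 + 2 * deriv α t * deriv β t * κ =
        x ^ 2 / a (r t) ^ 4 + y ^ 2 / b (r t) ^ 4 := by
      rw [h2, h3, hκ]
      have := ha t
      have := hb t
      field_simp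
      linear_combination (-a (r t) ^ 4) * hxy
    rw [← e1]
    linear_combination (deriv α t ^ 2 + deriv β t ^ 2 + 2 * deriv α t * deriv β t * κ) * hsq t +
      (4 * deriv α t * deriv β t + 2 * κ * (deriv α t ^ 2 + deriv β t ^ 2)) * hrel t
  have hvert : ∀ t, vert J (u t) (deriv u t) = (x / a (r t) ^ 2) ^ 2 := by
    intro t
    rw [G.vert_eq (mu t) (mdu t), ← hK, hω]
  have hmom : ∀ t, mom J a b (r t) (u t) (deriv u t) = m • n t := by
    intro t
    rw [G.mom_eq a b _ (mu t) (mdu t), ← hK, hω, hKu, edu, hn]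
    simp only [l4]
    have e1 : b (r t) ^ 2 * deriv α t + (a (r t) ^ 2 - b (r t) ^ 2) * (x / a (r t) ^ 2) = 0 := by
      rw [h2]
      have := ha t
      have := hb t
      field_simp
      ring
    have e2 : b (r t) ^ 2 * deriv β t = m := by
      rw [h3]
      have := hb t
      field_simp
    have g1 : b (r t) ^ 2 * (-(deriv α t) * A₃ t - deriv β t * A₂ t) +
        (a (r t) ^ 2 - b (r t) ^ 2) * (x / a (r t) ^ 2) * (-A₃ t) = m * (-A₂ t) := by
      linear_combination (-A₃ t) * e1 - A₂ t * e2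
    have g2 : b (r t) ^ 2 * (-(deriv α t) * A₄ t + deriv β t * A₁ t) +
        (a (r t) ^ 2 - b (r t) ^ 2) * (x / a (r t) ^ 2) * (-A₄ t) = m * A₁ t := by
      linear_combination (-A₄ t) * e1 + A₁ t * e2
    have g3 : b (r t) ^ 2 * (deriv α t * A₁ t - deriv β t * A₄ t) +
        (a (r t) ^ 2 - b (r t) ^ 2) * (x / a (r t) ^ 2) * (A₁ t) = m * (-A₄ t) := by
      linear_combination (A₁ t) * e1 - A₄ t * e2
    have g4 : b (r t) ^ 2 * (deriv α t * A₂ t + deriv β t * A₃ t) +
        (a (r t) ^ 2 - b (r t) ^ 2) * (x / a (r t) ^ 2) * (A₂ t) = m * A₃ t := by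
      linear_combination (A₂ t) * e1 + A₃ t * e2
    simp only [smul_add, smul_smul]
    rw [← g1, ← g2, ← g3, ← g4]
    module
  refine ⟨fun t => kpt J L (r t) (u t), ⟨r, u, hr, ?_, hnu, fun t => rfl, ?_, ?_, ?_⟩, ?_⟩
  · have cα : ContDiff ℝ 2 fun t => cos (α t) := Real.contDiff_cos.comp hα
    have sα : ContDiff ℝ 2 fun t => sin (α t) := Real.contDiff_sin.comp hα
    have cβ : ContDiff ℝ 2 fun t => cos (β t) := Real.contDiff_cos.comp hβ
    have sβ : ContDiff ℝ 2 fun t => sin (β t) := Real.contDiff_sin.comp hβ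
    rw [hu]
    unfold l4
    exact ((((cα.mul cβ).smul contDiff_const).add ((cα.mul sβ).smul contDiff_const)).add
      ((sα.mul cβ).smul contDiff_const)).add ((sα.mul sβ).smul contDiff_const)
  · intro t
    rw [hvert, hndu, h1]
    have := ha t
    have := hb t
    field_simp
    ring
  · intro t
    have hfun : (fun t => mom J a b (r t) (u t) (deriv u t)) = fun t => m • n t := funext hmom
    rw [hfun]
    refine ((dn t).const_smul m).congr_deriv ?_
    rw [G.frc_eq a b _ (mu t) (mdu t), ← hK, hω, hvert, hndu]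
    have hKdu : K (deriv u t) = l4 K e e₂ (-(deriv α t * A₁ t - deriv β t * A₄ t))
        (-(deriv α t * A₂ t + deriv β t * A₃ t)) (-(deriv α t) * A₃ t - deriv β t * A₂ t)
        (-(deriv α t) * A₄ t + deriv β t * A₁ t) := by
      rw [edu]
      exact P.K_l4 _ _ _ _
    rw [hKdu, hu]
    simp only [l4]
    have hat := ha t
    have hbt := hb t
    set c₁ : ℝ := (a (r t) ^ 2 - b (r t) ^ 2) * (x / a (r t) ^ 2) with hc₁
    set c₂ : ℝ := b (r t) ^ 2 * (x ^ 2 / a (r t) ^ 4 + y ^ 2 / b (r t) ^ 4) +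
      2 * (a (r t) ^ 2 - b (r t) ^ 2) * (x / a (r t) ^ 2) ^ 2 with hc₂
    have i1 : m * deriv α t = -(c₁ * deriv β t) := by
      rw [h2, h3, hc₁]
      field_simp
      ring
    have i2 : m * deriv β t = -(c₁ * deriv α t) + c₂ := by
      rw [h2, h3, hc₁, hc₂]
      field_simp
      linear_combination (-a (r t) ^ 4) * hxy
    have g1 : m * (-(-(deriv α t) * A₄ t + deriv β t * A₁ t)) =
        -(c₁ * (-(deriv α t * A₁ t - deriv β t * A₄ t))) - c₂ * A₁ t := by
      linear_combination A₄ t * i1 - A₁ t * i2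
    have g2 : m * (-(deriv α t) * A₃ t - deriv β t * A₂ t) =
        -(c₁ * (-(deriv α t * A₂ t + deriv β t * A₃ t))) - c₂ * A₂ t := by
      linear_combination (-A₃ t) * i1 - A₂ t * i2
    have g3 : m * (-(deriv α t * A₂ t + deriv β t * A₃ t)) =
        -(c₁ * (-(deriv α t) * A₃ t - deriv β t * A₂ t)) - c₂ * A₃ t := by
      linear_combination (-A₂ t) * i1 - A₃ t * i2
    have g4 : m * (deriv α t * A₁ t - deriv β t * A₄ t) =
        -(c₁ * (-(deriv α t) * A₄ t + deriv β t * A₁ t)) - c₂ * A₄ t := by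
      linear_combination (A₁ t) * i1 - A₄ t * i2
    simp only [smul_add, smul_smul]
    rw [g1, g2, g3, g4]
    module
  · intro t
    rw [hvert, hndu, one_pow, ← h4 t]
    have := ha t
    have := hb t
    field_simp
    ring
  · intro t
    simp only [hu, hA1, hA2, hA3, hA4, hrT, hαT, hβT, Real.cos_add_pi, Real.sin_add_pi, neg_mul_neg]

/-- planar geodesics of rotationally symmetric metrics -/
theorem polar_planar {L : ℝ} {f : ℝ → ℝ} (hf : Rot.IsProfile L f) {n : ℕ} (hn : 2 ≤ n)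
    {r θ : ℝ → ℝ} {c : ℝ} (hr : ContDiff ℝ 2 r) (hθ : ContDiff ℝ 2 θ)
    (hpos : ∀ t, 0 < r t ∧ r t < L)
    (h1 : ∀ t, deriv (deriv r) t = f (r t) * deriv f (r t) * deriv θ t ^ 2)
    (h2 : ∀ t, f (r t) ^ 2 * deriv θ t = c)
    (h3 : ∀ t, deriv r t ^ 2 + f (r t) ^ 2 * deriv θ t ^ 2 = 1) :
    ∃ e₁ e₂ : EuclideanSpace ℝ (Fin n),
      Rot.IsGeodesic L f 1 (fun t => Rot.polar L (r t) (cos (θ t) • e₁ + sin (θ t) • e₂)) := by
  obtain ⟨e₁, e₂, he1, he2, he12⟩ := Rot.TG.exists_orthonormal_pair hn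
  set u : ℝ → EuclideanSpace ℝ (Fin n) := fun t => Real.cos (θ t) • e₁ + Real.sin (θ t) • e₂
    with hu
  have hθ1 : ∀ t, HasDerivAt θ (deriv θ t) t := fun t =>
    (hθ.differentiable (by norm_num)).differentiableAt.hasDerivAt
  have hθ' : ContDiff ℝ 1 (deriv θ) := by
    have h2' : ContDiff ℝ (1 + 1) θ := by
      have : (1 + 1 : WithTop ℕ∞) = 2 := by norm_num
      rw [this]; exact hθ
    exact (contDiff_succ_iff_deriv.1 h2').2.2
  have hθ2 : ∀ t, HasDerivAt (deriv θ) (deriv (deriv θ) t) t := fun t =>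
    (hθ'.differentiable (by norm_num)).differentiableAt.hasDerivAt
  have hr1 : ∀ t, HasDerivAt r (deriv r t) t := fun t =>
    (hr.differentiable (by norm_num)).differentiableAt.hasDerivAt
  have hf1 : ∀ x, HasDerivAt f (deriv f x) x := fun x =>
    (hf.smooth.differentiable (by norm_num)).differentiableAt.hasDerivAt
  have hu1 : ∀ t, HasDerivAt u (deriv θ t • (-Real.sin (θ t) • e₁ + Real.cos (θ t) • e₂)) t := by
    intro t
    have ha := ((hθ1 t).cos).smul_const e₁
    have hb := ((hθ1 t).sin).smul_const e₂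
    refine (ha.add hb).congr_deriv ?_
    module
  have hdu : deriv u = fun t => deriv θ t • (-Real.sin (θ t) • e₁ + Real.cos (θ t) • e₂) :=
    funext fun t => (hu1 t).deriv
  have hu2 : ∀ t, HasDerivAt (deriv u)
      (deriv (deriv θ) t • (-Real.sin (θ t) • e₁ + Real.cos (θ t) • e₂)
        - (deriv θ t) ^ 2 • u t) t := by
    intro t
    rw [hdu]
    have ha := (((hθ1 t).sin).neg).smul_const e₁
    have hb := ((hθ1 t).cos).smul_const e₂
    have hc := (hθ2 t).smul (ha.add hb)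
    refine hc.congr_deriv ?_
    have hval : ((fun y => (-fun x => Real.sin (θ x)) y • e₁) + fun y => Real.cos (θ y) • e₂) t
        = -Real.sin (θ t) • e₁ + Real.cos (θ t) • e₂ := rfl
    rw [hval]
    simp only [hu]
    module
  have hnu : ∀ t, ‖u t‖ = 1 := by
    intro t
    have : ‖u t‖ ^ 2 = 1 := by
      rw [hu]; simp only []
      rw [Rot.TG.norm_sq_comb he1 he2 he12]; exact Real.cos_sq_add_sin_sq _
    have h0 := norm_nonneg (u t)
    nlinarith
  have hndu : ∀ t, ‖deriv u t‖ ^ 2 = deriv θ t ^ 2 := by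
    intro t
    rw [hdu]; simp only []
    rw [norm_smul, mul_pow, Rot.TG.norm_sq_comb he1 he2 he12]
    rw [Real.norm_eq_abs, sq_abs]
    have := Real.sin_sq_add_cos_sq (θ t)
    nlinarith
  refine ⟨e₁, e₂, ⟨r, u, hr, ?_, hnu, fun t => rfl, ?_, ?_, ?_⟩⟩
  · rw [hu]
    have hcos : ContDiff ℝ 2 (fun t => Real.cos (θ t)) := Real.contDiff_cos.comp hθ
    have hsin : ContDiff ℝ 2 (fun t => Real.sin (θ t)) := Real.contDiff_sin.comp hθ
    exact (hcos.smul contDiff_const).add (hsin.smul contDiff_const)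
  · intro t; rw [hndu, h1]
  · intro t
    rw [(hu2 t).deriv, hndu]
    have hfp : 0 < f (r t) := hf.fpos _ (hpos t).1 (hpos t).2
    -- differentiate the Clairaut relation
    have hcl : HasDerivAt (fun t => f (r t) ^ 2 * deriv θ t)
        (2 * f (r t) * (deriv f (r t) * deriv r t) * deriv θ t
          + f (r t) ^ 2 * deriv (deriv θ) t) t := by
      have ha : HasDerivAt (fun t => f (r t)) (deriv f (r t) * deriv r t) t :=
        (hf1 (r t)).comp t (hr1 t)
      have hb := (ha.pow 2).mul (hθ2 t)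
      refine hb.congr_deriv ?_
      norm_num
    have hconst : (fun t => f (r t) ^ 2 * deriv θ t) = fun _ => c := funext h2
    rw [hconst] at hcl
    have h0 := hcl.unique (hasDerivAt_const t c)
    have h0' : 2 * (deriv f (r t) * deriv r t) * deriv θ t + f (r t) * deriv (deriv θ) t = 0 := by
      have : f (r t) * (2 * (deriv f (r t) * deriv r t) * deriv θ t
          + f (r t) * deriv (deriv θ) t) = 0 := by rw [← h0]; ring
      rcases mul_eq_zero.1 this with h | h
      · exact absurd h hfp.ne'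
      · exact h
    have hdut : deriv u t = deriv θ t • (-Real.sin (θ t) • e₁ + Real.cos (θ t) • e₂) :=
      (hu1 t).deriv
    rw [hdut]
    set w := (-Real.sin (θ t) • e₁ + Real.cos (θ t) • e₂) with hw
    have : f (r t) • (deriv (deriv θ) t • w - (deriv θ t) ^ 2 • u t)
        + (2 * deriv f (r t) * deriv r t) • (deriv θ t • w)
        + (f (r t) * deriv θ t ^ 2) • u t
        = (2 * (deriv f (r t) * deriv r t) * deriv θ t + f (r t) * deriv (deriv θ) t) • w := by
      module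
    rw [this, h0', zero_smul]
  · intro t; rw [hndu, h3]; norm_num

/-- The polynomial map through which `kpt` factors. -/
noncomputable def kq (J : Fin p → EE N →L[ℝ] EE N) (z : EE N × ℝ) : EE N × (EE N → EE N) :=
  (z.2 • z.1, fun x => (inner ℝ z.1 x : ℝ) • z.1 + ∑ i, (inner ℝ (J i z.1) x : ℝ) • J i z.1)

lemma kpt_eq (J : Fin p → EE N →L[ℝ] EE N) (L r : ℝ) (u : EE N) :
    kpt J L r u = kq J (Rot.polar (2 * L) r u) := by
  unfold kpt kq Rot.polar
  refine Prod.ext ?_ (funext fun x => ?_)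
  · simp only [smul_smul]
    rw [mul_comm]
  · simp only [map_smul, inner_smul_left, smul_smul, RCLike.conj_to_real, smul_add,
      Finset.smul_sum]
    congr 1
    · congr 1; ring
    · refine Finset.sum_congr rfl fun i _ => ?_
      congr 1; ring

lemma kq_neg (J : Fin p → EE N →L[ℝ] EE N) (z : EE N × ℝ) : kq J (-z) = kq J z := by
  unfold kq
  refine Prod.ext ?_ (funext fun x => ?_)
  · simp
  · simp

/-- the projector of a `𝕂`-line -/
lemma proj_line (hF : IsField J) (hi : i₀.1 = 0) (G : Good J i₀ e f)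
    {c s : ℝ} (hcs : c ^ 2 + s ^ 2 = 1) (x : EE N) :
    (inner ℝ (c • e + s • J i₀ e) x : ℝ) • (c • e + s • J i₀ e) +
      ∑ i, (inner ℝ (J i (c • e + s • J i₀ e)) x : ℝ) • J i (c • e + s • J i₀ e) =
    (inner ℝ e x : ℝ) • e + ∑ i, (inner ℝ (J i e) x : ℝ) • J i e := by
  have hc := G.cl
  rcases hF.2 with h1 | ⟨h3, h012⟩
  · subst h1
    have hi0 : i₀ = 0 := Subsingleton.elim _ _
    subst hi0
    simp only [Fin.sum_univ_one, map_add, map_smul, hc.sq, inner_add_left, real_inner_smul_left,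
      inner_neg_left]
    set A : ℝ := inner ℝ e x
    set B : ℝ := inner ℝ (J 0 e) x
    have key : (c * A + s * B) • (c • e + s • J 0 e) +
        (c * B + s * -A) • (c • J 0 e + s • -e) = (c ^ 2 + s ^ 2) • (A • e + B • J 0 e) := by
      module
    rw [key, hcs, one_smul]
  · subst h3
    have hi0 : i₀ = 0 := Fin.ext hi
    subst hi0
    have r0 : ∀ y, J 0 (J 0 y) = -y := hc.sq 0
    have r1 : ∀ y, J 1 (J 0 y) = -J 2 y := fun y => by
      rw [hc.anti 1 0 (by decide), h012 0 1 2 rfl rfl rfl]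
    have r2 : ∀ y, J 2 (J 0 y) = J 1 y := fun y => by
      rw [hc.anti 2 0 (by decide), ← h012 0 1 2 rfl rfl rfl, hc.sq, neg_neg]
    simp only [Fin.sum_univ_three, map_add, map_smul, r0, r1, r2, inner_add_left,
      real_inner_smul_left, inner_neg_left]
    set A : ℝ := inner ℝ e x
    set B : ℝ := inner ℝ (J 0 e) x
    set C : ℝ := inner ℝ (J 1 e) x
    set D : ℝ := inner ℝ (J 2 e) x
    have key : (c * A + s * B) • (c • e + s • J 0 e) +
        ((c * B + s * -A) • (c • J 0 e + s • -e) +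
        (c * C + s * -D) • (c • J 1 e + s • -J 2 e) +
        (c * D + s * C) • (c • J 2 e + s • J 1 e)) =
        (c ^ 2 + s ^ 2) • (A • e + (B • J 0 e + C • J 1 e + D • J 2 e)) := by
      module
    rw [key, hcs, one_smul]

theorem liftBK (G : Good J i₀ e f) {L : ℝ} {a b : ℝ → ℝ} (hdb : Differentiable ℝ b) {v : ℝ}
    {γ : ℝ → EuclideanSpace ℝ (Fin 2) × ℝ} (h : Rot.IsGeodesic (2 * L) b v γ) :
    IsGeodesicK J L a b v (fun t => kq J (plm e f (γ t).1, (γ t).2)) := by
  obtain ⟨r, u, hr, hu, hn, hγ, h1, h2, h3⟩ := h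
  have hc := G.cl
  have ee : inner ℝ e e = (1 : ℝ) := by rw [real_inner_self_eq_norm_sq, G.ne]; norm_num
  have ff : inner ℝ f f = (1 : ℝ) := by rw [real_inner_self_eq_norm_sq, G.nf]; norm_num
  have ef : inner ℝ e f = (0 : ℝ) := by rw [real_inner_comm]; exact G.ef
  set ι := plm e f with hι
  have hin : ∀ x y, inner ℝ (ι x) (ι y) = x 0 * y 0 + x 1 * y 1 := inner_plm ee ff ef
  have hud : Differentiable ℝ u := hu.differentiable (by norm_num)
  have hu' : ContDiff ℝ 1 (deriv u) := by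
    have h2' : ContDiff ℝ (1 + 1) u := by
      have : (1 + 1 : WithTop ℕ∞) = 2 := by norm_num
      rw [this]; exact hu
    exact (contDiff_succ_iff_deriv.1 h2').2.2
  have hudd : Differentiable ℝ (deriv u) := hu'.differentiable (by norm_num)
  have hrd : Differentiable ℝ r := hr.differentiable (by norm_num)
  have dU : deriv (fun t => ι (u t)) = fun t => ι (deriv u t) := by
    funext t
    exact (ι.hasFDerivAt.comp_hasDerivAt t (hud t).hasDerivAt).deriv
  have dU2 : ∀ t, HasDerivAt (fun t => ι (deriv u t)) (ι (deriv (deriv u) t)) t := fun t =>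
    ι.hasFDerivAt.comp_hasDerivAt t (hudd t).hasDerivAt
  have mem : ∀ x, ι x ∈ PP J i₀ e f := fun x => by
    rw [hι, plm_apply]
    exact add_mem (Submodule.smul_mem _ _ e_mem) (Submodule.smul_mem _ _ f_mem)
  have hω : ∀ x y, inner ℝ (ι x) (J i₀ (ι y)) = (0 : ℝ) := by
    intro x y
    have k1 : inner ℝ e (J i₀ e) = (0 : ℝ) := inner_self_zero hc _ _
    have k2 : inner ℝ f (J i₀ e) = (0 : ℝ) := G.h1 i₀
    have k3 : inner ℝ f (J i₀ f) = (0 : ℝ) := inner_self_zero hc _ _
    have k4 : inner ℝ e (J i₀ f) = (0 : ℝ) := by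
      rw [inner_J_right hc, real_inner_comm, k2, neg_zero]
    rw [hι, plm_apply, plm_apply, map_add, map_smul, map_smul]
    simp only [inner_add_left, inner_add_right, real_inner_smul_left, real_inner_smul_right,
      k1, k2, k3, k4]
    ring
  have hU : ∀ t, ‖ι (u t)‖ = 1 := by
    intro t
    have : ‖ι (u t)‖ ^ 2 = 1 := by
      rw [← real_inner_self_eq_norm_sq, hin]
      have := norm_sq_two (u t)
      rw [hn t] at this
      linarith
    have h0 := norm_nonneg (ι (u t))
    nlinarith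
  have hdU : ∀ t, ‖ι (deriv u t)‖ ^ 2 = ‖deriv u t‖ ^ 2 := by
    intro t
    rw [← real_inner_self_eq_norm_sq, hin, norm_sq_two]
    ring
  have hvert : ∀ t, vert J (ι (u t)) (ι (deriv u t)) = 0 := by
    intro t
    rw [G.vert_eq (mem _) (mem _), hω]
    ring
  have hmom : ∀ t, mom J a b (r t) (ι (u t)) (ι (deriv u t)) = b (r t) ^ 2 • ι (deriv u t) := by
    intro t
    rw [G.mom_eq a b _ (mem _) (mem _), hω, mul_zero, zero_smul, add_zero]
  refine ⟨r, fun t => ι (u t), hr, ι.contDiff.comp hu, hU, ?_, ?_, ?_, ?_⟩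
  · intro t
    show kq J (ι (γ t).1, (γ t).2) = _
    rw [kpt_eq, hγ t]
    simp only [Rot.polar, map_smul]
  · intro t
    rw [dU]
    simp only
    rw [hvert, hdU, h1]
    ring
  · intro t
    rw [dU]
    simp only
    have hfun : (fun t => mom J a b (r t) (ι (u t)) (ι (deriv u t))) =
        fun t => b (r t) ^ 2 • ι (deriv u t) := funext hmom
    rw [hfun]
    have d1 : HasDerivAt (fun t => b (r t) ^ 2) (2 * b (r t) * (deriv b (r t) * deriv r t)) t := by
      have := (((hdb (r t)).hasDerivAt.comp t (hrd t).hasDerivAt).fun_pow 2)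
      simpa using this
    refine (d1.smul (dU2 t)).congr_deriv ?_
    rw [G.frc_eq a b _ (mem _) (mem _), hω, hvert, hdU]
    have h2t := congrArg ι (h2 t)
    simp only [map_add, map_smul, map_zero] at h2t
    have e2 : b (r t) ^ 2 • ι (deriv (deriv u) t) +
        (2 * b (r t) * (deriv b (r t) * deriv r t)) • ι (deriv u t) +
        (b (r t) ^ 2 * ‖deriv u t‖ ^ 2) • ι (u t) =
        b (r t) • (b (r t) • ι (deriv (deriv u) t) +
          (2 * deriv b (r t) * deriv r t) • ι (deriv u t) +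
          (b (r t) * ‖deriv u t‖ ^ 2) • ι (u t)) := by module
    rw [h2t, smul_zero] at e2
    rw [eq_neg_of_add_eq_zero_left e2]
    module
  · intro t
    rw [dU]
    simp only
    rw [hvert, hdU, ← h3]
    ring

theorem liftAK (hF : IsField J) (hi : i₀.1 = 0) (G : Good J i₀ e f) {L : ℝ} (hL : 0 < L)
    {a b : ℝ → ℝ} (hda : Differentiable ℝ a) {v : ℝ}
    {γ : ℝ → EuclideanSpace ℝ (Fin 2) × ℝ} (h : Rot.IsGeodesic L a v γ) :
    ∃ γ' : ℝ → EE N × (EE N → EE N), IsGeodesicK J L a b v γ' ∧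
      ∀ T, (∀ t, γ (t + T) = γ t) → ∀ t, γ' (t + T) = γ' t := by
  obtain ⟨r, u, hr, hu, hn, hγ, h1, h2, h3⟩ := h
  have hc := G.cl
  have ee : inner ℝ e e = (1 : ℝ) := by rw [real_inner_self_eq_norm_sq, G.ne]; norm_num
  have eK : inner ℝ e (J i₀ e) = (0 : ℝ) := inner_self_zero hc _ _
  have KK : inner ℝ (J i₀ e) (J i₀ e) = (1 : ℝ) := by rw [inner_J hc, ee]
  set ι := plm e (J i₀ e) with hι
  have hin : ∀ x y, inner ℝ (ι x) (ι y) = x 0 * y 0 + x 1 * y 1 := inner_plm ee KK eK
  have hud : Differentiable ℝ u := hu.differentiable (by norm_num)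
  have hu' : ContDiff ℝ 1 (deriv u) := by
    have h2' : ContDiff ℝ (1 + 1) u := by
      have : (1 + 1 : WithTop ℕ∞) = 2 := by norm_num
      rw [this]; exact hu
    exact (contDiff_succ_iff_deriv.1 h2').2.2
  have hudd : Differentiable ℝ (deriv u) := hu'.differentiable (by norm_num)
  have hrd : Differentiable ℝ r := hr.differentiable (by norm_num)
  have dU : deriv (fun t => ι (u t)) = fun t => ι (deriv u t) := by
    funext t
    exact (ι.hasFDerivAt.comp_hasDerivAt t (hud t).hasDerivAt).deriv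
  have dU2 : ∀ t, HasDerivAt (fun t => ι (deriv u t)) (ι (deriv (deriv u) t)) t := fun t =>
    ι.hasFDerivAt.comp_hasDerivAt t (hudd t).hasDerivAt
  have mem : ∀ x, ι x ∈ PP J i₀ e f := fun x => by
    rw [hι, plm_apply]
    exact add_mem (Submodule.smul_mem _ _ e_mem) (Submodule.smul_mem _ _ (G.K_mem e_mem))
  have hK : ∀ x, J i₀ (ι x) = x 0 • J i₀ e - x 1 • e := by
    intro x
    rw [hι, plm_apply, map_add, map_smul, map_smul, hc.sq]
    module
  have hω : ∀ x y, inner ℝ (ι x) (J i₀ (ι y)) = x 1 * y 0 - x 0 * y 1 := by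
    intro x y
    have Ke : inner ℝ (J i₀ e) e = (0 : ℝ) := inner_self_zero' hc _ _
    rw [hK, hι, plm_apply]
    simp only [inner_add_left, inner_sub_right, real_inner_smul_left, real_inner_smul_right,
      ee, eK, KK, Ke]
    ring
  have hU : ∀ t, ‖ι (u t)‖ = 1 := by
    intro t
    have : ‖ι (u t)‖ ^ 2 = 1 := by
      rw [← real_inner_self_eq_norm_sq, hin]
      have := norm_sq_two (u t)
      rw [hn t] at this
      linarith
    have h0 := norm_nonneg (ι (u t))
    nlinarith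
  have hdU : ∀ t, ‖ι (deriv u t)‖ ^ 2 = ‖deriv u t‖ ^ 2 := by
    intro t
    rw [← real_inner_self_eq_norm_sq, hin, norm_sq_two]
    ring
  have hu1 : ∀ t, u t 0 ^ 2 + u t 1 ^ 2 = 1 := fun t => by
    have := norm_sq_two (u t)
    rw [hn t] at this
    linarith
  have hort := unit_deriv hud hn
  -- `u' = ω R u`
  have hω0 : ∀ t, deriv u t 0 = -((deriv u t 1 * u t 0 - deriv u t 0 * u t 1) * u t 1) := by
    intro t
    linear_combination (-deriv u t 0) * hu1 t + u t 0 * hort t
  have hω1 : ∀ t, deriv u t 1 = (deriv u t 1 * u t 0 - deriv u t 0 * u t 1) * u t 0 := by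
    intro t
    linear_combination (-deriv u t 1) * hu1 t + u t 1 * hort t
  have hω2 : ∀ t, (deriv u t 1 * u t 0 - deriv u t 0 * u t 1) ^ 2 = ‖deriv u t‖ ^ 2 := by
    intro t
    rw [norm_sq_two]
    linear_combination (deriv u t 0 ^ 2 + deriv u t 1 ^ 2) * hu1 t -
      (u t 0 * deriv u t 0 + u t 1 * deriv u t 1) * hort t
  have hvert : ∀ t, vert J (ι (u t)) (ι (deriv u t)) = ‖deriv u t‖ ^ 2 := by
    intro t
    rw [G.vert_eq (mem _) (mem _), hω, hω2]
  have hmom : ∀ t, mom J a b (r t) (ι (u t)) (ι (deriv u t)) = a (r t) ^ 2 • ι (deriv u t) := by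
    intro t
    rw [G.mom_eq a b _ (mem _) (mem _), hω, hK]
    set ww := deriv u t 1 * u t 0 - deriv u t 0 * u t 1 with hwd
    have e1 : ι (deriv u t) = ww • (u t 0 • J i₀ e - u t 1 • e) := by
      rw [hι, plm_apply]
      have g0 : deriv u t 0 = -(ww * u t 1) := hω0 t
      have g1 : deriv u t 1 = ww * u t 0 := hω1 t
      rw [g0, g1]
      module
    rw [e1]
    module
  refine ⟨fun t => kpt J L (r t) (ι (u t)), ⟨r, fun t => ι (u t), hr, ι.contDiff.comp hu, hU,
    fun t => rfl, ?_, ?_, ?_⟩, ?_⟩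
  · intro t
    rw [dU]
    simp only
    rw [hvert, hdU, h1]
    ring
  · intro t
    rw [dU]
    simp only
    have hfun : (fun t => mom J a b (r t) (ι (u t)) (ι (deriv u t))) =
        fun t => a (r t) ^ 2 • ι (deriv u t) := funext hmom
    rw [hfun]
    have d1 : HasDerivAt (fun t => a (r t) ^ 2) (2 * a (r t) * (deriv a (r t) * deriv r t)) t := by
      have := (((hda (r t)).hasDerivAt.comp t (hrd t).hasDerivAt).fun_pow 2)
      simpa using this
    refine (d1.smul (dU2 t)).congr_deriv ?_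
    rw [G.frc_eq a b _ (mem _) (mem _), hω, hK, hvert, hdU]
    have h2t := congrArg ι (h2 t)
    simp only [map_add, map_smul, map_zero] at h2t
    set ww := deriv u t 1 * u t 0 - deriv u t 0 * u t 1 with hwd
    have g0 : deriv u t 0 = -(ww * u t 1) := hω0 t
    have g1 : deriv u t 1 = ww * u t 0 := hω1 t
    have g2 : ww ^ 2 = ‖deriv u t‖ ^ 2 := hω2 t
    have e1 : a (r t) ^ 2 • ι (deriv (deriv u) t) +
        (2 * a (r t) * (deriv a (r t) * deriv r t)) • ι (deriv u t) =
        -((a (r t) ^ 2 * ww ^ 2) • ι (u t)) := by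
      rw [g2]
      have e2 : a (r t) ^ 2 • ι (deriv (deriv u) t) +
        (2 * a (r t) * (deriv a (r t) * deriv r t)) • ι (deriv u t) +
        (a (r t) ^ 2 * ‖deriv u t‖ ^ 2) • ι (u t) =
        a (r t) • (a (r t) • ι (deriv (deriv u) t) +
          (2 * deriv a (r t) * deriv r t) • ι (deriv u t) +
          (a (r t) * ‖deriv u t‖ ^ 2) • ι (u t)) := by module
      rw [h2t, smul_zero] at e2
      exact eq_neg_of_add_eq_zero_left e2
    rw [e1, ← g2, g0, g1]
    rw [hι, plm_apply]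
    module
  · intro t
    rw [dU]
    simp only
    rw [hvert, hdU, ← h3]
    ring
  · intro T hT t
    have ht := hT t
    rw [hγ, hγ] at ht
    have ht1 : Real.sin (π * r (t + T) / L) • u (t + T) = Real.sin (π * r t / L) • u t :=
      congrArg Prod.fst ht
    have ht2 : Real.cos (π * r (t + T) / L) = Real.cos (π * r t / L) := congrArg Prod.snd ht
    have s1 : ∀ x : ℝ, Real.sin (π * x / (2 * L)) * Real.cos (π * x / (2 * L)) =
        Real.sin (π * x / L) / 2 := by
      intro x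
      have : π * x / L = 2 * (π * x / (2 * L)) := by field_simp
      rw [this, Real.sin_two_mul]
      ring
    have s2 : ∀ x : ℝ, Real.sin (π * x / (2 * L)) ^ 2 = (1 - Real.cos (π * x / L)) / 2 := by
      intro x
      have : π * x / L = 2 * (π * x / (2 * L)) := by field_simp
      rw [this, Real.cos_two_mul, Real.cos_sq']
      ring
    have hpr : ∀ t x, (inner ℝ (ι (u t)) x : ℝ) • ι (u t) +
        ∑ i, (inner ℝ (J i (ι (u t))) x : ℝ) • J i (ι (u t)) =
        (inner ℝ e x : ℝ) • e + ∑ i, (inner ℝ (J i e) x : ℝ) • J i e := by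
      intro t x
      rw [hι, plm_apply]
      exact proj_line hF hi G (hu1 t) x
    unfold kpt
    refine Prod.ext ?_ (funext fun x => ?_)
    · simp only [s1]
      have := congrArg ι ht1
      simp only [map_smul] at this
      rw [div_eq_inv_mul, mul_smul, this, ← mul_smul, div_eq_inv_mul (Real.sin (π * r t / L))]
    · simp only [s2, ht2, hpr]

end Pool.Agent.L7h84.KP
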