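import Pool.Agent.L7h84.KP.Closed
import Pool.Agent.L7h84.KP.Osc
import Pool.Agent.L7h84.CL.Main

/-! # The action inequality for the real projective planes `ℝP² ⊂ 𝕂P^n` -/

open Real Set MeasureTheory Filter Topology
open scoped ContDiff

namespace Pool.Agent.L7h84.KP

open Pool.Agent.H206R2 Pool.Agent.H206R2.Rot2 Pool.Agent.L7h84.CL Pool.Agent.L7h84.CL.Mn

variable {N p : ℕ} {J : Fin p → EE N →L[ℝ] EE N} {i₀ : Fin p} {e f : EE N}

lemma veffd (b : ℝ → ℝ) (c : ℝ × ℝ) : Veff b b c.1 c.2 = fun r => (nn c / b r) ^ 2 := by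
  funext r
  unfold Veff
  rw [div_pow, div_pow, div_pow, ← add_div, ← nn_sq]

/-- the point of the diagonal of norm `y` -/
noncomputable def dg (y : ℝ) : ℝ × ℝ := (y / √2, y / √2)

lemma nn_dg {y : ℝ} (hy : 0 ≤ y) : nn (dg y) = y := by
  unfold nn dg
  simp only [div_pow]
  rw [Real.sq_sqrt (by norm_num), show y ^ 2 / 2 + y ^ 2 / 2 = y ^ 2 by ring, Real.sqrt_sq hy]

lemma dg_mem {R y : ℝ} (h0 : 0 < y) (hR : y < R) : dg y ∈ QD R :=
  ⟨by unfold dg; positivity, by unfold dg; positivity, by rw [nn_dg h0.le]; exact hR⟩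

lemma Df_dg (L R s : ℝ) (b : ℝ → ℝ) (c : ℝ × ℝ) : Df L R b b s c = Df L R b b s (dg (nn c)) := by
  unfold Df
  rw [veffd, veffd, nn_dg (nn_nonneg c)]

/-- the symmetric well -/
lemma well_sym {L : ℝ} {b : ℝ → ℝ} (hL : 0 < L) (hb : Rot.IsProfile (2 * L) b)
    (hs : ∀ r, b (2 * L - r) = b r) {y : ℝ} (h0 : 0 < y) (hy : y < b L) :
    ∃ p, 0 < p ∧ p < L ∧ y = b p ∧ (∀ x ∈ Ioo p (2 * L - p), (y / b x) ^ 2 < 1) ∧
      well (2 * L) (Veff b b (dg y).1 (dg y).2) L = Ioo p (2 * L - p) := by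
  have hPP : PP2 (2 * L) b b := ⟨hb, hb⟩
  have hL2 : L < 2 * L := by linarith
  have e1 : Veff b b (dg y).1 (dg y).2 = fun r => (y / b r) ^ 2 := by
    rw [veffd, nn_dg h0.le]
  have hm : dg y ∈ QD (b L) := dg_mem h0 hy
  have hVL : Veff b b (dg y).1 (dg y).2 L < 1 := by
    rw [e1]
    have : y / b L < 1 := (div_lt_one (h0.trans hy)).2 hy
    have h2 : 0 < y / b L := div_pos h0 (h0.trans hy)
    simp only
    nlinarith
  obtain ⟨p, q, hp, hps, hsq, hq, hVp, hVq, hw, hin⟩ := well_spec hPP hm.1 hm.2.1 hL hL2 hVL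
  have hsV : ∀ r, Veff b b (dg y).1 (dg y).2 (2 * L - r) = Veff b b (dg y).1 (dg y).2 r := by
    intro r
    rw [e1]
    simp only [hs]
  have hqp : q = 2 * L - p := by
    rcases lt_trichotomy q (2 * L - p) with h | h | h
    · exfalso
      have := hin (2 * L - q) ⟨by linarith, by linarith⟩
      rw [hsV, hVq] at this
      exact lt_irrefl _ this
    · exact h
    · exfalso
      have := hin (2 * L - p) ⟨by linarith, by linarith⟩
      rw [hsV, hVp] at this
      exact lt_irrefl _ this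
  subst hqp
  have hbp := hb.fpos p hp (by linarith)
  refine ⟨p, hp, hps, ?_, fun x hx => ?_, hw⟩
  · rw [e1] at hVp
    have h1 : (y / b p) ^ 2 = 1 ^ 2 := by rw [one_pow]; exact hVp
    have h2 := (pow_left_inj₀ (div_pos h0 hbp).le zero_le_one two_ne_zero).1 h1
    exact (div_eq_one_iff_eq hbp.ne').1 h2
  · have := hin x hx
    rw [e1] at this
    exact this

lemma int_sym {L p : ℝ} (hp : p < L) {g : ℝ → ℝ} (hs : ∀ r, g (2 * L - r) = g r)
    (hg : IntegrableOn g (Ioo p (2 * L - p))) :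
    ∫ r in Ioo p (2 * L - p), g r = 2 * ∫ r in Ioo p L, g r := by
  have h1 : p ≤ 2 * L - p := by linarith
  rw [← integral_Ioc_eq_integral_Ioo, ← integral_Ioc_eq_integral_Ioo,
    ← intervalIntegral.integral_of_le h1, ← intervalIntegral.integral_of_le hp.le]
  have hi : IntervalIntegrable g volume p (2 * L - p) := by
    rw [intervalIntegrable_iff_integrableOn_Ioo_of_le h1]
    exact hg
  have hi1 : IntervalIntegrable g volume p L := hi.mono_set (by
    rw [uIcc_of_le hp.le, uIcc_of_le h1]; exact Icc_subset_Icc_right (by linarith))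
  have hi2 : IntervalIntegrable g volume L (2 * L - p) := hi.mono_set (by
    rw [uIcc_of_le (by linarith), uIcc_of_le h1]; exact Icc_subset_Icc_left (by linarith))
  rw [← intervalIntegral.integral_add_adjacent_intervals hi1 hi2]
  have h2 := intervalIntegral.integral_comp_sub_left (a := p) (b := L) g (2 * L)
  simp only [hs] at h2
  rw [show 2 * L - L = L by ring] at h2
  rw [← h2]
  ring

theorem edgeB (G : Good J i₀ e f) {L : ℝ} {a b : ℝ → ℝ} (h : IsPair L a b) {R : ℝ} (hR : 0 < R)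
    (hbL : R < b L) (hL2 : π * R < 2 * L)
    (hno : ∀ (γ : ℝ → EE N × (EE N → EE N)) (T : ℝ), 0 < T → IsGeodesicK J L a b 1 γ →
      (∀ t, γ (t + T) = γ t) → π * R < T)
    {y p : ℝ} (hy0 : 0 < y) (hyR : y < R) (hp0 : 0 < p) (hpL : p < L) (hbp : b p ≤ y) :
    π * (R - y) ≤ 2 * ∫ r in Ioo p L, √(1 - (y / b r) ^ 2) := by
  have hL := h.pa.pos
  have hπ := Real.pi_pos
  have hb := h.profile_b
  have hPP : PP2 (2 * L) b b := ⟨hb, hb⟩
  have hbc : Continuous b := hb.smooth.continuous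
  have hs : ∀ r, b (2 * L - r) = b r := by
    intro r
    have h1 := h.b_even (r - L)
    rw [show L + (r - L) = r by ring, show L - (r - L) = 2 * L - r by ring] at h1
    exact h1.symm
  by_contra hcon
  push Not at hcon
  -- the defect is negative somewhere
  set F : ℝ → ℝ := fun y => Df (2 * L) R b b L (dg y) with hF
  have hFy : F y < 0 := by
    obtain ⟨p', hp', hpL', hbp', hin, hw⟩ := well_sym hL hb hs hy0 (hyR.trans hbL)
    have hpp : p ≤ p' := by
      by_contra hcon2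
      have h1 := hin p ⟨not_le.1 hcon2, by linarith⟩
      have h2 := hb.fpos p hp0 (by linarith)
      have h3 : 1 ≤ y / b p := by rw [le_div_iff₀ h2]; linarith
      nlinarith
    have e1 : (fun r => √(1 - Veff b b (dg y).1 (dg y).2 r)) = fun r => √(1 - (y / b r) ^ 2) := by
      rw [veffd, nn_dg hy0.le]
    have hi : ∀ u v : ℝ, IntegrableOn (fun r => √(1 - (y / b r) ^ 2)) (Ioo u v) := by
      intro u v
      rw [← e1]
      exact intOn hPP _ _ (by simp)
    have e2 : actW (2 * L) (Veff b b (dg y).1 (dg y).2) L =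
        4 * ∫ r in Ioo p' L, √(1 - (y / b r) ^ 2) := by
      unfold actW
      rw [hw, e1, int_sym hpL' (fun r => by rw [hs]) (hi _ _)]
      ring
    have e3 : ∫ r in Ioo p' L, √(1 - (y / b r) ^ 2) ≤ ∫ r in Ioo p L, √(1 - (y / b r) ^ 2) :=
      setIntegral_mono_set (hi _ _) (Eventually.of_forall fun r => Real.sqrt_nonneg _)
        (Ioo_subset_Ioo_left hpp).eventuallyLE
    simp only [hF]
    unfold Df
    rw [e2, nn_dg hy0.le]
    linarith
  -- the minimum
  set E : Set ℝ := F '' Ioo 0 R with hE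
  have hbdd : BddBelow E := by
    refine ⟨-(2 * π * R), ?_⟩
    rintro _ ⟨c, hc, rfl⟩
    have h0 := actW_nonneg (2 * L) (Veff b b (dg c).1 (dg c).2) L
    simp only [hF]
    unfold Df
    rw [nn_dg hc.1.le]
    nlinarith [hc.1]
  have hne : E.Nonempty := ⟨_, y, ⟨hy0, hyR⟩, rfl⟩
  set m := sInf E with hm
  have hmneg : m < 0 := lt_of_le_of_lt (csInf_le hbdd ⟨y, ⟨hy0, hyR⟩, rfl⟩) hFy
  obtain ⟨u, -, hu, huE⟩ := exists_seq_tendsto_sInf hne hbdd
  choose d hdT hdu using huE
  obtain ⟨y₀, hy₀, φ, hφ, hlim⟩ := isCompact_Icc.tendsto_subseq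
    (fun n => Ioo_subset_Icc_self (hdT n))
  have hdc : Continuous dg := by unfold dg; fun_prop
  have hlim2 : Tendsto (fun n => dg (d (φ n))) atTop (𝓝 (dg y₀)) := (hdc.tendsto y₀).comp hlim
  have hD : Tendsto (fun n => Df (2 * L) R b b L (dg (d (φ n)))) atTop (𝓝 m) := by
    have : (fun n => Df (2 * L) R b b L (dg (d (φ n)))) = u ∘ φ := by
      funext n; exact hdu (φ n)
    rw [this]
    exact hu.comp hφ.tendsto_atTop
  have hyltR : y₀ < R := by
    rcases lt_or_eq_of_le hy₀.2 with hh | hh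
    · exact hh
    exfalso
    have lim0 : Tendsto (fun n => -(2 * π * (R - d (φ n)))) atTop (𝓝 (-(2 * π * (R - y₀)))) :=
      ((tendsto_const_nhds.sub hlim).const_mul (2 * π)).neg
    have := le_of_tendsto_of_tendsto lim0 hD (Eventually.of_forall fun n => by
      have := actW_nonneg (2 * L) (Veff b b (dg (d (φ n))).1 (dg (d (φ n))).2) L
      unfold Df
      beta_reduce
      rw [nn_dg (hdT (φ n)).1.le]
      linarith)
    rw [hh] at this
    simp at this
    linarith
  have hypos : 0 < y₀ := by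
    rcases hy₀.1.eq_or_lt with hh | hh
    swap
    · exact hh
    exfalso
    have h10 : dg y₀ = (0, 0) := by rw [← hh]; unfold dg; simp
    rw [h10] at hlim2
    have key := lsc (R := R) hPP hlim2 hD (p := 0) (q := 2 * L) le_rfl
      le_rfl (fun r _ => by unfold Veff; simp) ⟨hL, by linarith⟩
    have hn0 : nn ((0 : ℝ), (0 : ℝ)) = 0 := by unfold nn; simp
    rw [hn0] at key
    unfold Veff at key
    simp only [zero_div, ne_eq, OfNat.ofNat_ne_zero, not_false_eq_true, zero_pow, add_zero,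
      sub_zero, Real.sqrt_one, integral_const, measureReal_restrict_apply, MeasurableSet.univ,
      univ_inter, Real.volume_real_Ioo_of_le (by linarith : (0 : ℝ) ≤ 2 * L), smul_eq_mul,
      mul_one] at key
    linarith
  obtain ⟨q, hq, hqL, hbq, hin, hw⟩ := well_sym hL hb hs hypos (hyltR.trans hbL)
  have e1 : Veff b b (dg y₀).1 (dg y₀).2 = fun r => (y₀ / b r) ^ 2 := by
    rw [veffd, nn_dg hypos.le]
  have hle : F y₀ ≤ m := by
    have key := lsc (R := R) hPP hlim2 hD (p := q) (q := 2 * L - q) hq.le (by linarith)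
      (fun r hr => by rw [e1]; exact hin r hr) ⟨hqL, by linarith⟩
    simp only [hF]
    unfold Df actW
    rw [hw]
    exact key
  have hmin : ∀ c' ∈ QD R, actW (2 * L) (Veff b b (dg y₀).1 (dg y₀).2) L - 2 * π * (R - nn (dg y₀)) ≤
      actW (2 * L) (Veff b b c'.1 c'.2) L - 2 * π * (R - nn c') := by
    intro c' hc'
    have h1 : Df (2 * L) R b b L c' = F (nn c') := Df_dg _ _ _ _ _
    have h2 : m ≤ F (nn c') := csInf_le hbdd ⟨nn c', ⟨Cr.nn_pos hc', hc'.2.2⟩, rfl⟩
    have h3 : F y₀ ≤ Df (2 * L) R b b L c' := by rw [h1]; exact hle.trans h2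
    exact h3
  have hVp : Veff b b (dg y₀).1 (dg y₀).2 q = 1 := by
    rw [e1]
    simp only
    rw [hbq, div_self (hb.fpos q hq (by linarith)).ne', one_pow]
  have hVq : Veff b b (dg y₀).1 (dg y₀).2 (2 * L - q) = 1 := by
    rw [← hVp, e1]
    simp only [hs]
  obtain ⟨hint, hΦ, -, hq', hq''⟩ := Cr.crit hPP (dg_mem hypos hyltR) hmin hq hqL (by linarith)
    (by linarith) hVp hVq hw (fun x hx => by rw [e1]; exact hin x hx)
  have hin' : ∀ x ∈ Ioo q (2 * L - q), Veff b b (dg y₀).1 (dg y₀).2 x < 1 := fun x hx => by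
    rw [e1]; exact hin x hx
  have hVc := Cr.veff_contDiffOn hPP (dg y₀).1 (dg y₀).2
  obtain ⟨r, T, hT, hTeq, hr, hrI, hr2, hr1, hrT, hrint⟩ :=
    oscillator_sym hq (by linarith) (by linarith) hVc hVp hVq hq' hq'' hin' (fun x _ => by
      rw [show q + (2 * L - q) - x = 2 * L - x by ring, e1]
      simp only [hs])
  have hrT' : ∀ t, r (t + T / 2) = 2 * L - r t := fun t => by rw [hrT]; ring
  have hrT2 : ∀ t, r (t + T) = r t := fun t => by
    rw [show t + T = t + T / 2 + T / 2 by ring, hrT', hrT']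
    ring
  have hbne : ∀ x ∈ Icc q (2 * L - q), b x ≠ 0 := fun x hx =>
    (hb.fpos x (hq.trans_le hx.1) (by linarith [hx.2])).ne'
  have hrpos : ∀ t, 0 < r t ∧ r t < 2 * L := fun t =>
    ⟨hq.trans_le (hrI t).1, by linarith [(hrI t).2]⟩
  obtain ⟨θ, hθ, hθd, hθT⟩ := Pre.angle (c := y₀) hr hrI hb.smooth hbne hrT2
  -- the rotation
  have hΦ' : 2 * ∫ x in Ioo q (2 * L - q), y₀ / (b x ^ 2 * √(1 - Veff b b (dg y₀).1 (dg y₀).2 x)) =
      2 * π := by
    have h2 : (0 : ℝ) < √2 := by positivity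
    have e2 : (fun x => y₀ / (b x ^ 2 * √(1 - Veff b b (dg y₀).1 (dg y₀).2 x))) = fun x =>
        √2 * ((dg y₀).1 / (b x ^ 2 * √(1 - Veff b b (dg y₀).1 (dg y₀).2 x))) := by
      funext x
      have : (dg y₀).1 = y₀ / √2 := rfl
      rw [← mul_div_assoc, this, mul_div_cancel₀ _ h2.ne']
    rw [e2, integral_const_mul]
    have e3 : 2 * (√2 * ∫ x in Ioo q (2 * L - q),
        (dg y₀).1 / (b x ^ 2 * √(1 - Veff b b (dg y₀).1 (dg y₀).2 x))) =
        √2 * (2 * ∫ x in Ioo q (2 * L - q),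
        (dg y₀).1 / (b x ^ 2 * √(1 - Veff b b (dg y₀).1 (dg y₀).2 x))) := by ring
    rw [e3, hΦ, nn_dg hypos.le]
    have : (dg y₀).1 = y₀ / √2 := rfl
    rw [this]
    field_simp
  have hθT2 : ∀ t, θ (t + T) = θ t + 2 * π := by
    intro t
    rw [hθT, hrint (fun x => y₀ / b x ^ 2)
      (continuousOn_const.div (hbc.continuousOn.pow 2) fun x hx => pow_ne_zero 2 (hbne x hx))]
    simp only [div_div]
    rw [hΦ']
  have hθh : ∀ t, θ (t + T / 2) = θ t + π := by
    have hd : Differentiable ℝ θ := hθ.differentiable (by norm_num)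
    have hd2 : ∀ t, HasDerivAt (fun t => θ (t + T / 2) - θ t) 0 t := by
      intro t
      have h1 := ((hd (t + T / 2)).hasDerivAt.comp_add_const t (T / 2)).fun_sub (hd t).hasDerivAt
      refine h1.congr_deriv ?_
      rw [hθd, hθd, hrT', hs, sub_self]
    have hc : ∀ s t, θ (s + T / 2) - θ s = θ (t + T / 2) - θ t := fun s t =>
      is_const_of_deriv_eq_zero (f := fun t => θ (t + T / 2) - θ t)
        (fun t => (hd2 t).differentiableAt) (fun t => (hd2 t).deriv) s t
    intro t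
    have h1 := hc (t + T / 2) t
    have h2 := hθT2 t
    rw [show t + T / 2 + T / 2 = t + T by ring] at h1
    linarith
  obtain ⟨γ, hγ, hper⟩ := halfK G hL (a := a) hb (r := r) (θ := θ) (c := y₀) (T := T / 2) hr hθ
    hrpos (fun t => by
      rw [hr2, hθd, veff_deriv hPP _ _ (hrpos t).1 (hrpos t).2]
      have hbt := hbne (r t) ⟨(hrI t).1, (hrI t).2⟩
      have h3 : (dg y₀).1 ^ 2 + (dg y₀).2 ^ 2 = y₀ ^ 2 := by rw [← nn_sq, nn_dg hypos.le]
      have h4 : -(-(2 * (deriv b (r t) * ((dg y₀).1 ^ 2 / b (r t) ^ 3) +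
          deriv b (r t) * ((dg y₀).2 ^ 2 / b (r t) ^ 3)))) / 2 =
          deriv b (r t) * (((dg y₀).1 ^ 2 + (dg y₀).2 ^ 2) / b (r t) ^ 3) := by ring
      rw [h4, h3]
      field_simp)
    (fun t => by
      rw [hθd]
      have hbt := hbne (r t) ⟨(hrI t).1, (hrI t).2⟩
      field_simp)
    (fun t => by
      rw [hr1, e1, hθd]
      have hbt := hbne (r t) ⟨(hrI t).1, (hrI t).2⟩
      field_simp
      ring)
    hrT' hθh
  have hlen := hno γ (T / 2) (by positivity) hγ hper
  -- the length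
  have hTlt : T < 2 * π * R := by
    have e2 : ∀ x ∈ Ioo q (2 * L - q), 1 / √(1 - Veff b b (dg y₀).1 (dg y₀).2 x) =
        √(1 - Veff b b (dg y₀).1 (dg y₀).2 x) +
        y₀ * (y₀ / (b x ^ 2 * √(1 - Veff b b (dg y₀).1 (dg y₀).2 x))) := by
      intro x hx
      have hx1 : 0 < 1 - Veff b b (dg y₀).1 (dg y₀).2 x := by linarith [hin' x hx]
      have hsq := Real.sq_sqrt hx1.le
      have hsp := Real.sqrt_pos.2 hx1
      have hbx := hbne x ⟨hx.1.le, hx.2.le⟩
      have hVx : Veff b b (dg y₀).1 (dg y₀).2 x = (y₀ / b x) ^ 2 := by rw [e1]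
      set z := √(1 - Veff b b (dg y₀).1 (dg y₀).2 x) with hz
      have h4 : 1 = z ^ 2 + y₀ ^ 2 / b x ^ 2 := by rw [hsq, hVx, div_pow]; ring
      have h5 : 1 / z = (z ^ 2 + y₀ ^ 2 / b x ^ 2) / z := by rw [← h4]
      rw [h5]
      field_simp
    have i1 : IntegrableOn (fun x => y₀ * (y₀ / (b x ^ 2 *
        √(1 - Veff b b (dg y₀).1 (dg y₀).2 x)))) (Ioo q (2 * L - q)) := by
      have hcont : ContinuousOn (fun x => y₀ * (y₀ / b x ^ 2)) (Icc q (2 * L - q)) :=
        continuousOn_const.mul (continuousOn_const.div (hbc.continuousOn.pow 2)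
          fun x hx => pow_ne_zero 2 (hbne x hx))
      obtain ⟨M, hM⟩ := isCompact_Icc.exists_bound_of_continuousOn hcont
      have h1 : IntegrableOn (fun x => (y₀ * (y₀ / b x ^ 2)) *
          (1 / √(1 - Veff b b (dg y₀).1 (dg y₀).2 x))) (Ioo q (2 * L - q)) := by
        refine Integrable.bdd_mul (c := M) hint
          ((hcont.mono Ioo_subset_Icc_self).aestronglyMeasurable measurableSet_Ioo) ?_
        exact (ae_restrict_iff' measurableSet_Ioo).2 (Filter.Eventually.of_forall fun x hx =>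
          hM x (Ioo_subset_Icc_self hx))
      refine h1.congr_fun (fun x _ => ?_) measurableSet_Ioo
      simp only [mul_one_div, div_div, mul_div_assoc]
    have i0 : IntegrableOn (fun x => √(1 - Veff b b (dg y₀).1 (dg y₀).2 x))
        (Ioo q (2 * L - q)) := intOn hPP _ _ (by simp)
    have h1 : ∫ x in Ioo q (2 * L - q), 1 / √(1 - Veff b b (dg y₀).1 (dg y₀).2 x) =
        (∫ x in Ioo q (2 * L - q), √(1 - Veff b b (dg y₀).1 (dg y₀).2 x)) +
        y₀ * ∫ x in Ioo q (2 * L - q), y₀ / (b x ^ 2 * √(1 - Veff b b (dg y₀).1 (dg y₀).2 x)) := by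
      rw [setIntegral_congr_fun measurableSet_Ioo e2, integral_add i0 i1, integral_const_mul]
    have h2 : actW (2 * L) (Veff b b (dg y₀).1 (dg y₀).2) L =
        2 * ∫ x in Ioo q (2 * L - q), √(1 - Veff b b (dg y₀).1 (dg y₀).2 x) := by
      rw [actW, hw]
    have h3 : F y₀ < 0 := lt_of_le_of_lt hle hmneg
    simp only [hF] at h3
    unfold Df at h3
    rw [h2, nn_dg hypos.le] at h3
    rw [hTeq, h1]
    have g1 : y₀ * (2 * ∫ x in Ioo q (2 * L - q),
        y₀ / (b x ^ 2 * √(1 - Veff b b (dg y₀).1 (dg y₀).2 x))) = 2 * π * y₀ := by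
      rw [hΦ']; ring
    linarith
  linarith

end Pool.Agent.L7h84.KP
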