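import Pool.Agent.L7h84.KP.Vol
import Pool.Agent.L7h84.KP.Half

/-! # The main theorem for `ℂP^n` and `ℍP^n` -/

open Real Set MeasureTheory Filter Topology
open scoped ContDiff

namespace Pool.Agent.L7h84.KP

open Pool.Agent.H206R2 Pool.Agent.H206R2.Rot2 Pool.Agent.L7h84.CL Pool.Agent.L7h84.CL.Mn

variable {N p : ℕ} {J : Fin p → EE N →L[ℝ] EE N}

lemma KQ.veff_deriv {L : ℝ} {f h : ℝ → ℝ} (hf : KQ L f h) (c₁ c₂ : ℝ) {x : ℝ} (h0 : 0 < x)
    (hL : x < L) : deriv (Veff f h c₁ c₂) x =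
      -(2 * (deriv f x * (c₁ ^ 2 / f x ^ 3) + deriv h x * (c₂ ^ 2 / h x ^ 3))) := by
  have hf0 := (hf.fpos x h0 hL).ne'
  have hh0 := (hf.hpos x h0 hL).ne'
  have d1 : HasDerivAt f (deriv f x) x :=
    (hf.sf.differentiable (by simp)).differentiableAt.hasDerivAt
  have d2 : HasDerivAt h (deriv h x) x :=
    (hf.sh.differentiable (by simp)).differentiableAt.hasDerivAt
  have h1 := (((hasDerivAt_const x c₁).fun_div d1 hf0).fun_pow 2).fun_add
    (((hasDerivAt_const x c₂).fun_div d2 hh0).fun_pow 2)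
  have h2 : HasDerivAt (Veff f h c₁ c₂) _ x := h1
  rw [h2.deriv]
  simp only [show 2 - 1 = 1 from rfl, pow_one, Nat.cast_ofNat]
  field_simp
  ring

theorem mainK {L : ℝ} {a b : ℝ → ℝ} (hF : IsField J) (hN : 2 * p < N) (h : IsPair L a b) :
    ∃ (γ : ℝ → EE N × (EE N → EE N)) (T : ℝ), 0 < T ∧ IsGeodesicK J L a b 1 γ ∧
      (∀ t, γ (t + T) = γ t) ∧
      T ^ N * (∫ t in (0 : ℝ)..π / 2, Real.sin t ^ (N - 1) * Real.cos t ^ p) ≤
        π ^ N * ∫ r in (0 : ℝ)..L, a r ^ p * b r ^ (N - 1 - p) := by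
  have hp : 0 < p := by rcases hF.2 with h1 | ⟨h1, -⟩ <;> omega
  set i₀ : Fin p := ⟨0, hp⟩ with hi₀
  obtain ⟨e, f, he, hf, hh1, hh2⟩ := exists_hor (J := J) i₀ hN
  have G : Good J i₀ e f := ⟨hF.1, he, hf, hh1, hh2⟩
  have ha := h.pa
  have hac : Continuous a := ha.smooth.continuous
  have hbc : Continuous b := h.smooth_b.continuous
  have had : Differentiable ℝ a := ha.smooth.differentiable (by simp)
  have hbd : Differentiable ℝ b := h.smooth_b.differentiable (by simp)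
  have hLpos := ha.pos
  have hpi := Real.pi_pos
  obtain ⟨A, hAp⟩ : ∃ A, p = A + 1 := ⟨p - 1, by omega⟩
  have hA02 : A = 0 ∨ A = 2 := by rcases hF.2 with h1 | ⟨h1, -⟩ <;> omega
  obtain ⟨B, hBp⟩ : ∃ B, N - 1 - p = B + 1 := ⟨N - 1 - p - 1, by omega⟩
  have hNAB : N = A + B + 3 := by omega
  have hN1 : N - 1 = A + B + 2 := by omega
  rw [hBp, hN1]
  have hpow : ∀ r, a r ^ p * b r ^ (B + 1) = a r ^ (A + 1) * b r ^ (B + 1) := fun r => by rw [hAp]
  have hpow2 : ∀ t, Real.sin t ^ (A + B + 2) * Real.cos t ^ p =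
    Real.sin t ^ (A + B + 2) * Real.cos t ^ (A + 1) := fun r => by rw [hAp]
  simp only [hpow, hpow2]
  set W : ℝ := ∫ t in (0 : ℝ)..π / 2, Real.sin t ^ (A + B + 2) * Real.cos t ^ (A + 1) with hWdef
  set V : ℝ := ∫ r in (0 : ℝ)..L, a r ^ (A + 1) * b r ^ (B + 1) with hVdef
  have hN0 : N ≠ 0 := by omega
  have hW : 0 < W := by
    refine intervalIntegral.intervalIntegral_pos_of_pos_on
      (((Real.continuous_sin.pow _).mul (Real.continuous_cos.pow _)).intervalIntegrable _ _)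
      (fun x hx => mul_pos (pow_pos (Real.sin_pos_of_pos_of_lt_pi hx.1 (by linarith [hx.2])) _)
        (pow_pos (Real.cos_pos_of_mem_Ioo ⟨by linarith [hx.1], hx.2⟩) _)) (by positivity)
  have hV : 0 < V := by
    refine intervalIntegral.intervalIntegral_pos_of_pos_on
      (((hac.pow _).mul (hbc.pow _)).intervalIntegrable _ _) (fun x hx => ?_) hLpos
    exact mul_pos (pow_pos (ha.fpos x hx.1 hx.2) _) (pow_pos (h.b_pos x hx.1 hx.2.le) _)
  obtain ⟨R, hR, hRn⟩ : ∃ R : ℝ, 0 < R ∧ R ^ N * W = V := by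
    refine ⟨(V / W) ^ ((N : ℝ)⁻¹), Real.rpow_pos_of_pos (div_pos hV hW) _, ?_⟩
    rw [Real.rpow_inv_natCast_pow (div_pos hV hW).le hN0]
    field_simp
  suffices hmain : ∃ (γ : ℝ → EE N × (EE N → EE N)) (T : ℝ),
      0 < T ∧ IsGeodesicK J L a b 1 γ ∧ (∀ t, γ (t + T) = γ t) ∧ T ≤ π * R by
    obtain ⟨γ, T, hT, hγ, hper, hle⟩ := hmain
    refine ⟨γ, T, hT, hγ, hper, ?_⟩
    have h1 : T ^ N ≤ (π * R) ^ N := pow_le_pow_left₀ hT.le hle N
    calc T ^ N * W ≤ (π * R) ^ N * W := mul_le_mul_of_nonneg_right h1 hW.le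
      _ = π ^ N * (R ^ N * W) := by rw [mul_pow]; ring
      _ = π ^ N * V := by rw [hRn]
  by_contra hcon
  have hno : ∀ (γ : ℝ → EE N × (EE N → EE N)) (T : ℝ), 0 < T →
      IsGeodesicK J L a b 1 γ → (∀ t, γ (t + T) = γ t) → π * R < T := by
    intro γ T hT hγ hper
    by_contra hle
    exact hcon ⟨γ, T, hT, hγ, hper, not_lt.1 hle⟩
  -- the `2`-sphere of revolution with profile `a`
  have hnoA : ∀ (γ : ℝ → EuclideanSpace ℝ (Fin 2) × ℝ) (T : ℝ), 0 < T → Rot.IsGeodesic L a 1 γ →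
      (∀ t, γ (t + T) = γ t) → 2 * π * (R / 2) < T := by
    intro γ T hT hγ hper
    obtain ⟨γ', h1, h2⟩ := liftAK hF rfl G hLpos (b := b) had hγ
    have := hno γ' T hT h1 (h2 T hper)
    linarith
  have hL2 : π * R < 2 * L := by
    obtain ⟨γ', g1, g2⟩ := Rot.TG.meridian ha (le_refl 2)
    have := hnoA γ' (2 * L) (by linarith) g1 g2
    linarith
  have hca : ∀ r, 0 < r → r < L → deriv a r = 0 → R / 2 < a r := by
    intro r h0 hrL hd
    obtain ⟨γ, h1, h2⟩ := Rot.TG.parallel ha (le_refl 2) h0 hrL hd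
    have hfr := ha.fpos r h0 hrL
    have := hnoA γ (2 * π * a r) (by positivity) h1 h2
    exact lt_of_mul_lt_mul_left this (by positivity)
  have hbL0 : 0 < b L := h.b_pos L hLpos le_rfl
  have hbL : R < b L := by
    obtain ⟨γ, h1, h2⟩ := circleK G h
    have := hno γ (π * b L) (by positivity) h1 h2
    exact lt_of_mul_lt_mul_left this hpi.le
  have hcM : ∀ r, 0 < r → r < L → 2 * a r ^ 2 ≤ b r ^ 2 →
      a r * deriv a r * b r + (b r ^ 2 - 2 * a r ^ 2) * deriv b r = 0 → R ^ 2 < MM a b r := by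
    intro r h0 hrL h2 hcr
    have har := ha.fpos r h0 hrL
    have hbr := h.b_pos r h0 hrL.le
    obtain ⟨γ, g1, g2⟩ := torusK G (L := L) har hbr h2 hcr
    have hD : 0 < b r ^ 2 - a r ^ 2 := by nlinarith [pow_pos har 2]
    have hM : 0 < b r ^ 4 / (b r ^ 2 - a r ^ 2) := by positivity
    have h3 := hno γ _ (mul_pos hpi (Real.sqrt_pos.2 hM)) g1 g2
    have h4 : R < √(b r ^ 4 / (b r ^ 2 - a r ^ 2)) := lt_of_mul_lt_mul_left h3 hpi.le
    exact (Real.lt_sqrt hR.le).1 h4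
  obtain ⟨s, hs0, hsL, hsa, hsr⟩ := selectK h hR
    (fun r h0 hL hd => by linarith [hca r h0 hL hd]) hbL hcM
  have H : SP L R s a b := ⟨h, hR, hbL, hL2, hs0, hsL, hsa, hsr⟩
  have hEa := Edge.rot_edge ha le_rfl (by linarith : 0 < R / 2) hnoA
  obtain ⟨S₁, α₁, β₁, hS₁, w₁⟩ := Rot.TA.exists_wall ha (by linarith : 0 < R / 2) hca
  have wa := wl_of_wall ha w₁ hS₁ hs0 hsL (by linarith)
  have hW' : ∀ t, 0 < t → t < R / 2 → ∃ x y, 0 < x ∧ x < y ∧ y < L ∧
      (∀ r ∈ Ioo x y, t < a r) ∧ (∀ r ∈ Ioc 0 x, a r ≤ t) ∧ ∀ r ∈ Ico y L, a r ≤ t := by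
    intro t h0 hR
    obtain ⟨x, y, g1, g2, g3, g4, g5, g6, g7⟩ := wa.itv t h0 hR
    exact ⟨x, y, g1, g2.trans g3, g4, g5, g6, g7⟩
  have hEA : ∀ x, 0 ≤ x → x ≤ R / 2 →
      π * (R - 2 * x) ≤ 2 * ∫ r in Ioo 0 L, √(1 - (x / a r) ^ 2) := by
    intro x h0 h1
    have := hEa x h0 h1
    unfold Rot.actA at this
    linarith
  have hEB : ∀ y p, 0 < y → y < R → 0 < p → p < L → b p ≤ y →
      π * (R - y) ≤ 2 * ∫ r in Ioo p L, √(1 - (y / b r) ^ 2) := fun y p h0 h1 h2 h3 h4 =>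
    edgeB G h hR hbL hL2 hno h0 h1 h2 h3 h4
  have hK := H.kq
  by_cases hneg : ∃ c ∈ KD R, ∃ p q, Ess L a b s c p q ∧ De R a b c p q < 0
  swap
  · push Not at hneg
    have h1 := volK H A B hA02 (fun c hc => by
      obtain ⟨p', q', hE⟩ := H.exists_Ess hc
      have h2 := hneg c hc p' q' hE
      unfold De at h2
      have h3 : ∫ r in Ioo p' q', √(1 - Veff a b c.1 c.2 r) ≤
          ∫ r in Ioo 0 L, √(1 - Veff a b c.1 c.2 r) :=
        setIntegral_mono_set (hK.intOn _ _ (by simp))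
          (Eventually.of_forall fun r => Real.sqrt_nonneg _)
          (Ioo_subset_Ioo hE.1.le hE.2.2.1.le).eventuallyLE
      linarith)
    rw [← hWdef, ← hVdef, ← hNAB, hRn] at h1
    exact lt_irrefl _ h1
  obtain ⟨c, hc, u, q, hE, hDneg, hmin⟩ := H.exists_min hW' hEA hEB hneg
  obtain ⟨hint, hΦ1, hΦ2, hu', hq'⟩ := H.crit hc hE hmin
  obtain ⟨hu, huq, hq, hVu, hVq, hin, -, -⟩ := hE
  have hc1 := hc.1
  have hc2 := hc.2.1
  have hn : 0 < nn c := by unfold nn; positivity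
  have hn2 := nn_sq c
  obtain ⟨r, T, hT, hTeq, hr, hrI, hr2, hr1, hrT, hrint⟩ :=
    TH.oscillator hu huq hq (hK.contDiffOn c.1 c.2) hVu hVq hu' hq' hin
  have hrpos : ∀ t, 0 < r t ∧ r t < L := fun t =>
    ⟨hu.trans_le (hrI t).1, (hrI t).2.trans_lt hq⟩
  have hane : ∀ x ∈ Icc u q, a x ≠ 0 := fun x hx =>
    (hK.fpos x (hu.trans_le hx.1) (hx.2.trans_lt hq)).ne'
  have hbne : ∀ x ∈ Icc u q, b x ≠ 0 := fun x hx =>
    (hK.hpos x (hu.trans_le hx.1) (hx.2.trans_lt hq)).ne'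
  obtain ⟨θ₁, hθ₁, hθ₁d, hθ₁T⟩ := Pre.angle (c := c.1) hr hrI ha.smooth hane hrT
  obtain ⟨θ₂, hθ₂, hθ₂d, hθ₂T⟩ := Pre.angle (c := c.2) hr hrI h.smooth_b hbne hrT
  have hA1 : ∫ t in (0 : ℝ)..T, c.1 / a (r t) ^ 2 = π * (c.1 / nn c + 1) := by
    rw [hrint (fun x => c.1 / a x ^ 2)
      (continuousOn_const.div (hac.continuousOn.pow 2) fun x hx => pow_ne_zero 2 (hane x hx))]
    simp only [div_div]
    exact hΦ1
  have hA2 : ∫ t in (0 : ℝ)..T, c.2 / b (r t) ^ 2 = π * c.2 / nn c := by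
    rw [hrint (fun x => c.2 / b x ^ 2)
      (continuousOn_const.div (hbc.continuousOn.pow 2) fun x hx => pow_ne_zero 2 (hbne x hx))]
    simp only [div_div]
    exact hΦ2
  -- the length of one oscillation
  have hTlt : T < π * R := by
    have e : ∀ x ∈ Ioo u q, 1 / √(1 - Veff a b c.1 c.2 x) = √(1 - Veff a b c.1 c.2 x)
        + (c.1 * (c.1 / (a x ^ 2 * √(1 - Veff a b c.1 c.2 x)))
        + c.2 * (c.2 / (b x ^ 2 * √(1 - Veff a b c.1 c.2 x)))) := by
      intro x hx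
      have hx1 : 0 < 1 - Veff a b c.1 c.2 x := by linarith [hin x hx]
      have hsq := Real.sq_sqrt hx1.le
      have hsp := Real.sqrt_pos.2 hx1
      have hfx := hane x ⟨hx.1.le, hx.2.le⟩
      have hhx := hbne x ⟨hx.1.le, hx.2.le⟩
      have hVx : Veff a b c.1 c.2 x = (c.1 / a x) ^ 2 + (c.2 / b x) ^ 2 := rfl
      set y := √(1 - Veff a b c.1 c.2 x) with hy
      have h3 : y ^ 2 = 1 - ((c.1 / a x) ^ 2 + (c.2 / b x) ^ 2) := by rw [hsq, hVx]
      have h4 : 1 = y ^ 2 + (c.1 ^ 2 / a x ^ 2 + c.2 ^ 2 / b x ^ 2) := by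
        rw [h3, div_pow, div_pow]; ring
      have h5 : 1 / y = (y ^ 2 + (c.1 ^ 2 / a x ^ 2 + c.2 ^ 2 / b x ^ 2)) / y := by rw [← h4]
      rw [h5]
      field_simp
    have hbdd : ∀ {g : ℝ → ℝ} (d : ℝ), Continuous g → (∀ x ∈ Icc u q, g x ≠ 0) →
        IntegrableOn (fun x => d / (g x ^ 2 * √(1 - Veff a b c.1 c.2 x))) (Ioo u q) := by
      intro g d hg hg0
      have hcont : ContinuousOn (fun x => d / g x ^ 2) (Icc u q) :=
        continuousOn_const.div (hg.continuousOn.pow 2) fun x hx => pow_ne_zero 2 (hg0 x hx)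
      obtain ⟨M, hM⟩ := isCompact_Icc.exists_bound_of_continuousOn hcont
      have h1 : IntegrableOn (fun x => (d / g x ^ 2) * (1 / √(1 - Veff a b c.1 c.2 x)))
          (Ioo u q) := by
        refine Integrable.bdd_mul (c := M) hint
          ((hcont.mono Ioo_subset_Icc_self).aestronglyMeasurable measurableSet_Ioo) ?_
        exact (ae_restrict_iff' measurableSet_Ioo).2 (Filter.Eventually.of_forall fun x hx =>
          hM x (Ioo_subset_Icc_self hx))
      refine h1.congr_fun (fun x _ => ?_) measurableSet_Ioo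
      simp only [mul_one_div, div_div]
    have i1 := hbdd c.1 hac hane
    have i2 := hbdd c.2 hbc hbne
    have i0 : IntegrableOn (fun x => √(1 - Veff a b c.1 c.2 x)) (Ioo u q) :=
      hK.intOn _ _ (by simp)
    have h1 : ∫ x in Ioo u q, 1 / √(1 - Veff a b c.1 c.2 x) =
        (∫ x in Ioo u q, √(1 - Veff a b c.1 c.2 x)) +
        (c.1 * (∫ x in Ioo u q, c.1 / (a x ^ 2 * √(1 - Veff a b c.1 c.2 x))) +
        c.2 * (∫ x in Ioo u q, c.2 / (b x ^ 2 * √(1 - Veff a b c.1 c.2 x)))) := by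
      have j12 : IntegrableOn (fun x => c.1 * (c.1 / (a x ^ 2 * √(1 - Veff a b c.1 c.2 x)))
          + c.2 * (c.2 / (b x ^ 2 * √(1 - Veff a b c.1 c.2 x)))) (Ioo u q) :=
        (i1.const_mul c.1).add (i2.const_mul c.2)
      rw [setIntegral_congr_fun measurableSet_Ioo e, integral_add i0 j12,
        integral_add (i1.const_mul c.1) (i2.const_mul c.2), integral_const_mul, integral_const_mul]
    unfold De at hDneg
    rw [hTeq, h1]
    have g1 : c.1 * (2 * ∫ x in Ioo u q, c.1 / (a x ^ 2 * √(1 - Veff a b c.1 c.2 x))) =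
        π * (c.1 ^ 2 / nn c + c.1) := by rw [hΦ1]; ring
    have g2 : c.2 * (2 * ∫ x in Ioo u q, c.2 / (b x ^ 2 * √(1 - Veff a b c.1 c.2 x))) =
        π * (c.2 ^ 2 / nn c) := by rw [hΦ2]; ring
    have g3 : c.1 ^ 2 / nn c + c.2 ^ 2 / nn c = nn c := by
      field_simp
      linarith
    have g4 : ll c = nn c + c.1 := rfl
    rw [g4] at hDneg
    have g5 : π * (c.1 ^ 2 / nn c + c.1) + π * (c.2 ^ 2 / nn c) = π * (nn c + c.1) := by
      have g6 : π * (c.1 ^ 2 / nn c + c.1) + π * (c.2 ^ 2 / nn c) =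
          π * ((c.1 ^ 2 / nn c + c.2 ^ 2 / nn c) + c.1) := by ring
      rw [g6, g3]
    linarith
  -- the closed geodesic
  obtain ⟨γ, hγ, hper⟩ := planarK G (L := L) (a := a) (b := b) (r := r)
    (α := fun t => θ₁ t - c.1 / c.2 * θ₂ t) (β := fun t => nn c / c.2 * θ₂ t)
    (x := c.1) (y := c.2) (m := nn c) (T := T) hn hn2.symm hr
    (hθ₁.sub (contDiff_const.mul hθ₂)) (contDiff_const.mul hθ₂)
    (fun t => hane _ ⟨(hrI t).1, (hrI t).2⟩) (fun t => hbne _ ⟨(hrI t).1, (hrI t).2⟩)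
    (fun t => by
      rw [hr2, hK.veff_deriv c.1 c.2 (hrpos t).1 (hrpos t).2]
      ring)
    (fun t => by
      have d1 : HasDerivAt θ₁ (deriv θ₁ t) t :=
        (hθ₁.differentiable (by norm_num)).differentiableAt.hasDerivAt
      have d2 : HasDerivAt θ₂ (deriv θ₂ t) t :=
        (hθ₂.differentiable (by norm_num)).differentiableAt.hasDerivAt
      rw [(d1.fun_sub (d2.const_mul (c.1 / c.2))).deriv, hθ₁d, hθ₂d]
      have := hbne (r t) ⟨(hrI t).1, (hrI t).2⟩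
      have := hane (r t) ⟨(hrI t).1, (hrI t).2⟩
      field_simp)
    (fun t => by
      have d2 : HasDerivAt θ₂ (deriv θ₂ t) t :=
        (hθ₂.differentiable (by norm_num)).differentiableAt.hasDerivAt
      rw [(d2.const_mul (nn c / c.2)).deriv, hθ₂d]
      have := hbne (r t) ⟨(hrI t).1, (hrI t).2⟩
      field_simp)
    (fun t => by
      rw [hr1]
      unfold Veff
      ring)
    hrT
    (fun t => by
      rw [hθ₁T, hθ₂T, hA1, hA2]
      field_simp
      ring)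
    (fun t => by
      rw [hθ₂T, hA2]
      field_simp)
  have := hno γ T hT hγ hper
  linarith

/-- The main theorem together with the bound by the distance. -/
theorem mainK' {L : ℝ} {a b : ℝ → ℝ} (hF : IsField J) (hN : 2 * p < N) (h : IsPair L a b) :
    ∃ (γ : ℝ → EE N × (EE N → EE N)) (T : ℝ), 0 < T ∧ IsGeodesicK J L a b 1 γ ∧
      (∀ t, γ (t + T) = γ t) ∧ T ≤ 2 * L ∧
      T ^ N * (∫ t in (0 : ℝ)..π / 2, Real.sin t ^ (N - 1) * Real.cos t ^ p) ≤
        π ^ N * ∫ r in (0 : ℝ)..L, a r ^ p * b r ^ (N - 1 - p) := by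
  obtain ⟨γ, T, h1, h2, h3, h4⟩ := mainK hF hN h
  rcases le_or_gt T (2 * L) with h5 | h5
  · exact ⟨γ, T, h1, h2, h3, h5, h4⟩
  · have hp : 0 < p := by rcases hF.2 with h1 | ⟨h1, -⟩ <;> omega
    obtain ⟨e, f, he, hf, hh1, hh2⟩ := exists_hor (J := J) ⟨0, hp⟩ hN
    have G : Good J ⟨0, hp⟩ e f := ⟨hF.1, he, hf, hh1, hh2⟩
    obtain ⟨γ', g1, g2⟩ := Rot.TG.meridian h.pa (le_refl 2)
    have hL := h.pa.pos
    obtain ⟨γ'', k1, k2⟩ := liftAK hF rfl G hL (b := b) (h.pa.smooth.differentiable (by simp)) g1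
    refine ⟨γ'', 2 * L, by linarith, k1, k2 _ g2, le_rfl, le_trans ?_ h4⟩
    have hW : 0 ≤ ∫ t in (0 : ℝ)..π / 2, Real.sin t ^ (N - 1) * Real.cos t ^ p :=
      intervalIntegral.integral_nonneg (by positivity)
        (fun t ht => mul_nonneg
          (pow_nonneg (Real.sin_nonneg_of_nonneg_of_le_pi ht.1 (by linarith [ht.2, Real.pi_pos])) _)
          (pow_nonneg (Real.cos_nonneg_of_mem_Icc ⟨by linarith [ht.1, Real.pi_pos], ht.2⟩) _))
    exact mul_le_mul_of_nonneg_right (pow_le_pow_left₀ (by linarith) h5.le N) hW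

/-- The Fubini-Study metric. -/
theorem fubini_study : IsPair (π / 2) (fun r => Real.sin r * Real.cos r) Real.sin where
  pa :=
    { pos := by positivity
      smooth := Real.contDiff_sin.mul Real.contDiff_cos
      odd_zero := fun r => by simp only [Real.sin_neg, Real.cos_neg]; ring
      odd_L := fun r => by
        simp only [Real.sin_add, Real.cos_add, Real.sin_sub, Real.cos_sub, Real.sin_pi_div_two,
          Real.cos_pi_div_two]
        ring
      fpos := fun r h0 hL => mul_pos (Real.sin_pos_of_pos_of_lt_pi h0 (by linarith [Real.pi_pos]))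
        (Real.cos_pos_of_mem_Ioo ⟨by linarith [Real.pi_pos], hL⟩)
      deriv_zero := by
        rw [((Real.hasDerivAt_sin 0).fun_mul (Real.hasDerivAt_cos 0)).deriv]
        simp
      deriv_L := by
        rw [((Real.hasDerivAt_sin (π / 2)).fun_mul (Real.hasDerivAt_cos (π / 2))).deriv]
        simp }
  smooth_b := Real.contDiff_sin
  b_odd := fun r => Real.sin_neg r
  b_even := fun r => by
    rw [Real.sin_add, Real.sin_sub]
    simp
  b_pos := fun r h0 hL => Real.sin_pos_of_pos_of_lt_pi h0 (by linarith [Real.pi_pos])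
  b_deriv := by simp

end Pool.Agent.L7h84.KP
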