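import Pool.Agent.L7h84.KP.Well

/-! # The minimum of the action defect over the essential wells -/

open Real Set MeasureTheory Filter Topology
open scoped ContDiff

namespace Pool.Agent.L7h84.KP

open Pool.Agent.H206R2 Pool.Agent.H206R2.Rot2 Pool.Agent.L7h84.CL.Mn

/-- The defect. -/
noncomputable def De (R : ℝ) (a b : ℝ → ℝ) (c : ℝ × ℝ) (p q : ℝ) : ℝ :=
  2 * (∫ r in Ioo p q, √(1 - Veff a b c.1 c.2 r)) - π * (R - ll c)

lemma De_ge (R : ℝ) (a b : ℝ → ℝ) (c : ℝ × ℝ) (p q : ℝ) : -(π * (R - ll c)) ≤ De R a b c p q := by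
  have : 0 ≤ ∫ r in Ioo p q, √(1 - Veff a b c.1 c.2 r) :=
    integral_nonneg fun r => Real.sqrt_nonneg _
  unfold De
  linarith

theorem lscK {L R : ℝ} {a b : ℝ → ℝ} (hK : KQ L a b) {c₀ : ℝ × ℝ} {p₀ q₀ m : ℝ}
    {c : ℕ → ℝ × ℝ} {p q : ℕ → ℝ} (hc : Tendsto c atTop (𝓝 c₀)) (hp : Tendsto p atTop (𝓝 p₀))
    (hq : Tendsto q atTop (𝓝 q₀))
    (hD : Tendsto (fun n => De R a b (c n) (p n) (q n)) atTop (𝓝 m)) : De R a b c₀ p₀ q₀ ≤ m := by
  have e1 : Tendsto (fun n => ll (c n)) atTop (𝓝 (ll c₀)) := (ll_cont.tendsto c₀).comp hc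
  rcases le_or_gt q₀ p₀ with hle | hlt
  · have h1 : De R a b c₀ p₀ q₀ = -(π * (R - ll c₀)) := by
      unfold De
      rw [Ioo_eq_empty (not_lt.2 hle)]
      simp
    rw [h1]
    exact le_of_tendsto_of_tendsto ((tendsto_const_nhds.sub e1).const_mul π).neg hD
      (Eventually.of_forall fun n => De_ge _ _ _ _ _ _)
  · refine le_of_forall_pos_le_add fun ε hε => ?_
    set mid := (p₀ + q₀) / 2 with hmid
    set x := min (p₀ + ε / 4) mid with hxdef
    set y := max (q₀ - ε / 4) mid with hydef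
    have hpx : p₀ < x := lt_min (by linarith) (by linarith)
    have hyq : y < q₀ := max_lt (by linarith) (by linarith)
    have hxx : x ≤ mid := min_le_right _ _
    have hyy : mid ≤ y := le_max_right _ _
    have hx4 : x ≤ p₀ + ε / 4 := min_le_left _ _
    have hy4 : q₀ - ε / 4 ≤ y := le_max_left _ _
    have hxy2 : x ≤ y := hxx.trans hyy
    have ev2 : ∀ᶠ n in atTop, 2 * (∫ r in Icc x y, √(1 - Veff a b (c n).1 (c n).2 r)) -
        π * (R - ll (c n)) ≤ De R a b (c n) (p n) (q n) := by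
      filter_upwards [hp.eventually_lt_const hpx, hq.eventually_const_lt hyq] with n h1 h2
      have h3 : ∫ r in Icc x y, √(1 - Veff a b (c n).1 (c n).2 r) ≤
          ∫ r in Ioo (p n) (q n), √(1 - Veff a b (c n).1 (c n).2 r) :=
        setIntegral_mono_set (hK.intOn _ _ (by simp))
          (Eventually.of_forall fun r => Real.sqrt_nonneg _)
          (LE.le.eventuallyLE fun r hr => ⟨h1.trans_le hr.1, hr.2.trans_lt h2⟩)
      unfold De
      linarith
    have lim : Tendsto (fun n => 2 * (∫ r in Icc x y, √(1 - Veff a b (c n).1 (c n).2 r)) -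
        π * (R - ll (c n))) atTop (𝓝 (2 * (∫ r in Icc x y, √(1 - Veff a b c₀.1 c₀.2 r)) -
        π * (R - ll c₀))) :=
      ((hK.tendsto_int hc x y).const_mul 2).sub ((tendsto_const_nhds.sub e1).const_mul π)
    have key := le_of_tendsto_of_tendsto lim hD ev2
    have ht := hK.trunc c₀.1 c₀.2 hpx.le hxy2 hyq.le
    unfold De
    linarith

lemma tend2 {F : (ℝ × ℝ) × ℝ → ℝ} {c₀ : ℝ × ℝ} {p₀ : ℝ} (hF : ContinuousAt F (c₀, p₀))
    {c : ℕ → ℝ × ℝ} {p : ℕ → ℝ} (hc : Tendsto c atTop (𝓝 c₀)) (hp : Tendsto p atTop (𝓝 p₀)) :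
    Tendsto (fun n => F (c n, p n)) atTop (𝓝 (F (c₀, p₀))) :=
  hF.tendsto.comp (hc.prodMk_nhds hp)

lemma Veff_ge1 {a b : ℝ → ℝ} {c : ℝ × ℝ} {r : ℝ} (h : Veff a b c.1 c.2 r = 1) :
    |c.1 / a r| ≤ 1 := by
  have h1 : (c.1 / a r) ^ 2 ≤ 1 ^ 2 := by
    unfold Veff at h
    nlinarith [sq_nonneg (c.2 / b r)]
  exact abs_le_of_sq_le_sq h1 zero_le_one

lemma Veff_ge2 {a b : ℝ → ℝ} {c : ℝ × ℝ} {r : ℝ} (h : Veff a b c.1 c.2 r = 1) :
    |c.2 / b r| ≤ 1 := by
  have h1 : (c.2 / b r) ^ 2 ≤ 1 ^ 2 := by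
    unfold Veff at h
    nlinarith [sq_nonneg (c.1 / a r)]
  exact abs_le_of_sq_le_sq h1 zero_le_one

theorem SP.exists_min {L R s : ℝ} {a b : ℝ → ℝ} (H : SP L R s a b)
    (hW : ∀ t, 0 < t → t < R / 2 → ∃ x y, 0 < x ∧ x < y ∧ y < L ∧
      (∀ r ∈ Ioo x y, t < a r) ∧ (∀ r ∈ Ioc 0 x, a r ≤ t) ∧ ∀ r ∈ Ico y L, a r ≤ t)
    (hEA : ∀ x, 0 ≤ x → x ≤ R / 2 → π * (R - 2 * x) ≤ 2 * ∫ r in Ioo 0 L, √(1 - (x / a r) ^ 2))
    (hEB : ∀ y p, 0 < y → y < R → 0 < p → p < L → b p ≤ y →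
      π * (R - y) ≤ 2 * ∫ r in Ioo p L, √(1 - (y / b r) ^ 2))
    (hneg : ∃ c ∈ KD R, ∃ p q, Ess L a b s c p q ∧ De R a b c p q < 0) :
    ∃ c ∈ KD R, ∃ p q, Ess L a b s c p q ∧ De R a b c p q < 0 ∧
      ∀ c' ∈ KD R, ∀ p' q', Ess L a b s c' p' q' → De R a b c p q ≤ De R a b c' p' q' := by
  have hπ := Real.pi_pos
  have hK := H.kq
  have hL := hK.pos
  have hac : Continuous a := hK.sf.continuous
  have hbc : Continuous b := hK.sh.continuous
  have hR := H.R0
  set E : Set ℝ := {d | ∃ c ∈ KD R, ∃ p q, Ess L a b s c p q ∧ De R a b c p q = d} with hE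
  have hbdd : BddBelow E := by
    refine ⟨-(π * R), ?_⟩
    rintro _ ⟨c, hc, p, q, -, rfl⟩
    have h1 := De_ge R a b c p q
    have h2 : 0 < ll c := by
      have := nn_nonneg c
      have := hc.1
      unfold ll
      linarith
    nlinarith
  obtain ⟨c₁, hc₁, p₁, q₁, hEs₁, hneg₁⟩ := hneg
  have hne : E.Nonempty := ⟨_, c₁, hc₁, p₁, q₁, hEs₁, rfl⟩
  set m := sInf E with hm
  have hmneg : m < 0 := lt_of_le_of_lt (csInf_le hbdd ⟨c₁, hc₁, p₁, q₁, hEs₁, rfl⟩) hneg₁
  obtain ⟨u, -, hu, huE⟩ := exists_seq_tendsto_sInf hne hbdd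
  choose d hdT P Q hPQ hdu using huE
  have hzK : ∀ n, ((d n), (P n, Q n)) ∈ Icc (((0 : ℝ), (0 : ℝ)), ((0 : ℝ), (0 : ℝ)))
      ((R, R), (L, L)) := by
    intro n
    obtain ⟨h1, h2, h3⟩ := hdT n
    obtain ⟨g1, g2, g3, -⟩ := hPQ n
    have h4 := nn_sq (d n)
    have h5 := nn_nonneg (d n)
    have h6 : nn (d n) < R := by unfold ll at h3; linarith
    refine ⟨⟨⟨h1.le, h2.le⟩, ⟨g1.le, (g1.trans g2).le⟩⟩, ⟨⟨?_, ?_⟩, ⟨(g2.trans g3).le, g3.le⟩⟩⟩
    · show (d n).1 ≤ R
      nlinarith [sq_nonneg (d n).2]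
    · show (d n).2 ≤ R
      nlinarith [sq_nonneg (d n).1]
  obtain ⟨z₀, hz₀, φ, hφ, hlim⟩ := isCompact_Icc.tendsto_subseq hzK
  obtain ⟨c₀, p₀, q₀⟩ := z₀
  obtain ⟨⟨⟨h01, h02⟩, ⟨hp0, hq0⟩⟩, ⟨⟨-, -⟩, ⟨hpL, hqL⟩⟩⟩ := hz₀
  simp only at h01 h02 hp0 hq0 hpL hqL
  set c : ℕ → ℝ × ℝ := fun n => d (φ n) with hcdef
  set p : ℕ → ℝ := fun n => P (φ n) with hpdef
  set q : ℕ → ℝ := fun n => Q (φ n) with hqdef
  have limc : Tendsto c atTop (𝓝 c₀) := (continuous_fst.tendsto _).comp hlim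
  have limp : Tendsto p atTop (𝓝 p₀) :=
    ((continuous_fst.comp continuous_snd).tendsto _).comp hlim
  have limq : Tendsto q atTop (𝓝 q₀) :=
    ((continuous_snd.comp continuous_snd).tendsto _).comp hlim
  have limc1 : Tendsto (fun n => (c n).1) atTop (𝓝 c₀.1) := (continuous_fst.tendsto _).comp limc
  have limc2 : Tendsto (fun n => (c n).2) atTop (𝓝 c₀.2) := (continuous_snd.tendsto _).comp limc
  have hcT : ∀ n, c n ∈ KD R := fun n => hdT (φ n)
  have hEs : ∀ n, Ess L a b s (c n) (p n) (q n) := fun n => hPQ (φ n)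
  have hD : Tendsto (fun n => De R a b (c n) (p n) (q n)) atTop (𝓝 m) := by
    have : (fun n => De R a b (c n) (p n) (q n)) = u ∘ φ := by
      funext n; exact hdu (φ n)
    rw [this]
    exact hu.comp hφ.tendsto_atTop
  have hlsc : De R a b c₀ p₀ q₀ ≤ m := lscK hK limc limp limq hD
  have liml : Tendsto (fun n => ll (c n)) atTop (𝓝 (ll c₀)) := (ll_cont.tendsto c₀).comp limc
  have hllR : ll c₀ < R := by
    rcases lt_or_eq_of_le (le_of_tendsto liml (Eventually.of_forall fun n => (hcT n).2.2.le)) with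
      h | h
    · exact h
    exfalso
    have h1 := De_ge R a b c₀ p₀ q₀
    rw [h, sub_self, mul_zero, neg_zero] at h1
    linarith
  have hpq : p₀ ≤ q₀ := le_of_tendsto_of_tendsto limp limq
    (Eventually.of_forall fun n => (hEs n).2.1.le)
  -- sign at the limit
  have hsgc := sg_cont hac hbc s
  have limsp : Tendsto (fun n => sg a b s (c n) (p n)) atTop (𝓝 (sg a b s c₀ p₀)) :=
    tend2 (F := fun z => sg a b s z.1 z.2) hsgc.continuousAt limc limp
  have limsq : Tendsto (fun n => sg a b s (c n) (q n)) atTop (𝓝 (sg a b s c₀ q₀)) :=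
    tend2 (F := fun z => sg a b s z.1 z.2) hsgc.continuousAt limc limq
  have hsp : 0 ≤ sg a b s c₀ p₀ :=
    ge_of_tendsto limsp (Eventually.of_forall fun n => (hEs n).2.2.2.2.2.2.1.le)
  have hsq : sg a b s c₀ q₀ ≤ 0 :=
    le_of_tendsto limsq (Eventually.of_forall fun n => (hEs n).2.2.2.2.2.2.2.le)
  have hVp : 0 < p₀ → p₀ < L → Veff a b c₀.1 c₀.2 p₀ = 1 := by
    intro h0 hL
    have h1 : Tendsto (fun n => Veff a b (c n).1 (c n).2 (p n)) atTop
        (𝓝 (Veff a b c₀.1 c₀.2 p₀)) :=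
      tend2 (F := fun z => Veff a b z.1.1 z.1.2 z.2) (hK.cont_joint h0 hL (c₀ := c₀)) limc limp
    have h2 : (fun n => Veff a b (c n).1 (c n).2 (p n)) = fun _ => 1 :=
      funext fun n => (hEs n).2.2.2.1
    rw [h2] at h1
    exact tendsto_nhds_unique h1 tendsto_const_nhds
  have hVq : 0 < q₀ → q₀ < L → Veff a b c₀.1 c₀.2 q₀ = 1 := by
    intro h0 hL
    have h1 : Tendsto (fun n => Veff a b (c n).1 (c n).2 (q n)) atTop
        (𝓝 (Veff a b c₀.1 c₀.2 q₀)) :=
      tend2 (F := fun z => Veff a b z.1.1 z.1.2 z.2) (hK.cont_joint h0 hL (c₀ := c₀)) limc limq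
    have h2 : (fun n => Veff a b (c n).1 (c n).2 (q n)) = fun _ => 1 :=
      funext fun n => (hEs n).2.2.2.2.1
    rw [h2] at h1
    exact tendsto_nhds_unique h1 tendsto_const_nhds
  have hsp' : 0 < p₀ → p₀ < L → 0 < sg a b s c₀ p₀ := fun h0 hL =>
    lt_of_le_of_ne hsp (H.sg_ne h01 hllR h0 hL (hVp h0 hL).ge).symm
  have hsq' : 0 < q₀ → q₀ < L → sg a b s c₀ q₀ < 0 := fun h0 hL =>
    lt_of_le_of_ne hsq (H.sg_ne h01 hllR h0 hL (hVq h0 hL).ge)
  have hqs : s ≤ q₀ := by
    have h1 : s - q₀ ≤ sg a b s c₀ q₀ := le_max_right _ _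
    linarith
  have hq00 : 0 < q₀ := H.s0.trans_le hqs
  -- `p₀ ≠ L`
  have hpL' : p₀ < L := by
    rcases hpL.eq_or_lt with h | h
    swap
    · exact h
    exfalso
    have e1 : Tendsto (fun n => b (p n)) atTop (𝓝 (b L)) := by
      rw [← h]; exact (hbc.tendsto p₀).comp limp
    obtain ⟨n, hn1, hn2⟩ := ((e1.eventually_const_lt H.bL).and
      (limp.eventually_const_lt (by rw [h]; exact H.sL))).exists
    obtain ⟨k1, k2, k3, k4, -, -, k7, -⟩ := hEs n
    obtain ⟨j1, j2, j3⟩ := hcT n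
    have hpn : 0 < p n := k1
    have hpnL : p n < L := k2.trans k3
    have ha := hK.fpos _ hpn hpnL
    have hb := hK.hpos _ hpn hpnL
    have hX : 0 < a (p n) ^ 2 * ll (c n) - (c n).1 * b (p n) ^ 2 := by
      rcases max_choice (a (p n) ^ 2 * ll (c n) - (c n).1 * b (p n) ^ 2) (s - p n) with h3 | h3
      · unfold sg at k7
        rw [h3] at k7
        exact k7
      · unfold sg at k7
        rw [h3] at k7
        linarith
    have hVe : Veff a b (c n).1 (c n).2 (p n) * (a (p n) ^ 2 * b (p n) ^ 2) =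
        (c n).1 ^ 2 * b (p n) ^ 2 + (c n).2 ^ 2 * a (p n) ^ 2 := by
      unfold Veff
      field_simp
    rw [k4, one_mul, ll_sq] at hVe
    have h2c := two_fst_le (c n)
    have hl0 : 0 < ll (c n) := by linarith
    set x := (c n).1
    set l := ll (c n)
    set A := a (p n) ^ 2
    have hA : 0 < A := pow_pos ha 2
    have h5 : l ^ 2 < b (p n) ^ 2 := pow_lt_pow_left₀ (j3.trans hn1) hl0.le two_ne_zero
    set B := b (p n) ^ 2
    have h6 : x * (x * B) < x * (A * l) := mul_lt_mul_of_pos_left (by linarith) j1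
    have h7 : A * l ^ 2 < A * B := mul_lt_mul_of_pos_left h5 hA
    have h8 : 0 < l * x * A := mul_pos (mul_pos hl0 j1) hA
    linarith
  -- behaviour of `c₀.1`, `c₀.2` at the ends
  have hz1 : ∀ {w : ℕ → ℝ} {w₀ : ℝ}, Tendsto w atTop (𝓝 w₀) → a w₀ = 0 →
      (∀ n, 0 < w n ∧ w n < L ∧ Veff a b (c n).1 (c n).2 (w n) = 1) → c₀.1 = 0 := by
    intro w w₀ hw ha0 hwn
    have h1 : Tendsto (fun n => a (w n)) atTop (𝓝 0) := by
      rw [← ha0]; exact (hac.tendsto w₀).comp hw
    refine le_antisymm (le_of_tendsto_of_tendsto limc1 h1 (Eventually.of_forall fun n => ?_)) h01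
    obtain ⟨k1, k2, k3⟩ := hwn n
    have ha := hK.fpos _ k1 k2
    have h2 := (abs_le.1 (Veff_ge1 k3)).2
    rwa [div_le_one ha] at h2
  have hz2 : ∀ {w : ℕ → ℝ} {w₀ : ℝ}, Tendsto w atTop (𝓝 w₀) → b w₀ = 0 →
      (∀ n, 0 < w n ∧ w n < L ∧ Veff a b (c n).1 (c n).2 (w n) = 1) → c₀.2 = 0 := by
    intro w w₀ hw hb0 hwn
    have h1 : Tendsto (fun n => b (w n)) atTop (𝓝 0) := by
      rw [← hb0]; exact (hbc.tendsto w₀).comp hw
    refine le_antisymm (le_of_tendsto_of_tendsto limc2 h1 (Eventually.of_forall fun n => ?_)) h02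
    obtain ⟨k1, k2, k3⟩ := hwn n
    have hb := hK.hpos _ k1 k2
    have h2 := (abs_le.1 (Veff_ge2 k3)).2
    rwa [div_le_one hb] at h2
  have hpn : ∀ n, 0 < p n ∧ p n < L ∧ Veff a b (c n).1 (c n).2 (p n) = 1 := fun n =>
    ⟨(hEs n).1, (hEs n).2.1.trans (hEs n).2.2.1, (hEs n).2.2.2.1⟩
  have hqn : ∀ n, 0 < q n ∧ q n < L ∧ Veff a b (c n).1 (c n).2 (q n) = 1 := fun n =>
    ⟨(hEs n).1.trans (hEs n).2.1, (hEs n).2.2.1, (hEs n).2.2.2.2.1⟩
  have hpz : p₀ = 0 → c₀.1 = 0 ∧ c₀.2 = 0 := fun h =>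
    ⟨hz1 limp (by rw [h]; exact H.a0) hpn, hz2 limp (by rw [h]; exact H.b0) hpn⟩
  have hqz : q₀ = L → c₀.1 = 0 := fun h => hz1 limq (by rw [h]; exact H.aL) hqn
  have hqz' : c₀.1 = 0 → q₀ = L := by
    intro h
    rcases hqL.eq_or_lt with h1 | h1
    · exact h1
    exfalso
    have h2 := hsq' hq00 h1
    have h3 : a q₀ ^ 2 * ll c₀ - c₀.1 * b q₀ ^ 2 ≤ sg a b s c₀ q₀ := le_max_left _ _
    have h4 : 0 ≤ ll c₀ := by
      have := nn_nonneg c₀
      unfold ll
      linarith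
    rw [h, zero_mul, sub_zero] at h3
    have : 0 ≤ a q₀ ^ 2 * ll c₀ := by positivity
    linarith
  rcases eq_or_lt_of_le h01 with h01' | h01'
  · exfalso
    have h10 : c₀.1 = 0 := h01'.symm
    have hqLe : q₀ = L := hqz' h10
    have hll : ll c₀ = c₀.2 := by
      unfold ll nn
      rw [h10]
      simp [Real.sqrt_sq h02]
    rcases eq_or_lt_of_le h02 with h02' | h02'
    · -- the origin
      have h20 : c₀.2 = 0 := h02'.symm
      have hV0 : ∀ r, Veff a b c₀.1 c₀.2 r = 0 := fun r => by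
        unfold Veff; rw [h10, h20]; simp
      have hp00 : p₀ = 0 := by
        rcases hp0.eq_or_lt with h | h
        · exact h.symm
        · have := hVp h hpL'
          rw [hV0] at this
          norm_num at this
      have h1 := hlsc
      unfold De at h1
      simp only [hV0] at h1
      rw [hll, h20, hp00, hqLe] at h1
      have h2 := H.L2
      simp only [sub_zero, Real.sqrt_one, integral_const, measureReal_restrict_apply,
        MeasurableSet.univ, univ_inter, Real.volume_real_Ioo_of_le hL.le, smul_eq_mul,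
        mul_one] at h1
      linarith
    · -- the edge `c₁ = 0`
      have hp00 : 0 < p₀ := by
        rcases hp0.eq_or_lt with h | h
        · have := (hpz h.symm).2
          linarith
        · exact h
      have hb := hK.hpos p₀ hp00 hpL'
      have h1 := (abs_le.1 (Veff_ge2 (hVp hp00 hpL'))).2
      have h2 := hVp hp00 hpL'
      have hbp : b p₀ ≤ c₀.2 := by
        unfold Veff at h2
        rw [h10, zero_div, zero_pow two_ne_zero, zero_add] at h2
        have h3 : (c₀.2 / b p₀) ^ 2 = 1 ^ 2 := by rw [h2, one_pow]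
        have h4 := (pow_left_inj₀ (div_pos h02' hb).le zero_le_one two_ne_zero).1 h3
        rw [div_eq_one_iff_eq hb.ne'] at h4
        exact h4.ge
      rw [hll] at hllR
      have h3 := hEB c₀.2 p₀ h02' hllR hp00 hpL' hbp
      have h4 := hlsc
      unfold De at h4
      rw [hll, hqLe] at h4
      have e : (fun r => √(1 - Veff a b c₀.1 c₀.2 r)) = fun r => √(1 - (c₀.2 / b r) ^ 2) := by
        funext r; unfold Veff; rw [h10]; simp
      rw [e] at h4
      linarith
  · have hp00 : 0 < p₀ := by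
      rcases hp0.eq_or_lt with h | h
      · have := (hpz h.symm).1
        linarith
      · exact h
    have hqL' : q₀ < L := by
      rcases hqL.eq_or_lt with h | h
      · have := hqz h
        linarith
      · exact h
    have hsp2 := hsp' hp00 hpL'
    have hsq2 := hsq' hq00 hqL'
    have hsub : Icc p₀ q₀ ⊆ Ioo 0 L := fun x hx => ⟨hp00.trans_le hx.1, hx.2.trans_lt hqL'⟩
    have hgc : Continuous (sg a b s c₀) :=
      hsgc.comp (by fun_prop : Continuous fun r : ℝ => (c₀, r))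
    obtain ⟨p', q', hp', hpq', hq', k1, k2, k3, k4, k5⟩ := exists_ess (V := Veff a b c₀.1 c₀.2)
      (g := sg a b s c₀) hpq (hK.cont_V.mono hsub) hgc.continuousOn (hVp hp00 hpL').ge
      (hVq hq00 hqL').ge hsp2 hsq2
      (fun x hx hVx => H.sg_ne h01 hllR (hsub hx).1 (hsub hx).2 hVx)
    rcases eq_or_lt_of_le h02 with h02' | h02'
    · -- the edge `c₂ = 0`
      exfalso
      have h20 : c₀.2 = 0 := h02'.symm
      have hll : ll c₀ = 2 * c₀.1 := by
        unfold ll nn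
        rw [h20]
        simp [Real.sqrt_sq h01]
        ring
      have hx : c₀.1 < R / 2 := by linarith
      obtain ⟨x, y, hx0, hxy, hyL, i1, i2, i3⟩ := hW c₀.1 h01' hx
      have hV : ∀ r, Veff a b c₀.1 c₀.2 r = (c₀.1 / a r) ^ 2 := fun r => by
        unfold Veff; rw [h20]; simp
      have hle : ∀ r, 0 < r → r < L → r ≤ x ∨ y ≤ r → 1 ≤ Veff a b c₀.1 c₀.2 r := by
        intro r hr0 hrL hr
        have hr3 : 0 < a r := hK.fpos r hr0 hrL
        have hr2 : a r ≤ c₀.1 := by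
          rcases hr with hr | hr
          · exact i2 r ⟨hr0, hr⟩
          · exact i3 r ⟨hr, hrL⟩
        have hr4 : 1 ≤ c₀.1 / a r := by rw [le_div_iff₀ hr3]; linarith
        rw [hV]
        nlinarith
      have hlt : ∀ r ∈ Ioo x y, Veff a b c₀.1 c₀.2 r < 1 := by
        intro r hr
        have h1 := i1 r hr
        have h2 : c₀.1 / a r < 1 := by rw [div_lt_one (by linarith)]; exact h1
        have h3 : 0 < c₀.1 / a r := div_pos h01' (by linarith)
        rw [hV]
        nlinarith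
      have hp'x : p' ≤ x := by
        by_contra hcon
        rcases le_or_gt y ((p' + q') / 2) with h | h
        · have h1 := hle ((p' + q') / 2) (by linarith) (by linarith) (Or.inr h)
          have h2 := k3 ((p' + q') / 2) ⟨by linarith, by linarith⟩
          linarith
        · have h1 := hlt p' ⟨not_le.1 hcon, by linarith⟩
          linarith
      have hq'y : y ≤ q' := by
        by_contra hcon
        rcases le_or_gt ((p' + q') / 2) x with h | h
        · have h1 := hle ((p' + q') / 2) (by linarith) (by linarith) (Or.inl h)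
          have h2 := k3 ((p' + q') / 2) ⟨by linarith, by linarith⟩
          linarith
        · have h1 := hlt q' ⟨by linarith, not_le.1 hcon⟩
          linarith
      have h1 := hEA c₀.1 h01 hx.le
      have hsplit : ∫ r in Ioo 0 L, √(1 - (c₀.1 / a r) ^ 2) =
          ∫ r in Ioo x y, √(1 - Veff a b c₀.1 c₀.2 r) := by
        simp only [hV]
        refine setIntegral_eq_of_subset_of_forall_sdiff_eq_zero measurableSet_Ioo
          (Ioo_subset_Ioo hx0.le hyL.le) ?_
        intro r hr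
        refine Real.sqrt_eq_zero_of_nonpos ?_
        have h2 : 1 ≤ Veff a b c₀.1 c₀.2 r := by
          refine hle r hr.1.1 hr.1.2 ?_
          by_contra hcon
          push Not at hcon
          exact hr.2 hcon
        rw [hV] at h2
        linarith
      have h2 : ∫ r in Ioo x y, √(1 - Veff a b c₀.1 c₀.2 r) ≤
          ∫ r in Ioo p₀ q₀, √(1 - Veff a b c₀.1 c₀.2 r) :=
        setIntegral_mono_set (hK.intOn _ _ (by simp))
          (Eventually.of_forall fun r => Real.sqrt_nonneg _)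
          (Ioo_subset_Ioo (hp'.trans hp'x) (hq'y.trans hq')).eventuallyLE
      have h3 := hlsc
      unfold De at h3
      rw [hll] at h3
      rw [hsplit] at h1
      linarith
    · -- an interior point: the minimum
      have hc₀T : c₀ ∈ KD R := ⟨h01', h02', hllR⟩
      have hEs0 : Ess L a b s c₀ p' q' :=
        ⟨hp00.trans_le hp', hpq', hq'.trans_lt hqL', k1, k2, k3, k4, k5⟩
      have hle : De R a b c₀ p' q' ≤ m := by
        refine le_trans ?_ hlsc
        have h2 : ∫ r in Ioo p' q', √(1 - Veff a b c₀.1 c₀.2 r) ≤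
            ∫ r in Ioo p₀ q₀, √(1 - Veff a b c₀.1 c₀.2 r) :=
          setIntegral_mono_set (hK.intOn _ _ (by simp))
            (Eventually.of_forall fun r => Real.sqrt_nonneg _)
            (Ioo_subset_Ioo hp' hq').eventuallyLE
        unfold De
        linarith
      exact ⟨c₀, hc₀T, p', q', hEs0, hle.trans_lt hmneg, fun c' hc' p'' q'' h'' =>
        hle.trans (csInf_le hbdd ⟨c', hc', p'', q'', h'', rfl⟩)⟩

end Pool.Agent.L7h84.KP
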