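import Pool.Agent.L7h84.KP.Main

/-!
# Sharp short periodic geodesics for metrics with large symmetry on `ℂP^n` and `ℍP^n`

`IsField J`: `J₁, …, J_p` are the complex structures of `ℝ^N = 𝕂^n` which generate the multiplication by
`𝕂 = ℂ` (`p = 1`) or `𝕂 = ℍ` (`p = 3`, `J₁ J₂ = J₃`).  `IsPair L a b`: `dr² + a(r)² g_V + b(r)² g_H`,
`0 < r < L`, is a smooth metric on `𝕂P^n`, in polar coordinates around a point; `V` is tangent to the
fibres of `S^{N-1} → 𝕂P^{n-1}`.  `IsGeodesicK J L a b v γ`: `γ` is a geodesic of speed `v`.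
For `n ≥ 2` every such metric has a periodic geodesic of unit speed with period `T ≤ 2 L` and
`T^N ∫_0^{π/2} sin^{N-1} cos^p ≤ π^N ∫_0^L a^p b^{N-1-p}`, i.e. `T^N vol(FS) ≤ π^N vol(M)`, where `FS` is
the Fubini-Study metric `L = π / 2`, `a = sin cos`, `b = sin`.
-/

open Real Set MeasureTheory

namespace Pool.Agent.L7h84.KP.PS

open Pool.Agent.L7h84.KP

theorem result :
    (∀ (N p : ℕ) (J : Fin p → EuclideanSpace ℝ (Fin N) →L[ℝ] EuclideanSpace ℝ (Fin N)),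
      IsField J → 2 * p < N → ∀ (L : ℝ) (a b : ℝ → ℝ), IsPair L a b →
      ∃ (γ : ℝ → EuclideanSpace ℝ (Fin N) ×
          (EuclideanSpace ℝ (Fin N) → EuclideanSpace ℝ (Fin N))) (T : ℝ), 0 < T ∧
        IsGeodesicK J L a b 1 γ ∧ (∀ t, γ (t + T) = γ t) ∧ T ≤ 2 * L ∧
        T ^ N * (∫ t in (0 : ℝ)..π / 2, Real.sin t ^ (N - 1) * Real.cos t ^ p)
          ≤ π ^ N * ∫ r in (0 : ℝ)..L, a r ^ p * b r ^ (N - 1 - p)) ∧
    IsPair (π / 2) (fun r => Real.sin r * Real.cos r) Real.sin :=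
  ⟨fun _ _ _ hF hN _ _ _ h => mainK' hF hN h, fubini_study⟩

end Pool.Agent.L7h84.KP.PS
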