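import Pool.Agent.L7h84.KP.Closed

/-! # Selection of the point `s` -/

open Real Set MeasureTheory Filter Topology
open scoped ContDiff

namespace Pool.Agent.L7h84.KP

open Pool.Agent.H206R2

lemma right_lt {g : ℝ → ℝ} {x d : ℝ} (h : HasDerivAt g d x) (hd : d < 0) :
    ∀ᶠ r in 𝓝[>] x, g r < g x := by
  have h1 : HasDerivWithinAt g d (Ioi x) x := h.hasDerivWithinAt
  rw [hasDerivWithinAt_iff_tendsto_slope' (by simp)] at h1
  filter_upwards [h1.eventually_lt_const hd, self_mem_nhdsWithin] with r hr hr2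
  have hr3 : 0 < r - x := by linarith [mem_Ioi.mp hr2]
  rw [slope_def_field, div_lt_iff₀ hr3] at hr
  linarith

lemma right_gt {g : ℝ → ℝ} {x d : ℝ} (h : HasDerivAt g d x) (hd : 0 < d) :
    ∀ᶠ r in 𝓝[>] x, g x < g r := by
  have h1 := right_lt h.fun_neg (neg_neg_of_pos hd)
  filter_upwards [h1] with r hr
  linarith

/-- the function whose critical points are the tori -/
noncomputable def MM (a b : ℝ → ℝ) (r : ℝ) : ℝ := b r ^ 4 / (b r ^ 2 - a r ^ 2)

lemma hasDerivAt_MM {a b : ℝ → ℝ} {r : ℝ} (ha : DifferentiableAt ℝ a r)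
    (hb : DifferentiableAt ℝ b r) (h : b r ^ 2 - a r ^ 2 ≠ 0) :
    HasDerivAt (MM a b) (2 * b r ^ 3 * (a r * deriv a r * b r +
      (b r ^ 2 - 2 * a r ^ 2) * deriv b r) / (b r ^ 2 - a r ^ 2) ^ 2) r := by
  have h1 := (hb.hasDerivAt.fun_pow 4).fun_div
    ((hb.hasDerivAt.fun_pow 2).fun_sub (ha.hasDerivAt.fun_pow 2)) h
  refine h1.congr_deriv ?_
  push_cast
  field_simp
  ring

theorem selectK {L : ℝ} {a b : ℝ → ℝ} (h : IsPair L a b) {R : ℝ} (hR : 0 < R)
    (hca : ∀ r, 0 < r → r < L → deriv a r = 0 → R < 2 * a r)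
    (hbL : R < b L)
    (hcM : ∀ r, 0 < r → r < L → 2 * a r ^ 2 ≤ b r ^ 2 →
      a r * deriv a r * b r + (b r ^ 2 - 2 * a r ^ 2) * deriv b r = 0 → R ^ 2 < MM a b r) :
    ∃ s, 0 < s ∧ s < L ∧ R < 2 * a s ∧ ∀ r, s ≤ r → r ≤ L →
      2 * a r ^ 2 ≤ b r ^ 2 ∧ R ^ 2 < MM a b r := by
  have hL := h.pa.pos
  have hac : Continuous a := h.pa.smooth.continuous
  have hbc : Continuous b := h.smooth_b.continuous
  have had : Differentiable ℝ a := h.pa.smooth.differentiable (by simp)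
  have hbd : Differentiable ℝ b := h.smooth_b.differentiable (by simp)
  have aL : a L = 0 := by
    have := h.pa.odd_L 0
    simp at this
    linarith
  have a0 : a 0 = 0 := by
    have := h.pa.odd_zero 0
    simp at this
    linarith
  have b0 : b 0 = 0 := by
    have := h.b_odd 0
    simp at this
    linarith
  have bL0 : 0 < b L := hR.trans hbL
  -- a point where `b² < 2 a²`
  obtain ⟨u, hu0, huL, hu⟩ : ∃ u, 0 < u ∧ u < L ∧ b u ^ 2 ≤ 2 * a u ^ 2 := by
    have h1 : HasDerivAt (fun r => (6 / 5) * a r - b r) (6 / 5 * 1 - 1) 0 := by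
      have h2 := (had 0).hasDerivAt
      have h3 := (hbd 0).hasDerivAt
      rw [h.pa.deriv_zero] at h2
      rw [h.b_deriv] at h3
      exact (h2.const_mul _).fun_sub h3
    have h2 := right_gt h1 (by norm_num)
    obtain ⟨u, hu, hu'⟩ := (h2.and (Ioo_mem_nhdsGT hL)).exists
    simp only [a0, b0] at hu
    have hb := h.b_pos u hu'.1 hu'.2.le
    exact ⟨u, hu'.1, hu'.2, by nlinarith⟩
  obtain ⟨r₂, hur, hrL, hr1, hr2⟩ := Rot2.TE.exists_last (g := fun r => 1 - (b r ^ 2 - 2 * a r ^ 2))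
    huL.le (by fun_prop) (by linarith) (by simp only [aL]; nlinarith)
  have hr0 : 0 < r₂ := hu0.trans_le hur
  have hr1' : b r₂ ^ 2 = 2 * a r₂ ^ 2 := by linarith
  have hge : ∀ r, r₂ ≤ r → r ≤ L → 2 * a r ^ 2 ≤ b r ^ 2 := by
    intro r h1 h2
    rcases h1.eq_or_lt with h3 | h3
    · rw [← h3, hr1']
    · linarith [hr2 r h3 h2]
  have hbpos : ∀ r, r₂ ≤ r → r ≤ L → 0 < b r := fun r h1 h2 => h.b_pos r (hr0.trans_le h1) h2
  have hD : ∀ r, r₂ ≤ r → r ≤ L → 0 < b r ^ 2 - a r ^ 2 := by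
    intro r h1 h2
    have h3 := hge r h1 h2
    have h4 := hbpos r h1 h2
    nlinarith [sq_nonneg (a r)]
  have hMd : ∀ r, r₂ ≤ r → r ≤ L → HasDerivAt (MM a b) (2 * b r ^ 3 * (a r * deriv a r * b r +
      (b r ^ 2 - 2 * a r ^ 2) * deriv b r) / (b r ^ 2 - a r ^ 2) ^ 2) r := fun r h1 h2 =>
    hasDerivAt_MM (had r) (hbd r) (hD r h1 h2).ne'
  have hMc : ContinuousOn (MM a b) (Icc r₂ L) := fun r hr =>
    (hMd r hr.1 hr.2).continuousAt.continuousWithinAt
  have hML : R ^ 2 < MM a b L := by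
    unfold MM
    rw [aL, zero_pow two_ne_zero, sub_zero, lt_div_iff₀ (by positivity)]
    have h1 : R ^ 2 < b L ^ 2 := by nlinarith
    nlinarith [pow_pos bL0 2]
  have hcrit : ∀ r, r₂ ≤ r → r < L → deriv (MM a b) r = 0 → R ^ 2 < MM a b r := by
    intro r h1 h2 h3
    refine hcM r (hr0.trans_le h1) h2 (hge r h1 h2.le) ?_
    rw [(hMd r h1 h2.le).deriv, div_eq_zero_iff] at h3
    rcases h3 with h3 | h3
    · rcases mul_eq_zero.1 h3 with h4 | h4
      · have := hbpos r h1 h2.le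
        have : 0 < 2 * b r ^ 3 := by positivity
        linarith
      · exact h4
    · have := hD r h1 h2.le
      have : 0 < (b r ^ 2 - a r ^ 2) ^ 2 := by positivity
      linarith
  have hM4 : ∀ r, r₂ ≤ r → r ≤ L → 4 * a r ^ 2 ≤ MM a b r := by
    intro r h1 h2
    unfold MM
    rw [le_div_iff₀ (hD r h1 h2)]
    nlinarith [sq_nonneg (b r ^ 2 - 2 * a r ^ 2)]
  -- a point with `2 a > R`
  obtain ⟨s, hs1, hs2, hs3⟩ : ∃ s, r₂ ≤ s ∧ s < L ∧ R < 2 * a s := by
    by_contra hcon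
    push Not at hcon
    have ha2 : 0 < a r₂ := h.pa.fpos r₂ hr0 hrL
    obtain ⟨x, hx, hxmax⟩ := isCompact_Icc.exists_isMaxOn (nonempty_Icc.2 hrL.le)
      (hac.continuousOn (s := Icc r₂ L))
    have hxr : x = r₂ := by
      rcases hx.1.eq_or_lt with h1 | h1
      · exact h1.symm
      exfalso
      rcases hx.2.eq_or_lt with h2 | h2
      · have := hxmax (left_mem_Icc.2 hrL.le)
        simp only [mem_ofPred_eq] at this
        rw [h2, aL] at this
        linarith
      · have hloc : IsLocalMax a x := hxmax.isLocalMax (Icc_mem_nhds h1 h2)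
        have := hca x (hr0.trans h1) h2 hloc.deriv_eq_zero
        linarith [hcon x h1.le h2]
    subst hxr
    have hda : deriv a x < 0 := by
      rcases lt_trichotomy (deriv a x) 0 with h1 | h1 | h1
      · exact h1
      · have := hca x hr0 hrL h1
        linarith [hcon x le_rfl hrL]
      · exfalso
        obtain ⟨y, hy, hy'⟩ := ((right_gt (had x).hasDerivAt h1).and (Ioo_mem_nhdsGT hrL)).exists
        have := hxmax ⟨hy'.1.le, hy'.2.le⟩
        simp only [mem_ofPred_eq] at this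
        linarith
    have hMx : MM a b x ≤ R ^ 2 := by
      have h1 := hcon x le_rfl hrL
      unfold MM
      have h2 : b x ^ 4 = 4 * a x ^ 4 := by
        have : b x ^ 4 = (b x ^ 2) ^ 2 := by ring
        rw [this, hr1']
        ring
      rw [div_le_iff₀ (hD x le_rfl hrL.le), h2, hr1']
      have h5 : 4 * a x ^ 2 ≤ R ^ 2 := by nlinarith
      nlinarith [mul_le_mul_of_nonneg_right h5 (sq_nonneg (a x))]
    obtain ⟨y, hy, hymin⟩ := isCompact_Icc.exists_isMinOn (nonempty_Icc.2 hrL.le) hMc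
    have hyx : MM a b y ≤ MM a b x := hymin (left_mem_Icc.2 hrL.le)
    have hyr : y = x := by
      rcases hy.1.eq_or_lt with h1 | h1
      · exact h1.symm
      exfalso
      rcases hy.2.eq_or_lt with h2 | h2
      · rw [h2] at hyx
        linarith
      · have hloc : IsLocalMin (MM a b) y := hymin.isLocalMin (Icc_mem_nhds h1 h2)
        have := hcrit y h1.le h2 hloc.deriv_eq_zero
        linarith
    have hneg : 2 * b x ^ 3 * (a x * deriv a x * b x +
      (b x ^ 2 - 2 * a x ^ 2) * deriv b x) / (b x ^ 2 - a x ^ 2) ^ 2 < 0 := by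
      have hb := hbpos x le_rfl hrL.le
      have hD' := hD x le_rfl hrL.le
      rw [hr1', sub_self, zero_mul, add_zero]
      apply div_neg_of_neg_of_pos
      · have h1 : a x * deriv a x * b x < 0 :=
          mul_neg_of_neg_of_pos (mul_neg_of_pos_of_neg ha2 hda) hb
        have h2 : 0 < 2 * b x ^ 3 := by positivity
        exact mul_neg_of_pos_of_neg h2 h1
      · rw [← hr1']
        positivity
    obtain ⟨z, hz, hz'⟩ := ((right_lt (hMd x le_rfl hrL.le) hneg).and (Ioo_mem_nhdsGT hrL)).exists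
    have := hymin (show z ∈ Icc x L from ⟨hz'.1.le, hz'.2.le⟩)
    simp only [mem_ofPred_eq] at this
    rw [hyr] at this
    linarith
  refine ⟨s, hr0.trans_le hs1, hs2, hs3, fun r h1 h2 => ⟨hge r (hs1.trans h1) h2, ?_⟩⟩
  obtain ⟨y, hy, hymin⟩ := isCompact_Icc.exists_isMinOn (nonempty_Icc.2 hs2.le)
    (hMc.mono (Icc_subset_Icc hs1 le_rfl))
  have hyr : MM a b y ≤ MM a b r := hymin ⟨h1, h2⟩
  refine lt_of_lt_of_le ?_ hyr
  rcases hy.1.eq_or_lt with h3 | h3
  · rw [← h3]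
    have := hM4 s hs1 hs2.le
    nlinarith
  · rcases hy.2.eq_or_lt with h4 | h4
    · rw [h4]
      exact hML
    · exact hcrit y (hs1.trans h3.le) h4 (hymin.isLocalMin (Icc_mem_nhds h3 h4)).deriv_eq_zero

end Pool.Agent.L7h84.KP
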