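import Pool.Agent.L7h84.KP.Crit

/-! # The volume bound -/

open Real Set MeasureTheory Filter Topology
open scoped ContDiff

namespace Pool.Agent.L7h84.KP

open Pool.Agent.H206R2 Pool.Agent.H206R2.Rot2 Pool.Agent.L7h84.CL.Mn Pool.Agent.L7h84.CL.Vl
open Pool.Agent.H206R2.Rot2.TI (SC gg gg_nonneg gg_bound gg_integrable gg_integral)

/-- the angular integral -/
noncomputable def KK (A B : ℕ) : ℝ :=
  ∫ t in (0 : ℝ)..(π / 2), Real.cos t ^ A * Real.sin t ^ B / (1 + Real.cos t) ^ (A + B + 2)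

lemma KK_eq (A B : ℕ) : KK A B =
    ∫ t in (0 : ℝ)..1, (1 - t ^ 2) ^ A * t ^ B * (1 + t ^ 2) / 2 ^ (A + 1) := by
  have hpos : ∀ x ∈ uIcc 0 (π / 2), 0 < 1 + Real.cos x := by
    intro x hx
    rw [uIcc_of_le (by positivity)] at hx
    have := Real.cos_nonneg_of_mem_Icc ⟨by linarith [hx.1, Real.pi_pos], hx.2⟩
    linarith
  have h := intervalIntegral.integral_comp_mul_deriv (a := (0 : ℝ)) (b := π / 2)
    (f := fun t => Real.sin t / (1 + Real.cos t)) (f' := fun t => 1 / (1 + Real.cos t))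
    (g := fun t => (1 - t ^ 2) ^ A * t ^ B * (1 + t ^ 2) / 2 ^ (A + 1))
    (fun x hx => by
      have h1 := (hpos x hx).ne'
      have h2 := (Real.hasDerivAt_sin x).div ((Real.hasDerivAt_cos x).const_add 1) h1
      refine h2.congr_deriv ?_
      field_simp
      have := Real.sin_sq_add_cos_sq x
      linarith)
    (continuousOn_const.div (by fun_prop) fun x hx => (hpos x hx).ne') (by fun_prop)
  simp only [Function.comp_apply, Real.sin_zero, zero_div, Real.sin_pi_div_two,
    Real.cos_pi_div_two, add_zero, div_one] at h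
  rw [← h]
  unfold KK
  refine intervalIntegral.integral_congr fun x hx => ?_
  have h1 := hpos x hx
  have h1' := h1.ne'
  have hs := Real.sin_sq_add_cos_sq x
  have e1 : 1 - (Real.sin x / (1 + Real.cos x)) ^ 2 = 2 * Real.cos x / (1 + Real.cos x) := by
    field_simp
    linear_combination (-1) * hs
  have e2 : 1 + (Real.sin x / (1 + Real.cos x)) ^ 2 = 2 / (1 + Real.cos x) := by
    field_simp
    linear_combination hs
  rw [e1, e2, div_pow, div_pow, mul_pow, show A + B + 2 = A + B + 1 + 1 by ring, pow_succ (1 + _),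
    pow_succ (1 + _) (A + B), pow_add (1 + _) A B, pow_succ 2 A]
  field_simp

lemma KK_zero (B : ℕ) : KK 0 B = ((B : ℝ) + 2) / (((B : ℝ) + 1) * ((B : ℝ) + 3)) := by
  rw [KK_eq]
  have e : ∀ t : ℝ, (1 - t ^ 2) ^ 0 * t ^ B * (1 + t ^ 2) / 2 ^ (0 + 1) =
      t ^ B / 2 + t ^ (B + 2) / 2 := by intro t; ring
  simp_rw [e]
  rw [intervalIntegral.integral_add (Continuous.intervalIntegrable (by fun_prop) _ _)
    (Continuous.intervalIntegrable (by fun_prop) _ _), intervalIntegral.integral_div,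
    intervalIntegral.integral_div, integral_pow, integral_pow]
  push_cast
  simp only [one_pow, ne_eq, Nat.add_eq_zero_iff, OfNat.ofNat_ne_zero, one_ne_zero, and_false,
    not_false_eq_true, zero_pow, sub_zero]
  field_simp
  ring

lemma KK_two (B : ℕ) : KK 2 B = 2 * ((B : ℝ) + 4) /
    (((B : ℝ) + 1) * ((B : ℝ) + 3) * ((B : ℝ) + 5) * ((B : ℝ) + 7)) := by
  rw [KK_eq]
  have e : ∀ t : ℝ, (1 - t ^ 2) ^ 2 * t ^ B * (1 + t ^ 2) / 2 ^ (2 + 1) =
      t ^ B / 8 - t ^ (B + 2) / 8 - (t ^ (B + 4) / 8 - t ^ (B + 6) / 8) := by intro t; ring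
  simp_rw [e]
  rw [intervalIntegral.integral_sub (Continuous.intervalIntegrable (by fun_prop) _ _)
    (Continuous.intervalIntegrable (by fun_prop) _ _),
    intervalIntegral.integral_sub (Continuous.intervalIntegrable (by fun_prop) _ _)
    (Continuous.intervalIntegrable (by fun_prop) _ _),
    intervalIntegral.integral_sub (Continuous.intervalIntegrable (by fun_prop) _ _)
    (Continuous.intervalIntegrable (by fun_prop) _ _), intervalIntegral.integral_div,
    intervalIntegral.integral_div, intervalIntegral.integral_div, intervalIntegral.integral_div,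
    integral_pow, integral_pow, integral_pow, integral_pow]
  push_cast
  simp only [one_pow, ne_eq, Nat.add_eq_zero_iff, OfNat.ofNat_ne_zero, one_ne_zero, and_false,
    not_false_eq_true, zero_pow, sub_zero]
  field_simp
  ring

/-- the constants match -/
lemma const_idK (A B : ℕ) (hA : A = 0 ∨ A = 2) :
    π * KK A B / (((A : ℝ) + B + 2) * ((A : ℝ) + B + 3)) =
    2 * ((∫ x in (0 : ℝ)..1, √(1 - x ^ 2) * x ^ B) * SC A (B + 3)) * SC (A + B + 2) (A + 1) := by
  rw [Rot.TE.B_eq B]
  have hW := TI.SC_zero_pair B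
  set W := ∫ x in (0 : ℝ)..(π / 2), Real.sin x ^ B with hWdef
  have h1 := TI.SC_right 0 (B + 1)
  rw [show B + 1 + 2 = B + 3 by ring] at h1
  have h3 : W * SC 0 (B + 3) = ((B : ℝ) + 2) / ((B : ℝ) + 3) * (π / (2 * ((B : ℝ) + 1))) := by
    rw [← hW]
    have h2 : SC 0 (B + 3) = ((B : ℝ) + 2) / ((B : ℝ) + 3) * SC 0 (B + 1) := by
      push_cast at h1
      field_simp
      linarith
    rw [h2]
    ring
  rcases hA with rfl | rfl
  · rw [KK_zero, SC_symm (0 + B + 2) (0 + 1), show 0 + 1 = 1 by rfl, TI.SC_one]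
    have e : 2 * (1 / ((B : ℝ) + 2) * W * SC 0 (B + 3)) = 2 / ((B : ℝ) + 2) * (W * SC 0 (B + 3)) := by
      ring
    rw [e, h3]
    push_cast
    field_simp
    ring
  · have h4 := TI.SC_left 0 (B + 3)
    have h5 := TI.SC_left 1 (B + 4)
    rw [TI.SC_one] at h5
    rw [KK_two, SC_symm (2 + B + 2) (2 + 1)]
    have h4' : SC 2 (B + 3) = SC 0 (B + 3) / ((B : ℝ) + 5) := by
      push_cast at h4
      field_simp
      linarith
    have h5' : SC (2 + 1) (2 + B + 2) = 2 / (((B : ℝ) + 5) * ((B : ℝ) + 7)) := by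
      rw [show 2 + 1 = 1 + 2 by rfl, show 2 + B + 2 = B + 4 by ring]
      push_cast at h5
      have h6 : ((B : ℝ) + 7) * SC (1 + 2) (B + 4) = 2 / ((B : ℝ) + 5) := by
        have e1 : (1 : ℝ) + (↑B + 4) + 2 = B + 7 := by ring
        have e2 : ((1 : ℝ) + 1) * (1 / (↑B + 4 + 1)) = 2 / (B + 5) := by ring
        rw [e1, e2] at h5
        exact h5
      field_simp
      field_simp at h6
      linarith
    rw [h5', h4']
    have e : 2 * (1 / ((B : ℝ) + 2) * W * (SC 0 (B + 3) / ((B : ℝ) + 5))) =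
        2 / (((B : ℝ) + 2) * ((B : ℝ) + 5)) * (W * SC 0 (B + 3)) := by
      field_simp
    rw [e, h3]
    push_cast
    field_simp
    ring

lemma KD_measurable (R : ℝ) : MeasurableSet (KD R) := (isOpen_KD R).measurableSet

lemma KD_subset (R : ℝ) : KD R ⊆ Ioi (0 : ℝ) ×ˢ Ioi (0 : ℝ) := fun _ hc => ⟨hc.1, hc.2.1⟩

lemma KD_subset_Icc (R : ℝ) : KD R ⊆ Icc (0 : ℝ) R ×ˢ Icc (0 : ℝ) R := fun c hc => by
  obtain ⟨h1, h2, h3⟩ := hc
  have h4 := nn_sq c
  have h5 := nn_nonneg c
  have h6 : nn c < R := by unfold ll at h3; linarith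
  refine ⟨⟨h1.le, ?_⟩, ⟨h2.le, ?_⟩⟩
  · nlinarith [sq_nonneg c.2]
  · nlinarith [sq_nonneg c.1]

lemma ggK_le {F H R : ℝ} (hF : 0 < F) (hH : 0 < H) (a b : ℕ) :
    ∫ c in KD R, gg F H a b c ≤
      F ^ (a + 1) * H ^ (b + 1) * ((∫ x in (0 : ℝ)..1, √(1 - x ^ 2) * x ^ b) * SC a (b + 3)) := by
  rw [← gg_integral hF hH]
  apply setIntegral_mono_set (gg_integrable hF hH a b)
  · filter_upwards [ae_restrict_mem (measurableSet_Ioi.prod measurableSet_Ioi)] with c hc
    exact gg_nonneg a b hc.1 hc.2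
  · exact (KD_subset R).eventuallyLE

lemma ggK_lt {F H R : ℝ} (hF : 0 < F) (hH : 0 < H) (hR : 0 < R) (hRF : R < 2 * F) (a b : ℕ) :
    ∫ c in KD R, gg F H a b c <
      F ^ (a + 1) * H ^ (b + 1) * ((∫ x in (0 : ℝ)..1, √(1 - x ^ 2) * x ^ b) * SC a (b + 3)) := by
  rw [← gg_integral hF hH]
  set Q : Set (ℝ × ℝ) := Ioi (0 : ℝ) ×ˢ Ioi (0 : ℝ) with hQ
  have hi := gg_integrable hF hH a b
  have hQm : MeasurableSet Q := measurableSet_Ioi.prod measurableSet_Ioi
  have h1 : ∫ c in Q, gg F H a b c = (∫ c in Q \ KD R, gg F H a b c) + ∫ c in KD R, gg F H a b c := by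
    rw [← setIntegral_union disjoint_sdiff_left (KD_measurable R) (hi.mono_set sdiff_subset)
      (hi.mono_set (KD_subset R)), sdiff_union_of_subset (KD_subset R)]
  rw [h1]
  have h2 : 0 < ∫ c in Q \ KD R, gg F H a b c := by
    rw [setIntegral_pos_iff_support_of_nonneg_ae]
    · -- an open set in the support
      set U : Set (ℝ × ℝ) := {c | R / 2 < c.1 ∧ 0 < c.2 ∧ (c.1 / F) ^ 2 + (c.2 / H) ^ 2 < 1} with hU
      have hUo : IsOpen U := by
        have o1 : IsOpen {c : ℝ × ℝ | R / 2 < c.1} := isOpen_lt continuous_const continuous_fst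
        have o2 : IsOpen {c : ℝ × ℝ | 0 < c.2} := isOpen_lt continuous_const continuous_snd
        have o3 : IsOpen {c : ℝ × ℝ | (c.1 / F) ^ 2 + (c.2 / H) ^ 2 < 1} :=
          isOpen_lt (by fun_prop) continuous_const
        exact o1.inter (o2.inter o3)
      have hUn : U.Nonempty := by
        set x := (R / 2 + F) / 2 with hx
        have hx1 : R / 2 < x := by rw [hx]; linarith
        have hx2 : x < F := by rw [hx]; linarith
        have hx0 : 0 < x := by linarith
        have hxF : (x / F) ^ 2 < 1 := by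
          have h3 : x / F < 1 := by rwa [div_lt_one hF]
          have h4 : 0 < x / F := by positivity
          nlinarith
        set δ := 1 - (x / F) ^ 2 with hδ
        have hδ0 : 0 < δ := by rw [hδ]; linarith
        have hδ1 : δ ≤ 1 := by rw [hδ]; nlinarith [sq_nonneg (x / F)]
        refine ⟨(x, H * (δ / 2)), hx1, by positivity, ?_⟩
        simp only
        have h5 : H * (δ / 2) / H = δ / 2 := by field_simp
        rw [h5]
        nlinarith
      refine (hUo.measure_pos volume hUn).trans_le (measure_mono ?_)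
      intro c hc
      have hc0 := hc.1
      have hc1 : 0 < c.1 := by linarith
      refine ⟨?_, ⟨⟨hc1, hc.2.1⟩, fun h => ?_⟩⟩
      · rw [Function.mem_support]
        unfold gg
        have h6 : 0 < √(1 - ((c.1 / F) ^ 2 + (c.2 / H) ^ 2)) := Real.sqrt_pos.2 (by linarith [hc.2.2])
        have h7 : 0 < c.1 ^ a * c.2 ^ b := mul_pos (pow_pos hc1 a) (pow_pos hc.2.1 b)
        positivity
      · have h8 := h.2.2
        have h9 := two_fst_le c
        linarith
    · filter_upwards [ae_restrict_mem (hQm.diff (KD_measurable R))] with c hc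
      exact gg_nonneg a b hc.1.1 hc.1.2
    · exact hi.mono_set sdiff_subset
  linarith

lemma ll_polar {ρ θ : ℝ} (hρ : 0 ≤ ρ) : ll (ρ * cos θ, ρ * sin θ) = ρ * (1 + cos θ) := by
  unfold ll
  rw [nn_polar hρ]
  ring

lemma lower_intK {R : ℝ} (hR : 0 < R) (a b : ℕ) :
    ∫ c in KD R, π * (R - ll c) * (c.1 ^ a * c.2 ^ b) =
      π * KK a b * (R ^ (a + b + 3) / (((a : ℝ) + b + 2) * ((a : ℝ) + b + 3))) := by
  have hπ := Real.pi_pos
  rw [← integral_indicator (KD_measurable R), ← integral_comp_polarCoord_symm, polarCoord_target]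
  set g : ℝ × ℝ → ℝ := fun c => π * (R - ll c) * (c.1 ^ a * c.2 ^ b) with hg
  set A : Set (ℝ × ℝ) := Ioo (0 : ℝ) R ×ˢ Ioo (0 : ℝ) (π / 2) with hA
  set D : Set (ℝ × ℝ) := {x | x.1 * (1 + cos x.2) < R} with hD
  have hDm : MeasurableSet D := (isOpen_lt (by fun_prop) continuous_const).measurableSet
  set g2 : ℝ × ℝ → ℝ := fun x =>
    (π * ((R - x.1 * (1 + cos x.2)) * x.1 ^ (a + b + 1))) * (cos x.2 ^ a * sin x.2 ^ b) with hg2
  have hg2c : Continuous g2 := by fun_prop
  have hsub : A ⊆ Ioi (0 : ℝ) ×ˢ Ioo (-π) π := by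
    rintro x ⟨⟨h1, h2⟩, ⟨h3, h4⟩⟩
    exact ⟨h1, by constructor <;> linarith⟩
  have e1 : ∫ x in Ioi (0 : ℝ) ×ˢ Ioo (-π) π, x.1 • (KD R).indicator g (polarCoord.symm x) =
      ∫ x in A, x.1 • (KD R).indicator g (polarCoord.symm x) := by
    refine setIntegral_eq_of_subset_of_forall_sdiff_eq_zero
      (measurableSet_Ioi.prod measurableSet_Ioo) hsub ?_
    rintro x ⟨⟨h1, h2, h3⟩, h4⟩
    have h1' : 0 < x.1 := h1
    rw [indicator_of_notMem, smul_zero]
    intro h5
    apply h4
    obtain ⟨h6, h7, h8⟩ := h5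
    simp only [polarCoord_symm_apply] at h6 h7 h8
    rw [ll_polar h1'.le] at h8
    have hs : 0 < sin x.2 := pos_of_mul_pos_right h7 h1'.le
    have hc : 0 < cos x.2 := pos_of_mul_pos_right h6 h1'.le
    refine ⟨⟨h1, by nlinarith⟩, ?_, ?_⟩
    · by_contra hcon
      have := Real.sin_nonpos_of_nonpos_of_neg_pi_le (not_lt.1 hcon) h2.le
      linarith
    · by_contra hcon
      have := Real.cos_nonpos_of_pi_div_two_le_of_le (not_lt.1 hcon) (by linarith)
      linarith
  rw [e1]
  have e2 : ∫ x in A, x.1 • (KD R).indicator g (polarCoord.symm x) =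
      ∫ x in A, D.indicator g2 x := by
    refine setIntegral_congr_fun (measurableSet_Ioo.prod measurableSet_Ioo) ?_
    rintro x ⟨⟨h1, h2⟩, ⟨h3, h4⟩⟩
    have hs : 0 < sin x.2 := Real.sin_pos_of_pos_of_lt_pi h3 (by linarith)
    have hc : 0 < cos x.2 := Real.cos_pos_of_mem_Ioo ⟨by linarith, h4⟩
    simp only
    by_cases hx : x ∈ D
    · have hmem : polarCoord.symm x ∈ KD R := by
        simp only [polarCoord_symm_apply]
        refine ⟨mul_pos h1 hc, mul_pos h1 hs, ?_⟩
        rw [ll_polar h1.le]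
        exact hx
      rw [indicator_of_mem hmem, indicator_of_mem hx, hg, hg2]
      simp only [polarCoord_symm_apply]
      rw [ll_polar h1.le, smul_eq_mul]
      ring
    · have hmem : polarCoord.symm x ∉ KD R := by
        intro h5
        apply hx
        have h8 := h5.2.2
        simp only [polarCoord_symm_apply] at h8
        rw [ll_polar h1.le] at h8
        exact h8
      rw [indicator_of_notMem hmem, indicator_of_notMem hx, smul_zero]
  rw [e2, hA, Measure.volume_eq_prod, ← Measure.prod_restrict]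
  have hint : Integrable (D.indicator g2)
      ((volume.restrict (Ioo 0 R)).prod (volume.restrict (Ioo 0 (π / 2)))) := by
    rw [Measure.prod_restrict, ← Measure.volume_eq_prod]
    have h1 : IntegrableOn g2 (Icc 0 R ×ˢ Icc 0 (π / 2)) :=
      hg2c.continuousOn.integrableOn_compact (isCompact_Icc.prod isCompact_Icc)
    exact (h1.mono_set (prod_mono Ioo_subset_Icc_self Ioo_subset_Icc_self)).indicator hDm
  rw [integral_prod_symm _ hint]
  have e3 : ∀ θ ∈ Ioo (0 : ℝ) (π / 2), ∫ ρ in Ioo 0 R, D.indicator g2 (ρ, θ) =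
      π * (R ^ (a + b + 3) / (((a : ℝ) + b + 2) * ((a : ℝ) + b + 3))) *
        (cos θ ^ a * sin θ ^ b / (1 + cos θ) ^ (a + b + 2)) := by
    intro θ hθ
    have hc : 0 < cos θ := Real.cos_pos_of_mem_Ioo ⟨by linarith [hθ.1], hθ.2⟩
    have hk : 0 < 1 + cos θ := by linarith
    set k := 1 + cos θ with hkdef
    have hRk : R / k ≤ R := by
      rw [div_le_iff₀ hk]
      nlinarith
    have hRk0 : 0 < R / k := div_pos hR hk
    have h1 : ∫ ρ in Ioo 0 R, D.indicator g2 (ρ, θ) = ∫ ρ in Ioo 0 (R / k), g2 (ρ, θ) := by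
      have h2 : ∀ ρ, D.indicator g2 (ρ, θ) = (Iio (R / k)).indicator (fun ρ => g2 (ρ, θ)) ρ := by
        intro ρ
        by_cases h3 : (ρ, θ) ∈ D
        · have h4 : ρ ∈ Iio (R / k) := by
            rw [mem_Iio, lt_div_iff₀ hk]
            exact h3
          rw [indicator_of_mem h3, indicator_of_mem h4]
        · have h4 : ρ ∉ Iio (R / k) := by
            rw [mem_Iio, lt_div_iff₀ hk]
            exact h3
          rw [indicator_of_notMem h3, indicator_of_notMem h4]
      simp_rw [h2]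
      rw [setIntegral_indicator measurableSet_Iio]
      congr 2
      ext x
      simp only [mem_inter_iff, mem_Ioo, mem_Iio]
      constructor
      · rintro ⟨⟨g1, g2⟩, g3⟩
        exact ⟨g1, g3⟩
      · rintro ⟨g1, g2⟩
        exact ⟨⟨g1, g2.trans_le hRk⟩, g2⟩
    rw [h1, ← integral_Ioc_eq_integral_Ioo, ← intervalIntegral.integral_of_le hRk0.le]
    simp only [hg2]
    rw [← hkdef, intervalIntegral.integral_mul_const, intervalIntegral.integral_const_mul]
    have h4 : ∀ ρ : ℝ, (R - ρ * k) * ρ ^ (a + b + 1) = R * ρ ^ (a + b + 1) - k * ρ ^ (a + b + 2) := by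
      intro ρ; ring
    simp_rw [h4]
    rw [intervalIntegral.integral_sub (Continuous.intervalIntegrable (by fun_prop) _ _)
      (Continuous.intervalIntegrable (by fun_prop) _ _), intervalIntegral.integral_const_mul,
      intervalIntegral.integral_const_mul, integral_pow, integral_pow]
    have h5 : (0 : ℝ) ^ (a + b + 1 + 1) = 0 := by simp
    have h6 : (0 : ℝ) ^ (a + b + 2 + 1) = 0 := by simp
    rw [h5, h6, div_pow, div_pow]
    push_cast
    have e5 : k ^ (a + b + 2 + 1) = k ^ (a + b + 2) * k := pow_succ _ _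
    have e6 : k ^ (a + b + 1 + 1) = k ^ (a + b + 2) := rfl
    have e7 : R ^ (a + b + 3) = R ^ (a + b + 2) * R := pow_succ _ _
    have e8 : R ^ (a + b + 2 + 1) = R ^ (a + b + 2) * R := pow_succ _ _
    have e9 : R ^ (a + b + 1 + 1) = R ^ (a + b + 2) := rfl
    rw [e5, e6, e7, e9]
    have hk' := hk.ne'
    have : k ^ (a + b + 2) ≠ 0 := pow_ne_zero _ hk'
    field_simp
    ring
  rw [setIntegral_congr_fun measurableSet_Ioo e3, integral_const_mul,
    ← integral_Ioc_eq_integral_Ioo, ← intervalIntegral.integral_of_le (by positivity)]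
  unfold KK
  ring

theorem volK {L R s : ℝ} {f h : ℝ → ℝ} (H : SP L R s f h) (a b : ℕ) (hab : a = 0 ∨ a = 2)
    (hA : ∀ c ∈ KD R, π * (R - ll c) ≤ 2 * ∫ r in Ioo 0 L, √(1 - Veff f h c.1 c.2 r)) :
    R ^ (a + b + 3) * (∫ t in (0 : ℝ)..π / 2, Real.sin t ^ (a + b + 2) * Real.cos t ^ (a + 1)) <
      ∫ r in (0 : ℝ)..L, f r ^ (a + 1) * h r ^ (b + 1) := by
  have hK := H.kq
  have hR := H.R0
  have hfc : Continuous f := hK.sf.continuous
  have hhc : Continuous h := hK.sh.continuous
  have hfm : Measurable f := hfc.measurable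
  have hhm : Measurable h := hhc.measurable
  set J1 := ∫ x in (0 : ℝ)..1, √(1 - x ^ 2) * x ^ b with hJ1
  set K := J1 * SC a (b + 3) with hKdef
  have hSdef : ∫ t in (0 : ℝ)..π / 2, Real.sin t ^ (a + b + 2) * Real.cos t ^ (a + 1) =
    SC (a + b + 2) (a + 1) := rfl
  rw [hSdef]
  set S := SC (a + b + 2) (a + 1) with hS
  set μ : Measure ℝ := volume.restrict (Ioo 0 L) with hμ
  set ν : Measure (ℝ × ℝ) := volume.restrict (KD R) with hν
  have hTfin : volume (KD R) ≠ ⊤ := by
    have h1 : volume (Icc (0 : ℝ) R ×ˢ Icc (0 : ℝ) R) < ⊤ :=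
      (isCompact_Icc.prod isCompact_Icc).measure_lt_top
    exact ((measure_mono (KD_subset_Icc R)).trans_lt h1).ne
  have : IsFiniteMeasure ν := ⟨by rw [hν, Measure.restrict_apply_univ]; exact lt_top_iff_ne_top.2 hTfin⟩
  have : IsFiniteMeasure μ := ⟨by rw [hμ, Measure.restrict_apply_univ]; simp⟩
  have hmeas : Measurable (fun p : ℝ × (ℝ × ℝ) => gg (f p.1) (h p.1) a b p.2) := by
    unfold gg
    fun_prop
  have hint : Integrable (fun p : ℝ × (ℝ × ℝ) => gg (f p.1) (h p.1) a b p.2) (μ.prod ν) := by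
    have hb : ∀ᵐ p ∂(μ.prod ν), ‖gg (f p.1) (h p.1) a b p.2‖ ≤ R ^ a * R ^ b := by
      have e : μ.prod ν = (volume.prod volume).restrict (Ioo 0 L ×ˢ KD R) := by
        rw [hμ, hν, Measure.prod_restrict]
      rw [e]
      filter_upwards [ae_restrict_mem (measurableSet_Ioo.prod (KD_measurable R))] with p hp
      have h1 := (KD_subset_Icc R) hp.2
      exact gg_bound a b hp.2.1 hp.2.2.1 h1.1.2 h1.2.2
    exact Integrable.of_bound hmeas.aestronglyMeasurable _ hb
  have hswap := integral_integral_swap (f := fun r c => gg (f r) (h r) a b c) (μ := μ) (ν := ν) hint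
  have hact : ∀ c : ℝ × ℝ, (2 * ∫ r in Ioo 0 L, √(1 - Veff f h c.1 c.2 r)) * (c.1 ^ a * c.2 ^ b) =
      2 * ∫ r, gg (f r) (h r) a b c ∂μ := by
    intro c
    rw [mul_assoc, ← integral_mul_const]
    rfl
  have h1 : π * KK a b * (R ^ (a + b + 3) / (((a : ℝ) + b + 2) * ((a : ℝ) + b + 3))) ≤
      2 * ∫ c, ∫ r, gg (f r) (h r) a b c ∂μ ∂ν := by
    rw [← lower_intK hR, ← integral_const_mul]
    apply setIntegral_mono_on _ _ (KD_measurable R)
    · intro c hc
      rw [← hact]
      apply mul_le_mul_of_nonneg_right (hA c hc)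
      have := hc.1
      have := hc.2.1
      positivity
    · have h2 : IntegrableOn (fun c : ℝ × ℝ => π * (R - ll c) * (c.1 ^ a * c.2 ^ b))
          (Icc (0 : ℝ) R ×ˢ Icc (0 : ℝ) R) :=
        (Continuous.continuousOn (by
          have := ll_cont
          fun_prop)).integrableOn_compact (isCompact_Icc.prod isCompact_Icc)
      exact h2.mono_set (KD_subset_Icc R)
    · exact (hint.integral_prod_right).const_mul 2
  rw [← hswap] at h1
  have hIm : Integrable (fun r => ∫ c, gg (f r) (h r) a b c ∂ν) μ := hint.integral_prod_left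
  have hfi : Integrable (fun r => f r ^ (a + 1) * h r ^ (b + 1) * K) μ := by
    have h3 : IntegrableOn (fun r => f r ^ (a + 1) * h r ^ (b + 1) * K) (Icc 0 L) :=
      (Continuous.continuousOn (by fun_prop)).integrableOn_Icc
    exact h3.mono_set Ioo_subset_Icc_self
  have h3 : ∫ r, ∫ c, gg (f r) (h r) a b c ∂ν ∂μ < ∫ r, f r ^ (a + 1) * h r ^ (b + 1) * K ∂μ := by
    rw [← sub_pos, ← integral_sub hfi hIm]
    rw [integral_pos_iff_support_of_nonneg_ae]
    · have hopen : IsOpen (Ioo 0 L ∩ {r | R < 2 * f r}) :=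
        isOpen_Ioo.inter (isOpen_lt continuous_const (by fun_prop))
      have hpos : 0 < volume (Ioo 0 L ∩ {r | R < 2 * f r}) :=
        hopen.measure_pos volume ⟨s, ⟨H.s0, H.sL⟩, H.as⟩
      have hμpos : 0 < μ (Ioo 0 L ∩ {r | R < 2 * f r}) := by
        rw [hμ, Measure.restrict_apply hopen.measurableSet]
        have : Ioo 0 L ∩ {r | R < 2 * f r} ∩ Ioo 0 L = Ioo 0 L ∩ {r | R < 2 * f r} := by
          ext x; simp; tauto
        rwa [this]
      refine hμpos.trans_le (measure_mono ?_)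
      intro r hr
      rw [Function.mem_support]
      have h5 := ggK_lt (hK.fpos r hr.1.1 hr.1.2) (hK.hpos r hr.1.1 hr.1.2) hR hr.2 a b
      exact (sub_pos.mpr h5).ne'
    · have hae : ∀ᵐ r ∂μ, r ∈ Ioo 0 L := ae_restrict_mem measurableSet_Ioo
      filter_upwards [hae] with r hr
      have h5 := ggK_le (R := R) (hK.fpos r hr.1 hr.2) (hK.hpos r hr.1 hr.2) a b
      simp only [Pi.zero_apply]
      exact sub_nonneg.2 h5
    · exact hfi.sub hIm
  have h4 : ∫ r, f r ^ (a + 1) * h r ^ (b + 1) * K ∂μ = K * ∫ r in (0 : ℝ)..L, f r ^ (a + 1) * h r ^ (b + 1) := by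
    rw [integral_mul_const, intervalIntegral.integral_of_le hK.pos.le, hμ,
      integral_Ioc_eq_integral_Ioo, mul_comm]
  have hid := const_idK a b hab
  rw [← hJ1, ← hKdef, ← hS] at hid
  have hSpos : ∀ p q : ℕ, 0 < SC p q := by
    intro p q
    apply intervalIntegral.intervalIntegral_pos_of_pos_on
      (Continuous.intervalIntegrable (by fun_prop) _ _) _ (by positivity)
    intro x hx
    have h5 := Real.sin_pos_of_pos_of_lt_pi hx.1 (by linarith [hx.2, Real.pi_pos])
    have h6 : 0 < Real.cos x := Real.cos_pos_of_mem_Ioo ⟨by linarith [hx.1, Real.pi_pos], hx.2⟩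
    positivity
  have hWpos : 0 < ∫ x in (0 : ℝ)..(π / 2), Real.sin x ^ b := by
    have := hSpos b 0
    unfold SC at this
    simpa using this
  have hKpos : 0 < K := by
    have hB : J1 = (1 / ((b : ℝ) + 2)) * ∫ x in (0 : ℝ)..(π / 2), Real.sin x ^ b := Rot.TE.B_eq b
    rw [hKdef, hB]
    have := hSpos a (b + 3)
    positivity
  have h6 : π * KK a b * (R ^ (a + b + 3) / (((a : ℝ) + b + 2) * ((a : ℝ) + b + 3))) =
      2 * K * (R ^ (a + b + 3) * S) := by
    calc _ = R ^ (a + b + 3) * (π * KK a b / (((a : ℝ) + b + 2) * ((a : ℝ) + b + 3))) := by ring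
      _ = R ^ (a + b + 3) * (2 * K * S) := by rw [hid]
      _ = _ := by ring
  rw [h6] at h1
  rw [h4] at h3
  have h7 : 2 * K * (R ^ (a + b + 3) * S) <
      2 * K * ∫ r in (0 : ℝ)..L, f r ^ (a + 1) * h r ^ (b + 1) := by
    calc _ ≤ _ := h1
      _ < 2 * (K * ∫ r in (0 : ℝ)..L, f r ^ (a + 1) * h r ^ (b + 1)) := by linarith
      _ = _ := by ring
  exact lt_of_mul_lt_mul_left h7 (by positivity)

end Pool.Agent.L7h84.KP
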