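import Pool.Agent.L7h84.KP.Sel
import Pool.Agent.L7h84.CL.Main

/-! # Essential wells -/

open Real Set MeasureTheory Filter Topology
open scoped ContDiff

namespace Pool.Agent.L7h84.KP

open Pool.Agent.H206R2 Pool.Agent.H206R2.Rot2 Pool.Agent.L7h84.CL.Mn

/-- What is needed of the two functions. -/
structure KQ (L : ℝ) (f h : ℝ → ℝ) : Prop where
  pos : 0 < L
  sf : ContDiff ℝ ∞ f
  sh : ContDiff ℝ ∞ h
  fpos : ∀ r, 0 < r → r < L → 0 < f r
  hpos : ∀ r, 0 < r → r < L → 0 < h r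

section
variable {L : ℝ} {f h : ℝ → ℝ} (hf : KQ L f h)
include hf

theorem KQ.cont_V {c₁ c₂ : ℝ} : ContinuousOn (Veff f h c₁ c₂) (Ioo 0 L) := by
  unfold Veff
  intro r hr
  have h1 : f r ≠ 0 := (hf.fpos r hr.1 hr.2).ne'
  have h2 : h r ≠ 0 := (hf.hpos r hr.1 hr.2).ne'
  have e1 : ContinuousAt f r := hf.sf.continuous.continuousAt
  have e2 : ContinuousAt h r := hf.sh.continuous.continuousAt
  exact (((continuousAt_const.div e1 h1).pow 2).add
    ((continuousAt_const.div e2 h2).pow 2)).continuousWithinAt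

theorem KQ.meas (c₁ c₂ : ℝ) : Measurable (fun r => √(1 - Veff f h c₁ c₂ r)) := by
  unfold Veff
  have m1 : Measurable f := hf.sf.continuous.measurable
  have m2 : Measurable h := hf.sh.continuous.measurable
  exact (measurable_const.sub (((measurable_const.div m1).pow_const 2).add
    ((measurable_const.div m2).pow_const 2))).sqrt

theorem KQ.intOn (c₁ c₂ : ℝ) {A : Set ℝ}
    (hA : volume A < ⊤) : IntegrableOn (fun r => √(1 - Veff f h c₁ c₂ r)) A := by
  refine Measure.integrableOn_of_bounded (M := 1) hA.ne (hf.meas c₁ c₂).aestronglyMeasurable ?_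
  refine Eventually.of_forall fun r => ?_
  rw [Real.norm_of_nonneg (Real.sqrt_nonneg _)]
  exact bd c₁ c₂ r

/-- joint continuity of the potential -/
theorem KQ.cont_joint {c₀ : ℝ × ℝ} {r : ℝ} (h0 : 0 < r) (hL : r < L) :
    ContinuousAt (fun z : (ℝ × ℝ) × ℝ => Veff f h z.1.1 z.1.2 z.2) (c₀, r) := by
  have h1 : f r ≠ 0 := (hf.fpos r h0 hL).ne'
  have h2 : h r ≠ 0 := (hf.hpos r h0 hL).ne'
  have e1 : ContinuousAt (fun z : (ℝ × ℝ) × ℝ => f z.2) (c₀, r) :=
    (hf.sf.continuous.comp continuous_snd).continuousAt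
  have e2 : ContinuousAt (fun z : (ℝ × ℝ) × ℝ => h z.2) (c₀, r) :=
    (hf.sh.continuous.comp continuous_snd).continuousAt
  have e3 : ContinuousAt (fun z : (ℝ × ℝ) × ℝ => z.1.1) (c₀, r) :=
    (continuous_fst.comp continuous_fst).continuousAt
  have e4 : ContinuousAt (fun z : (ℝ × ℝ) × ℝ => z.1.2) (c₀, r) :=
    (continuous_snd.comp continuous_fst).continuousAt
  unfold Veff
  exact ((e3.div e1 h1).pow 2).add ((e4.div e2 h2).pow 2)

theorem KQ.ev_lt {c₀ : ℝ × ℝ} {x y : ℝ}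
    (hx : 0 < x) (hy : y < L) (hV : ∀ r ∈ Icc x y, Veff f h c₀.1 c₀.2 r < 1) :
    ∀ᶠ c : ℝ × ℝ in 𝓝 c₀, ∀ r ∈ Icc x y, Veff f h c.1 c.2 r < 1 := by
  refine isCompact_Icc.eventually_forall_of_forall_eventually
    (P := fun (c : ℝ × ℝ) (r : ℝ) => Veff f h c.1 c.2 r < 1) ?_
  intro r hr
  exact (hf.cont_joint (lt_of_lt_of_le hx hr.1) (lt_of_le_of_lt hr.2 hy)).eventually
    (eventually_lt_nhds (hV r hr))

theorem KQ.tendsto_int {c₀ : ℝ × ℝ}
    {c : ℕ → ℝ × ℝ} (hc : Tendsto c atTop (𝓝 c₀)) (x y : ℝ) :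
    Tendsto (fun n => ∫ r in Icc x y, √(1 - Veff f h (c n).1 (c n).2 r)) atTop
      (𝓝 (∫ r in Icc x y, √(1 - Veff f h c₀.1 c₀.2 r))) := by
  refine tendsto_integral_of_dominated_convergence (fun _ => (1 : ℝ)) ?_ ?_ ?_ ?_
  · intro n; exact (hf.meas _ _).aestronglyMeasurable
  · exact (integrableOn_const measure_Icc_lt_top.ne : IntegrableOn (fun _ => (1 : ℝ)) (Icc x y))
  · intro n
    refine Eventually.of_forall fun r => ?_
    rw [Real.norm_of_nonneg (Real.sqrt_nonneg _)]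
    exact bd _ _ r
  · refine Eventually.of_forall fun r => ?_
    unfold Veff
    have e1 : Tendsto (fun n => (c n).1) atTop (𝓝 c₀.1) := (continuous_fst.tendsto c₀).comp hc
    have e2 : Tendsto (fun n => (c n).2) atTop (𝓝 c₀.2) := (continuous_snd.tendsto c₀).comp hc
    exact (tendsto_const_nhds.sub (((e1.div_const _).pow 2).add ((e2.div_const _).pow 2))).sqrt

/-- Truncating the interval of integration changes the integral by at most the length. -/
theorem KQ.trunc (c₁ c₂ : ℝ) {p x y q : ℝ}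
    (hpx : p ≤ x) (hxy : x ≤ y) (hyq : y ≤ q) :
    ∫ r in Ioo p q, √(1 - Veff f h c₁ c₂ r) ≤
      (∫ r in Icc x y, √(1 - Veff f h c₁ c₂ r)) + (x - p) + (q - y) := by
  rw [← integral_Ioc_eq_integral_Ioo, integral_Icc_eq_integral_Ioc,
    ← intervalIntegral.integral_of_le (hpx.trans (hxy.trans hyq)),
    ← intervalIntegral.integral_of_le hxy]
  have hi : ∀ u v : ℝ, IntervalIntegrable (fun r => √(1 - Veff f h c₁ c₂ r)) volume u v := by
    intro u v
    rw [intervalIntegrable_iff]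
    exact hf.intOn c₁ c₂ (by rw [uIoc]; exact measure_Ioc_lt_top)
  have hb : ∀ u v : ℝ, u ≤ v → ∫ r in u..v, √(1 - Veff f h c₁ c₂ r) ≤ v - u := by
    intro u v huv
    have := intervalIntegral.integral_mono_on huv (hi u v)
      (intervalIntegrable_const (c := (1 : ℝ))) (fun r _ => bd c₁ c₂ r)
    simpa using this
  rw [← intervalIntegral.integral_add_adjacent_intervals (hi p y) (hi y q),
    ← intervalIntegral.integral_add_adjacent_intervals (hi p x) (hi x y)]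
  have := hb p x hpx
  have := hb y q hyq
  linarith

end

/-- the form of a well -/
lemma well_eq {L : ℝ} {V : ℝ → ℝ} {p q s : ℝ} (hp : 0 < p) (hps : p < s) (hsq : s < q) (hq : q < L)
    (hVp : 1 ≤ V p) (hVq : 1 ≤ V q) (hin : ∀ x ∈ Ioo p q, V x < 1) : well L V s = Ioo p q := by
  ext r
  constructor
  · intro hr
    have hr' : ∀ x ∈ uIcc s r, 0 < x ∧ x < L ∧ V x < 1 := hr
    constructor
    · by_contra hcon
      push Not at hcon
      have : p ∈ uIcc s r := by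
        rw [uIcc_of_ge (by linarith)]; exact ⟨hcon, hps.le⟩
      have := (hr' p this).2.2
      linarith
    · by_contra hcon
      push Not at hcon
      have : q ∈ uIcc s r := by
        rw [uIcc_of_le (by linarith)]; exact ⟨hsq.le, hcon⟩
      have := (hr' q this).2.2
      linarith
  · intro hr x hx
    have hx' : x ∈ Ioo p q :=
      (ordConnected_Ioo.uIcc_subset ⟨hps, hsq⟩ hr) hx
    exact ⟨hp.trans hx'.1, hx'.2.trans hq, hin x hx'⟩

/-- A well across which `g` changes its sign. -/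
lemma exists_ess {V g : ℝ → ℝ} {u v : ℝ} (huv : u ≤ v) (hV : ContinuousOn V (Icc u v))
    (hg : ContinuousOn g (Icc u v)) (hVu : 1 ≤ V u) (hVv : 1 ≤ V v) (hgu : 0 < g u) (hgv : g v < 0)
    (hne : ∀ x ∈ Icc u v, 1 ≤ V x → g x ≠ 0) :
    ∃ p q, u ≤ p ∧ p < q ∧ q ≤ v ∧ V p = 1 ∧ V q = 1 ∧ (∀ x ∈ Ioo p q, V x < 1) ∧
      0 < g p ∧ g q < 0 := by
  have hK : IsCompact (Icc u v ∩ (fun x => (V x, g x)) ⁻¹' (Ici 1 ×ˢ Ici 0)) :=
    isCompact_Icc.of_isClosed_subset ((hV.prodMk hg).preimage_isClosed_of_isClosed isClosed_Icc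
      (isClosed_Ici.prod isClosed_Ici)) inter_subset_left
  obtain ⟨p, hp, hpmax⟩ := hK.exists_isGreatest ⟨u, ⟨le_refl u, huv⟩, hVu, hgu.le⟩
  have hpI : p ∈ Icc u v := hp.1
  have hVp : 1 ≤ V p := hp.2.1
  have hgp : 0 < g p := lt_of_le_of_ne hp.2.2 (hne p hpI hVp).symm
  have hsub : Icc p v ⊆ Icc u v := Icc_subset_Icc hpI.1 le_rfl
  have hK2 : IsCompact (Icc p v ∩ (fun x => (V x, g x)) ⁻¹' (Ici 1 ×ˢ Iic 0)) :=
    isCompact_Icc.of_isClosed_subset (((hV.mono hsub).prodMk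
      (hg.mono hsub)).preimage_isClosed_of_isClosed isClosed_Icc
      (isClosed_Ici.prod isClosed_Iic)) inter_subset_left
  obtain ⟨q, hq, hqmin⟩ := hK2.exists_isLeast ⟨v, ⟨hpI.2, le_rfl⟩, hVv, hgv.le⟩
  have hqI : q ∈ Icc u v := hsub hq.1
  have hVq : 1 ≤ V q := hq.2.1
  have hgq : g q < 0 := lt_of_le_of_ne hq.2.2 (hne q hqI hVq)
  have hpq : p < q := by
    rcases hq.1.1.eq_or_lt with h | h
    · rw [← h] at hgq; linarith
    · exact h
  have hin : ∀ x ∈ Ioo p q, V x < 1 := by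
    intro x hx
    by_contra hcon
    have hxI : x ∈ Icc u v := ⟨hpI.1.trans hx.1.le, hx.2.le.trans hqI.2⟩
    rcases le_total 0 (g x) with h | h
    · have := hpmax ⟨hxI, not_lt.1 hcon, h⟩
      linarith [hx.1]
    · have := hqmin ⟨⟨hx.1.le, hxI.2⟩, not_lt.1 hcon, h⟩
      linarith [hx.2]
  have hcl : ∀ x ∈ Icc p q, V x ≤ 1 := by
    have h1 : ContinuousOn V (Icc p q) := hV.mono (Icc_subset_Icc hpI.1 hqI.2)
    intro x hx
    have h2 : x ∈ closure (Ioo p q) := by rw [closure_Ioo hpq.ne]; exact hx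
    have h3 : ContinuousWithinAt V (Ioo p q) x := (h1 x hx).mono Ioo_subset_Icc_self
    exact ContinuousWithinAt.closure_le h2 h3 continuousWithinAt_const (fun y hy => (hin y hy).le)
  exact ⟨p, q, hpI.1, hpq, hqI.2, le_antisymm (hcl p (left_mem_Icc.2 hpq.le)) hVp,
    le_antisymm (hcl q (right_mem_Icc.2 hpq.le)) hVq, hin, hgp, hgq⟩

/-- `ll c = |c| + c₁`; the action of the Fubini-Study metric is `π (1 - ll c)`. -/
noncomputable def ll (c : ℝ × ℝ) : ℝ := nn c + c.1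

lemma ll_cont : Continuous ll := nn_cont.add continuous_fst

/-- the domain -/
def KD (R : ℝ) : Set (ℝ × ℝ) := {c | 0 < c.1 ∧ 0 < c.2 ∧ ll c < R}

lemma fst_le_nn (c : ℝ × ℝ) : c.1 ≤ nn c := by
  unfold nn
  exact Real.le_sqrt_of_sq_le (by nlinarith [sq_nonneg c.2])

lemma ll_sq (c : ℝ × ℝ) : c.2 ^ 2 = ll c ^ 2 - 2 * ll c * c.1 := by
  have := nn_sq c
  unfold ll
  linarith

lemma two_fst_le (c : ℝ × ℝ) : 2 * c.1 ≤ ll c := by
  have := fst_le_nn c
  unfold ll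
  linarith

/-- The function whose sign change singles out the essential wells. -/
noncomputable def sg (a b : ℝ → ℝ) (s : ℝ) (c : ℝ × ℝ) (r : ℝ) : ℝ :=
  max (a r ^ 2 * ll c - c.1 * b r ^ 2) (s - r)

lemma sg_cont {a b : ℝ → ℝ} (ha : Continuous a) (hb : Continuous b) (s : ℝ) :
    Continuous (fun z : (ℝ × ℝ) × ℝ => sg a b s z.1 z.2) := by
  have := ll_cont
  unfold sg
  fun_prop

/-- The hypotheses on `s`. -/
structure SP (L R s : ℝ) (a b : ℝ → ℝ) : Prop where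
  pair : IsPair L a b
  R0 : 0 < R
  bL : R < b L
  L2 : π * R < 2 * L
  s0 : 0 < s
  sL : s < L
  as : R < 2 * a s
  rg : ∀ r, s ≤ r → r ≤ L → 2 * a r ^ 2 ≤ b r ^ 2 ∧ R ^ 2 < MM a b r

section
variable {L R s : ℝ} {a b : ℝ → ℝ} (H : SP L R s a b)
include H

lemma SP.kq : KQ L a b :=
  ⟨H.pair.pa.pos, H.pair.pa.smooth, H.pair.smooth_b, H.pair.pa.fpos,
    fun r h0 hL => H.pair.b_pos r h0 hL.le⟩

lemma SP.aL : a L = 0 := by
  have := H.pair.pa.odd_L 0
  simp at this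
  linarith

lemma SP.a0 : a 0 = 0 := by
  have := H.pair.pa.odd_zero 0
  simp at this
  linarith

lemma SP.b0 : b 0 = 0 := by
  have := H.pair.b_odd 0
  simp at this
  linarith

/-- The sign is not zero where `V ≥ 1`. -/
lemma SP.sg_ne {c : ℝ × ℝ} (h1 : 0 ≤ c.1) (hc : ll c < R) {r : ℝ} (h0 : 0 < r)
    (hL : r < L) (hV : 1 ≤ Veff a b c.1 c.2 r) : sg a b s c r ≠ 0 := by
  intro hz
  have ha := H.pair.pa.fpos r h0 hL
  have hb := H.pair.b_pos r h0 hL.le
  have hll0 : 0 ≤ ll c := by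
    have := nn_nonneg c
    unfold ll
    linarith
  have hX : a r ^ 2 * ll c - c.1 * b r ^ 2 ≤ 0 := by rw [← hz]; exact le_max_left _ _
  have hsr : s - r ≤ 0 := by rw [← hz]; exact le_max_right _ _
  obtain ⟨g1, g2⟩ := H.rg r (by linarith) hL.le
  have hc2 := ll_sq c
  have h2c := two_fst_le c
  have hRR : ll c ^ 2 < R ^ 2 := pow_lt_pow_left₀ hc hll0 two_ne_zero
  have hVe : Veff a b c.1 c.2 r * (a r ^ 2 * b r ^ 2) = c.1 ^ 2 * b r ^ 2 + c.2 ^ 2 * a r ^ 2 := by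
    unfold Veff
    field_simp
  have hV' : a r ^ 2 * b r ^ 2 ≤ c.1 ^ 2 * b r ^ 2 + c.2 ^ 2 * a r ^ 2 := by
    rw [← hVe]
    nlinarith [mul_pos (pow_pos ha 2) (pow_pos hb 2)]
  rw [hc2] at hV'
  set x := c.1
  set l := ll c
  set A := a r ^ 2
  set B := b r ^ 2
  have hA : 0 < A := pow_pos ha 2
  have hB : 0 < B := pow_pos hb 2
  have hAB : 0 < B - A := by linarith
  rcases max_choice (a r ^ 2 * ll c - c.1 * b r ^ 2) (s - r) with h | h
  · have hX0 : A * l - x * B = 0 := by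
      unfold sg at hz
      rw [h] at hz
      exact hz
    have hMM : R ^ 2 * (B - A) < B ^ 2 := by
      have h3 : MM a b r = B ^ 2 / (B - A) := by
        unfold MM
        congr 1
        show b r ^ 4 = (b r ^ 2) ^ 2
        ring
      rw [h3, lt_div_iff₀ hAB] at g2
      exact g2
    have h4 : l ^ 2 * (B - A) < B ^ 2 := by nlinarith
    have h5 : (x ^ 2 * B + (l ^ 2 - 2 * l * x) * A) * B = A * (l ^ 2 * (B - A)) := by
      linear_combination (-x * B + A * l) * hX0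
    have h6 : A * B * B ≤ (x ^ 2 * B + (l ^ 2 - 2 * l * x) * A) * B :=
      mul_le_mul_of_nonneg_right hV' hB.le
    rw [h5] at h6
    nlinarith [mul_lt_mul_of_pos_left h4 hA]
  · have hrs : r = s := by
      unfold sg at hz
      rw [h] at hz
      linarith
    have h3 : l ^ 2 < 4 * A := by
      have h4 : l < 2 * a r := by rw [hrs]; linarith [H.as]
      have h5 : l ^ 2 < (2 * a r) ^ 2 := pow_lt_pow_left₀ h4 hll0 two_ne_zero
      have h6 : (2 * a r) ^ 2 = 4 * A := by show (2 * a r) ^ 2 = 4 * a r ^ 2; ring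
      linarith
    have h4 : 0 ≤ (x * B - A * l) * (l - 2 * x) := mul_nonneg (by linarith) (by linarith)
    have h5 : x * l * (B - 2 * A) ≤ l ^ 2 / 2 * (B - 2 * A) :=
      mul_le_mul_of_nonneg_right (by nlinarith) (by linarith)
    nlinarith [mul_lt_mul_of_pos_right h3 hB]

/-- The essential wells. -/
def Ess (L : ℝ) (a b : ℝ → ℝ) (s : ℝ) (c : ℝ × ℝ) (p q : ℝ) : Prop :=
  0 < p ∧ p < q ∧ q < L ∧ Veff a b c.1 c.2 p = 1 ∧ Veff a b c.1 c.2 q = 1 ∧
    (∀ x ∈ Ioo p q, Veff a b c.1 c.2 x < 1) ∧ 0 < sg a b s c p ∧ sg a b s c q < 0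

lemma SP.exists_Ess {c : ℝ × ℝ} (hc : c ∈ KD R) : ∃ p q, Ess L a b s c p q := by
  obtain ⟨h1, h2, h3⟩ := hc
  have hK := H.kq
  have hac : Continuous a := hK.sf.continuous
  have hbc : Continuous b := hK.sh.continuous
  -- near `0`
  obtain ⟨u, hu0, hus, hu1⟩ : ∃ u, 0 < u ∧ u < s ∧ 1 ≤ Veff a b c.1 c.2 u := by
    have e1 : Tendsto a (𝓝[>] 0) (𝓝 (a 0)) := hac.continuousAt.mono_left nhdsWithin_le_nhds
    rw [H.a0] at e1
    obtain ⟨u, hu, hu'⟩ := ((e1.eventually_lt_const h1).and (Ioo_mem_nhdsGT H.s0)).exists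
    refine ⟨u, hu'.1, hu'.2, ?_⟩
    have hfu : 0 < a u := hK.fpos u hu'.1 (hu'.2.trans H.sL)
    have : 1 ≤ c.1 / a u := by rw [le_div_iff₀ hfu]; linarith
    unfold Veff
    nlinarith [sq_nonneg (c.2 / b u)]
  obtain ⟨v, hsv, hvL, hv1, hv2⟩ : ∃ v, s < v ∧ v < L ∧ 1 ≤ Veff a b c.1 c.2 v ∧
      a v ^ 2 * ll c - c.1 * b v ^ 2 < 0 := by
    have e1 : Tendsto a (𝓝[<] L) (𝓝 (a L)) := hac.continuousAt.mono_left nhdsWithin_le_nhds
    rw [H.aL] at e1
    have e2 : Tendsto (fun v => a v ^ 2 * ll c - c.1 * b v ^ 2) (𝓝[<] L)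
        (𝓝 (a L ^ 2 * ll c - c.1 * b L ^ 2)) := by
      have : Continuous fun v => a v ^ 2 * ll c - c.1 * b v ^ 2 := by fun_prop
      exact this.continuousAt.mono_left nhdsWithin_le_nhds
    have e3 : a L ^ 2 * ll c - c.1 * b L ^ 2 < 0 := by
      rw [H.aL]
      have : 0 < b L := H.R0.trans H.bL
      have : 0 < c.1 * b L ^ 2 := by positivity
      linarith
    obtain ⟨v, ⟨hv, hv'⟩, hv''⟩ := (((e1.eventually_lt_const h1).and
      (e2.eventually_lt_const e3)).and (Ioo_mem_nhdsLT H.sL)).exists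
    refine ⟨v, hv''.1, hv''.2, ?_, hv'⟩
    have hfv : 0 < a v := hK.fpos v (H.s0.trans hv''.1) hv''.2
    have : 1 ≤ c.1 / a v := by rw [le_div_iff₀ hfv]; linarith
    unfold Veff
    nlinarith [sq_nonneg (c.2 / b v)]
  have hsub : Icc u v ⊆ Ioo 0 L := fun x hx => ⟨hu0.trans_le hx.1, hx.2.trans_lt hvL⟩
  have hgc : Continuous (sg a b s c) :=
    (sg_cont hac hbc s).comp (by fun_prop : Continuous fun r : ℝ => (c, r))
  obtain ⟨p, q, hp, hpq, hq, k1, k2, k3, k4, k5⟩ := exists_ess (V := Veff a b c.1 c.2)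
    (g := sg a b s c) (hus.trans hsv).le (hK.cont_V.mono hsub) hgc.continuousOn hu1 hv1
    (lt_max_of_lt_right (by linarith)) (max_lt hv2 (by linarith))
    (fun x hx hVx => H.sg_ne h1.le h3 (hsub hx).1 (hsub hx).2 hVx)
  exact ⟨p, q, hu0.trans_le hp, hpq, hq.trans_lt hvL, k1, k2, k3, k4, k5⟩

end

end Pool.Agent.L7h84.KP
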